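import Pool.Agent.Lib.MP_216314_pr.QL.Hom
import Pool.Agent.Lib.MP_216314_pr.Q4.ValB
import Pool.Agent.Lib.MP_216314_pr.Q4.ValF
import Pool.Agent.Lib.MP_216314_pr.Q.QFin

/-!
# Two legs: the exact value

`l = 1`: `GG 1 m 1` is unimodularly equivalent (`UEq (2m+2)`) to the monomials `X^(3 (j/2) + j % 2)`, `j < 2m+2` (exponents `0, 1, 3, 4, 6, 7, ...`): induction on `m` as in `Q4/ValB` (`ueq_step`, `ueq_FF`; `QL.GG 1 (m+1) z = pre (X^0) (X^1) (fun j => (X^3 - C (z 0 ^ 3)) * GG 1 m _ j)`, `GG 1 0 = (1, X)`).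
So `PhF (2m+2) (GG 1 m 1) 1 * ∏_{l<2m+2} l! = Vandermonde(0,1,3,4,..)` (`det_choose`, `DD_X_pow`, `hh_one`, `PhF_ueq`) `= VE m` (the Vandermonde determinant is invariant under the translation by 1, `ee j = 3 (j/2) + 1 + j % 2`; `Matrix.det_vandermonde`, and `Complex.ofReal` / `RingHom.map_det`).
`m = 2n+1`: `VE_succ (2n)`, `VE_val (2n)`: `VE (2n+1) = An (2n+2) 3^(n(2n+1)) 3^(2n+1) ∏_{l<4n+4} l!`. `QL.hom_value` with `l = 1`, `m = 2n+1`, `L = 2n+2`, and `CYQ.EE_neg_one`.
-/

set_option autoImplicit false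

noncomputable section

namespace QV

open Finset CY Q4

section fam

open Polynomial

/-- unit upper triangular column operations -/
private theorem V_tri {N : ℕ} {g g' : ℕ → ℂ[X]} (c : ℕ → ℕ → ℂ)
    (h : ∀ j, j < N → g' j = (∑ i ∈ range j, C (c i j) * g i) + g j) : UEq N g g' := by
  refine ⟨Matrix.of fun i j : Fin N => if (i : ℕ) = j then (1 : ℂ) else if (i : ℕ) < j then c i j else 0, ?_, ?_⟩
  · rw [Matrix.det_of_isUpperTriangular]
    · refine Finset.prod_eq_one fun i _ => ?_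
      rw [Matrix.of_apply, if_pos rfl]
    · intro i j hij
      have h1 : (j : ℕ) < i := hij
      rw [Matrix.of_apply, if_neg (by omega), if_neg (by omega)]
  · intro j
    have h1 : ∑ i : Fin N, C ((Matrix.of fun i j : Fin N =>
        if (i : ℕ) = j then (1 : ℂ) else if (i : ℕ) < j then c i j else 0) i j) * g i =
        ∑ i ∈ range N, C (if i = j then (1 : ℂ) else if i < j then c i j else 0) * g i :=
      Fin.sum_univ_eq_sum_range
        (fun i => C (if i = j then (1 : ℂ) else if i < j then c i j else 0) * g i) N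
    rw [h1]
    have h2 : ∑ i ∈ range ((j : ℕ) + 1), C (if i = j then (1 : ℂ) else if i < j then c i j else 0) * g i =
        ∑ i ∈ range N, C (if i = j then (1 : ℂ) else if i < j then c i j else 0) * g i := by
      refine Finset.sum_subset (Finset.range_subset_range.2 j.2) fun i _ hi => ?_
      rw [Finset.mem_range, not_lt] at hi
      rw [if_neg (by omega), if_neg (by omega), map_zero, zero_mul]
    rw [← h2, Finset.sum_range_succ, if_pos rfl, map_one, one_mul, h j j.2]
    congr 1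
    refine Finset.sum_congr rfl fun i hi => ?_
    rw [Finset.mem_range] at hi
    rw [if_neg (by omega), if_pos hi]

/-- the exponents -/
private def V_k (j : ℕ) : ℕ := 3 * (j / 2) + j % 2

private theorem V_k_add (j : ℕ) : V_k (j + 2) = V_k j + 3 := by
  unfold V_k
  omega

/-- the family before the last step -/
private def V_g : ℕ → ℂ[X] := Q4.pre (X ^ 0) (X ^ 1) (fun j => (X ^ 3 - C 1) * X ^ V_k j)

private theorem V_g_zero : V_g 0 = 1 := by
  show (X : ℂ[X]) ^ 0 = 1
  rw [pow_zero]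

private theorem V_g_one : V_g 1 = X := by
  show (X : ℂ[X]) ^ 1 = X
  rw [pow_one]

private theorem V_g_add (j : ℕ) : V_g (j + 2) = X ^ V_k (j + 2) - X ^ V_k j := by
  unfold V_g Q4.pre
  rw [if_neg (by omega), if_neg (by omega), V_k_add, map_one, pow_add]
  show (X ^ 3 - 1) * X ^ V_k j = _
  ring

/-- the telescoping sum -/
private theorem V_sum : ∀ j : ℕ,
    ∑ i ∈ range (j + 1), C (if i % 2 = j % 2 then (1 : ℂ) else 0) * V_g i = X ^ V_k j := by
  intro j
  induction j using Nat.strong_induction_on with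
  | _ j ih =>
    match j, ih with
    | 0, _ =>
      rw [zero_add, Finset.sum_range_one, if_pos rfl, map_one, one_mul, V_g_zero]
      show (1 : ℂ[X]) = X ^ 0
      rw [pow_zero]
    | 1, _ =>
      rw [Finset.sum_range_succ, Finset.sum_range_one, if_neg (by omega), if_pos rfl, map_zero, zero_mul,
        zero_add, map_one, one_mul, V_g_one]
      show (X : ℂ[X]) = X ^ 1
      rw [pow_one]
    | j + 2, ih =>
      rw [Finset.sum_range_succ, Finset.sum_range_succ, if_pos rfl, if_neg (by omega), map_zero, zero_mul,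
        add_zero, map_one, one_mul, V_g_add j]
      have h1 := ih j (by omega)
      have h2 : ∑ i ∈ range (j + 1), C (if i % 2 = (j + 2) % 2 then (1 : ℂ) else 0) * V_g i = X ^ V_k j := by
        rw [← h1]
        refine Finset.sum_congr rfl fun i _ => ?_
        have e : (j + 2) % 2 = j % 2 := by omega
        rw [e]
      rw [h2]
      ring

private theorem V_ueq (m : ℕ) : UEq (2 * m + 2) (QL.GG 1 m fun _ => 1) (fun j => X ^ V_k j) := by
  induction m with
  | zero =>
    refine UEq_congr fun j hj => ?_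
    match j, hj with
    | 0, _ =>
      show (if 0 < 2 * 1 then (X : ℂ[X]) ^ 0 else 0) = X ^ 0
      rw [if_pos (by omega)]
    | 1, _ =>
      show (if 1 < 2 * 1 then (X : ℂ[X]) ^ 1 else 0) = X ^ 1
      rw [if_pos (by omega)]
    | j + 2, hj => exact absurd hj (by omega)
  | succ m ih =>
    have h1 := UEq.pre ih (X ^ 0) (X ^ 1) (X ^ 3 - C 1)
    have h2 : UEq (2 * m + 2 + 2) V_g (fun j => X ^ V_k j) := by
      refine V_tri (fun i j => if i % 2 = j % 2 then 1 else 0) fun j _ => ?_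
      rw [← V_sum j, Finset.sum_range_succ, if_pos rfl, map_one, one_mul]
    have h3 := UEq.trans h1 h2
    have e : (QL.GG 1 (m + 1) fun _ => 1) =
        Q4.pre (X ^ 0) (X ^ 1) fun j => (X ^ 3 - C 1) * QL.GG 1 m (fun _ => 1) j := by
      show Q4.pre (X ^ QL.e1 1) (X ^ QL.e2 1)
        (fun j => (X ^ 3 - C ((1 : ℂ) ^ 3)) * QL.GG 1 m (fun _ => 1) j) = _
      rw [one_pow]
      rfl
    rw [e]
    exact h3

end fam

theorem PhF_one (m : ℕ) : PhF (2 * m + 2) (QL.GG 1 m fun _ => 1) (fun _ => 1) * ∏ l ∈ range (2 * m + 2), (l.factorial : ℂ) =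
    ((VE m : ℝ) : ℂ) := by
  have h1 : PhF (2 * m + 2) (QL.GG 1 m fun _ => 1) (fun _ => 1) =
      (Matrix.of fun i j : Fin (2 * m + 2) => ((V_k j).choose i : ℂ)).det := by
    rw [← PhF_ueq (V_ueq m)]
    unfold PhF
    congr 1
    ext i j
    rw [Matrix.of_apply, Matrix.of_apply, DD_X_pow, hh_one]
  rw [h1, det_choose]
  have h2 : (Matrix.vandermonde fun j : Fin (2 * m + 2) => ((V_k j : ℕ) : ℂ)).det =
      (Matrix.vandermonde fun j : Fin (2 * m + 2) => ((ee j : ℕ) : ℂ)).det := by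
    rw [← Matrix.det_vandermonde_add (fun j : Fin (2 * m + 2) => ((V_k j : ℕ) : ℂ)) 1]
    congr 2
    funext j
    unfold V_k ee
    push_cast
    ring
  rw [h2]
  unfold VE
  rw [← Complex.ofRealHom_eq_coe, RingHom.map_det]
  congr 1
  ext i j
  rw [RingHom.mapMatrix_apply, Matrix.map_apply, Matrix.vandermonde_apply,
    Matrix.vandermonde_apply, map_pow, Complex.ofRealHom_eq_coe, Complex.ofReal_natCast]

theorem two_value (n : ℕ) {q : ℂ} (hq : q ^ 2 + q + 1 = 0) {Pb P : Pat (2 * n + 2) → MvPolynomial ℕ ℂ}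
    (hPb : IsPsi (q ^ 2) (2 * n + 2) Pb) (hP : IsPsi q (2 * n + 2) P) :
    WB 1 1 (ev Pb fun _ => 1) (ev P fun _ => 1) = EE (-1) Pb P (fun _ => 1) := by
  rw [QL.hom_value (l := 1) (m := 2 * n + 1) (by omega) (by omega) ⟨n + 1, by ring⟩ hq hPb hP,
    CYQ.EE_neg_one hq n hPb hP]
  have h0 : Nat.choose 1 2 = 0 := rfl
  rw [h0, pow_zero, one_mul]
  have h1 := PhF_one (2 * n + 1)
  have h2 := VE_succ (2 * n)
  have h3 := VE_val (2 * n)
  have hE : (2 * n + 1) * (2 * n) / 2 = (2 * n + 1) * n := by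
    rw [show (2 * n + 1) * (2 * n) = (2 * n + 1) * n * 2 from by ring]
    exact Nat.mul_div_cancel _ (by norm_num)
  rw [hE] at h3
  have h4 : VE (2 * n + 1) = 3 ^ ((n + 1) * (2 * n + 1)) * CYQ.An (2 * n + 2) *
      ∏ l ∈ range (2 * (2 * n) + 4), (l.factorial : ℝ) := by
    rw [h2, show (n + 1) * (2 * n + 1) = (2 * n + 1) * n + (2 * n + 1) from by ring, pow_add]
    linear_combination 3 ^ (2 * n + 1) * h3
  have hN : 2 * (2 * n) + 4 = 2 * (2 * n + 1) + 2 := by ring
  rw [hN] at h4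
  rw [h4] at h1
  have hne : (∏ l ∈ range (2 * (2 * n + 1) + 2), (l.factorial : ℂ)) ≠ 0 :=
    Finset.prod_ne_zero_iff.2 fun l _ => Nat.cast_ne_zero.2 (Nat.factorial_ne_zero l)
  apply mul_right_cancel₀ hne
  rw [show (2 * (2 * n + 1) + 2 * 1 : ℕ) = 2 * (2 * n + 1) + 2 from rfl, h1]
  push_cast
  ring

end QV
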