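import Pool.Agent.Lib.MP_216314_pr.QV.J
import Pool.Agent.Lib.MP_216314_pr.QV.V
import Pool.Agent.Lib.MP_216314_pr.Q4.ValZ

/-!
# The law of `2l` legs for all `l`
-/

set_option autoImplicit false

noncomputable section

namespace QV

open Finset CY Q4 Filter Topology

/-- comparison of powers of `k + 1` and `n + 1` -/
private theorem Z_pow {l k n : ℕ} (h1 : k ≤ n) (h2 : n ≤ k + l) {s : ℝ} (hs : s ≤ 0) :
    ((n : ℝ) + 1) ^ s ≤ ((k : ℝ) + 1) ^ s ∧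
      ((k : ℝ) + 1) ^ s ≤ ((l : ℝ) + 1) ^ (-s) * ((n : ℝ) + 1) ^ s := by
  have hk : (0 : ℝ) < (k : ℝ) + 1 := by positivity
  have hn : (0 : ℝ) < (n : ℝ) + 1 := by positivity
  have hl : (0 : ℝ) < (l : ℝ) + 1 := by positivity
  have h1' : (k : ℝ) ≤ n := by exact_mod_cast h1
  have h2' : (n : ℝ) ≤ k + l := by exact_mod_cast h2
  refine ⟨Real.rpow_le_rpow_of_nonpos hk (by linarith) hs, ?_⟩
  have h3 : ((n : ℝ) + 1) / ((l : ℝ) + 1) ≤ (k : ℝ) + 1 := by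
    rw [div_le_iff₀ hl]
    have h4 : (0 : ℝ) ≤ (k : ℝ) * l := by positivity
    nlinarith
  have h5 := Real.rpow_le_rpow_of_nonpos (div_pos hn hl) h3 hs
  refine h5.trans_eq ?_
  rw [Real.div_rpow hn.le hl.le, Real.rpow_neg hl.le, div_eq_inv_mul]

/-- one step for one parity -/
private theorem Z_one {R : ℕ → ℝ} {l : ℕ}
    (hR : Sim R (fun n => ((n : ℝ) + 1) ^ (-((4 * l + 4) / 3) : ℝ))) :
    ∃ c C : ℝ, 0 < c ∧ 0 < C ∧ ∀ (k n : ℕ), k ≤ n → n ≤ k + l → ∀ A B : ℝ, 0 ≤ B →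
      A = 3 ^ (2 * l + 1) * (R k * B) →
      c * ((n : ℝ) + 1) ^ (-((4 * l + 4) / 3) : ℝ) * B ≤ A ∧
        A ≤ C * ((n : ℝ) + 1) ^ (-((4 * l + 4) / 3) : ℝ) * B := by
  obtain ⟨hpos, -, c, C, hc, hC, H⟩ := hR
  have hs : (-((4 * l + 4) / 3) : ℝ) ≤ 0 := by
    have : (0 : ℝ) ≤ (4 * (l : ℝ) + 4) / 3 := by positivity
    linarith
  have hl : (0 : ℝ) < ((l : ℝ) + 1) ^ (-(-((4 * l + 4) / 3)) : ℝ) :=
    Real.rpow_pos_of_pos (by positivity) _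
  refine ⟨3 ^ (2 * l + 1) * c, 3 ^ (2 * l + 1) * (C * ((l : ℝ) + 1) ^ (-(-((4 * l + 4) / 3)) : ℝ)),
    by positivity, by positivity, ?_⟩
  intro k n h1 h2 A B hB hA
  obtain ⟨p1, p2⟩ := Z_pow h1 h2 hs
  obtain ⟨q1, q2⟩ := H k
  have h3 : (0 : ℝ) < 3 ^ (2 * l + 1) := by positivity
  rw [hA]
  constructor
  · calc 3 ^ (2 * l + 1) * c * ((n : ℝ) + 1) ^ (-((4 * l + 4) / 3) : ℝ) * B
        = 3 ^ (2 * l + 1) * (c * ((n : ℝ) + 1) ^ (-((4 * l + 4) / 3) : ℝ) * B) := by ring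
      _ ≤ 3 ^ (2 * l + 1) * (c * ((k : ℝ) + 1) ^ (-((4 * l + 4) / 3) : ℝ) * B) := by
          refine mul_le_mul_of_nonneg_left (mul_le_mul_of_nonneg_right ?_ hB) h3.le
          exact mul_le_mul_of_nonneg_left p1 hc.le
      _ ≤ 3 ^ (2 * l + 1) * (R k * B) :=
          mul_le_mul_of_nonneg_left (mul_le_mul_of_nonneg_right q1 hB) h3.le
  · calc 3 ^ (2 * l + 1) * (R k * B)
        ≤ 3 ^ (2 * l + 1) * (C * ((k : ℝ) + 1) ^ (-((4 * l + 4) / 3) : ℝ) * B) :=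
          mul_le_mul_of_nonneg_left (mul_le_mul_of_nonneg_right q2 hB) h3.le
      _ ≤ 3 ^ (2 * l + 1) * (C * (((l : ℝ) + 1) ^ (-(-((4 * l + 4) / 3)) : ℝ) *
            ((n : ℝ) + 1) ^ (-((4 * l + 4) / 3) : ℝ)) * B) := by
          refine mul_le_mul_of_nonneg_left (mul_le_mul_of_nonneg_right ?_ hB) h3.le
          exact mul_le_mul_of_nonneg_left p2 hC.le
      _ = _ := by ring

private theorem Z_choose (l : ℕ) : (l + 2).choose 2 = l.choose 2 + (2 * l + 1) := by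
  rw [Nat.choose_succ_succ' (l + 1) 1, Nat.choose_succ_succ' l 1, Nat.choose_one_right,
    Nat.choose_one_right]
  ring

/-- the quotient of the norms -/
private theorem Z_norm {l : ℕ} {R : ℝ} {a b : ℂ} (h : ‖a‖ = R * ‖b‖) :
    ‖(3 : ℂ) ^ (l + 2).choose 2 * a‖ = 3 ^ (2 * l + 1) * (R * ‖(3 : ℂ) ^ l.choose 2 * b‖) := by
  have h3 : ‖(3 : ℂ)‖ = 3 := by norm_num
  rw [norm_mul, norm_mul, norm_pow, norm_pow, h3, h, Z_choose, pow_add]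
  ring

theorem legs_step {q : ℂ} (hq : q ^ 2 + q + 1 = 0) (l : ℕ) (hl : 0 < l) : ∃ c C : ℝ, 0 < c ∧ 0 < C ∧ ∀ (n : ℕ),
    l + 2 ≤ 2 * n + 2 → ∀ (Pb P : Pat (2 * n + 2) → MvPolynomial ℕ ℂ), IsPsi (q ^ 2) (2 * n + 2) Pb → IsPsi q (2 * n + 2) P →
    c * ((n : ℝ) + 1) ^ (-((4 * l + 4) / 3) : ℝ) * ‖WB l l (ev Pb fun _ => 1) (ev P fun _ => 1)‖ ≤
        ‖WB (l + 2) (l + 2) (ev Pb fun _ => 1) (ev P fun _ => 1)‖ ∧
      ‖WB (l + 2) (l + 2) (ev Pb fun _ => 1) (ev P fun _ => 1)‖ ≤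
        C * ((n : ℝ) + 1) ^ (-((4 * l + 4) / 3) : ℝ) * ‖WB l l (ev Pb fun _ => 1) (ev P fun _ => 1)‖ := by
  obtain ⟨c1, C1, hc1, hC1, H1⟩ := Z_one (RA_sim l hl)
  obtain ⟨c2, C2, hc2, hC2, H2⟩ := Z_one (RB_sim l hl)
  refine ⟨min c1 c2, max C1 C2, lt_min hc1 hc2, lt_max_of_lt_left hC1, ?_⟩
  intro n hn Pb P hPb hP
  have hx : (0 : ℝ) ≤ ((n : ℝ) + 1) ^ (-((4 * l + 4) / 3) : ℝ) :=
    Real.rpow_nonneg (by positivity) _
  have hB : 0 ≤ ‖WB l l (ev Pb fun _ => 1) (ev P fun _ => 1)‖ := norm_nonneg _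
  have hEv : Even (2 * n + 2) := ⟨n + 1, by ring⟩
  rcases Nat.even_or_odd' (2 * n - l) with ⟨k, hk | hk⟩
  · have e1 := QL.hom_value (l := l + 2) (m := 2 * k) (by omega) (by omega) hEv hq hPb hP
    have e2 := QL.hom_value (l := l) (m := 2 * k + 2) hl (by omega) hEv hq hPb hP
    have h3 := Z_norm (l := l) (ratio_even l k hl)
    rw [← e1, ← e2] at h3
    obtain ⟨r1, r2⟩ := H1 k n (by omega) (by omega) _ _ hB h3
    exact ⟨(mul_le_mul_of_nonneg_right (mul_le_mul_of_nonneg_right (min_le_left _ _) hx) hB).trans r1,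
      r2.trans (mul_le_mul_of_nonneg_right (mul_le_mul_of_nonneg_right (le_max_left _ _) hx) hB)⟩
  · have e1 := QL.hom_value (l := l + 2) (m := 2 * k + 1) (by omega) (by omega) hEv hq hPb hP
    have e2 := QL.hom_value (l := l) (m := 2 * k + 3) hl (by omega) hEv hq hPb hP
    have h3 := Z_norm (l := l) (ratio_odd l k hl)
    rw [← e1, ← e2] at h3
    obtain ⟨r1, r2⟩ := H2 k n (by omega) (by omega) _ _ hB h3
    exact ⟨(mul_le_mul_of_nonneg_right (mul_le_mul_of_nonneg_right (min_le_right _ _) hx) hB).trans r1,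
      r2.trans (mul_le_mul_of_nonneg_right (mul_le_mul_of_nonneg_right (le_max_right _ _) hx) hB)⟩

theorem legs_asy {q : ℂ} (hq : q ^ 2 + q + 1 = 0) (l : ℕ) (hl : 0 < l) : ∃ c C : ℝ, 0 < c ∧ 0 < C ∧ ∀ (n : ℕ),
    l ≤ 2 * n + 2 → ∀ (Pb P : Pat (2 * n + 2) → MvPolynomial ℕ ℂ), IsPsi (q ^ 2) (2 * n + 2) Pb → IsPsi q (2 * n + 2) P →
    c * ((n : ℝ) + 1) ^ (-((4 * l ^ 2 - 1) / 12) : ℝ) ≤
        ‖WB l l (ev Pb fun _ => 1) (ev P fun _ => 1) / EE 1 Pb P (fun _ => 1)‖ ∧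
      ‖WB l l (ev Pb fun _ => 1) (ev P fun _ => 1) / EE 1 Pb P (fun _ => 1)‖ ≤
        C * ((n : ℝ) + 1) ^ (-((4 * l ^ 2 - 1) / 12) : ℝ) := by
  induction l using Nat.strong_induction_on with
  | _ l ih =>
    match l, hl, ih with
    | 1, _, _ =>
      obtain ⟨c, C, hc, hC, H⟩ := CYQ.ratio_neg_one hq
      have h2p : (0 : ℝ) < 2 ^ (-(1 / 4) : ℝ) := Real.rpow_pos_of_pos (by norm_num) _
      refine ⟨c * 2 ^ (-(1 / 4) : ℝ), C * 2 ^ (-(1 / 4) : ℝ), by positivity, by positivity, ?_⟩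
      intro n _ Pb P hPb hP
      obtain ⟨h1, h2⟩ := H n Pb P hPb hP
      have hn : (0 : ℝ) < (n : ℝ) + 1 := by positivity
      have e1 : ((2 * n + 2 : ℕ) : ℝ) ^ (-(1 / 4) : ℝ) =
          2 ^ (-(1 / 4) : ℝ) * ((n : ℝ) + 1) ^ (-((4 * ((1 : ℕ) : ℝ) ^ 2 - 1) / 12) : ℝ) := by
        have e2 : (-((4 * ((1 : ℕ) : ℝ) ^ 2 - 1) / 12) : ℝ) = -(1 / 4) := by
          push_cast
          norm_num
        rw [e2, ← Real.mul_rpow (by norm_num) hn.le]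
        congr 1
        push_cast
        ring
      rw [e1] at h1 h2
      rw [two_value n hq hPb hP]
      rw [mul_assoc, mul_assoc]
      exact ⟨h1, h2⟩
    | 2, _, _ =>
      obtain ⟨c, C, hc, hC, H⟩ := Q4.four_asy hq
      refine ⟨c, C, hc, hC, ?_⟩
      intro n _ Pb P hPb hP
      have e2 : (-((4 * ((2 : ℕ) : ℝ) ^ 2 - 1) / 12) : ℝ) = -(5 / 4) := by
        push_cast
        norm_num
      rw [e2]
      exact H n Pb P hPb hP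
    | l + 3, _, ih =>
      obtain ⟨c1, C1, hc1, hC1, H1⟩ := legs_step hq (l + 1) (by omega)
      obtain ⟨c2, C2, hc2, hC2, H2⟩ := ih (l + 1) (by omega) (by omega)
      refine ⟨c1 * c2, C1 * C2, by positivity, by positivity, ?_⟩
      intro n hn Pb P hPb hP
      obtain ⟨r1, r2⟩ := H1 n (by omega) Pb P hPb hP
      obtain ⟨p1, p2⟩ := H2 n (by omega) Pb P hPb hP
      have hn : (0 : ℝ) < (n : ℝ) + 1 := by positivity
      have hx : (0 : ℝ) < ((n : ℝ) + 1) ^ (-((4 * ((l + 1 : ℕ) : ℝ) + 4) / 3) : ℝ) :=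
        Real.rpow_pos_of_pos hn _
      have e : ((n : ℝ) + 1) ^ (-((4 * ((l + 3 : ℕ) : ℝ) ^ 2 - 1) / 12) : ℝ) =
          ((n : ℝ) + 1) ^ (-((4 * ((l + 1 : ℕ) : ℝ) + 4) / 3) : ℝ) *
            ((n : ℝ) + 1) ^ (-((4 * ((l + 1 : ℕ) : ℝ) ^ 2 - 1) / 12) : ℝ) := by
        rw [← Real.rpow_add hn]
        congr 1
        push_cast
        ring
      rw [norm_div] at p1 p2 ⊢
      have hE : 0 ≤ ‖EE 1 Pb P fun _ => 1‖ := norm_nonneg _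
      have r1' := div_le_div_of_nonneg_right r1 hE
      have r2' := div_le_div_of_nonneg_right r2 hE
      rw [e]
      constructor
      · refine le_trans ?_ r1'
        rw [mul_div_assoc]
        calc c1 * c2 * (((n : ℝ) + 1) ^ (-((4 * ((l + 1 : ℕ) : ℝ) + 4) / 3) : ℝ) *
              ((n : ℝ) + 1) ^ (-((4 * ((l + 1 : ℕ) : ℝ) ^ 2 - 1) / 12) : ℝ))
            = c1 * ((n : ℝ) + 1) ^ (-((4 * ((l + 1 : ℕ) : ℝ) + 4) / 3) : ℝ) *
              (c2 * ((n : ℝ) + 1) ^ (-((4 * ((l + 1 : ℕ) : ℝ) ^ 2 - 1) / 12) : ℝ)) := by ring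
          _ ≤ _ := mul_le_mul_of_nonneg_left p1 (by positivity)
      · refine le_trans r2' ?_
        rw [mul_div_assoc]
        calc _ ≤ C1 * ((n : ℝ) + 1) ^ (-((4 * ((l + 1 : ℕ) : ℝ) + 4) / 3) : ℝ) *
              (C2 * ((n : ℝ) + 1) ^ (-((4 * ((l + 1 : ℕ) : ℝ) ^ 2 - 1) / 12) : ℝ)) :=
              mul_le_mul_of_nonneg_left p2 (by positivity)
          _ = _ := by ring

/-- `2l` LEGS ON THE INFINITE CYLINDER, ALL `l`: the limit exists, is real and decays like `(n+1)^(-(4l²-1)/12)`, circumference `2n+2` -/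
theorem legs_law {q : ℂ} (hq : q ^ 2 + q + 1 = 0) (l : ℕ) (hl : 0 < l) : ∃ c C : ℝ, 0 < c ∧ 0 < C ∧ ∀ (n : ℕ),
    l ≤ 2 * n + 2 → ∀ (Pb P : Pat (2 * n + 2) → MvPolynomial ℕ ℂ), IsPsi (q ^ 2) (2 * n + 2) Pb → IsPsi q (2 * n + 2) P →
    ∃ r : ℝ, c * ((n : ℝ) + 1) ^ (-((4 * l ^ 2 - 1) / 12) : ℝ) ≤ r ∧ r ≤ C * ((n : ℝ) + 1) ^ (-((4 * l ^ 2 - 1) / 12) : ℝ) ∧
      ∀ β α : Pat (2 * n + 2),
        Tendsto (fun m : ℕ => WB l l ((TT^[2 * m]) (Pi.single β 1)) ((TT^[2 * m]) (Pi.single α 1))) atTop (𝓝 (r : ℂ)) := by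
  obtain ⟨c, C, hc, hC, H⟩ := legs_asy hq l hl
  refine ⟨c, C, hc, hC, fun n hn Pb P hPb hP => ?_⟩
  obtain ⟨h1, h2⟩ := H n hn Pb P hPb hP
  refine ⟨_, h1, h2, fun β α => ?_⟩
  rw [← legs_real hq l l (by omega) ⟨n + 1, by ring⟩ hPb hP]
  exact tendsto_legs hq l l (by omega) ⟨n + 1, by ring⟩ hPb hP β α

end QV
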