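import Pool.Agent.Lib.MP_216314_pr.QV.A0

/-!
# The functionals

`fn` is additive and homogeneous. `X^r (X³-1)^k = ∑_{n ≤ k} (-1)^(k-n) choose k n X^(3n+r)` (`add_pow`), so for `3k + r < T`: `fn l m i (X^r (X³-1)^k) = 0` if `(r + 2l + 2) % 3 ≠ 0`, and if `r = 3s + e0 l`: `= ∑_{n ≤ k} (-1)^(k-n) choose k n * choose (n+s) i` (`(3n+3s+e0)/3 = n+s`).
`fd k i s`: this sum is `0` for `i < k` and `1` for `i = k`, and for `s = 0` it is `δ_ik` (all `i`, `k`; for `i > k` all terms vanish): induction on `k`: the sum for `k+1` at `s` is the sum for `k` at `s+1` minus the sum for `k` at `s` (Pascal for `choose (k+1) n`), and `choose (n+s+1) i - choose (n+s) i = choose (n+s) (i-1)`.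
`fn_low`: `gf l m j` for `j < 2m`: the residue of the exponent is `e1 l` or `e2 l`, different from `e0 l`; `2m ≤ j < 2m+2l`: `X^r (X³-1)^m`, `i < m`. `fn_high`: `gf l m (2m+2l+j) = X^(e0 l) (X³-1)^j`, `j < m`.
`fn_AA`: `coeff_N (X-1)^M = (-1)^(M-N) choose M N` (`Polynomial.coeff_X_sub_one_pow`-like, `coeff_X_add_C_pow`, `sub_eq_add_neg`), `(-1)^(2m+2l+j-N) = (-1)^(j+N)` for `N ≤ 2m+2l+j`, `choose = 0` otherwise.
-/

set_option autoImplicit false

noncomputable section

namespace QV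

open Finset Polynomial

private def A2_G (i : ℕ) : ℕ → ℂ := fun x => (x.choose i : ℂ)

private theorem A2_d1 (i : ℕ) : fwdDiff 1 (A2_G (i + 1)) = A2_G i := by
  funext x
  unfold fwdDiff A2_G
  rw [Nat.choose_succ_succ]
  push_cast
  ring

private theorem A2_d0 : fwdDiff 1 (A2_G 0) = 0 := by
  funext x
  unfold fwdDiff A2_G
  rw [Nat.choose_zero_right, Nat.choose_zero_right, sub_self]
  rfl

private theorem A2_it (k j : ℕ) : (fwdDiff 1)^[k] (A2_G (k + j)) = A2_G j := by
  induction k with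
  | zero => rw [zero_add, Function.iterate_zero_apply]
  | succ k ih =>
    rw [Function.iterate_succ_apply, show k + 1 + j = (k + j) + 1 by omega, A2_d1, ih]

private theorem A2_dz (k : ℕ) : (fwdDiff 1)^[k] (0 : ℕ → ℂ) = 0 := by
  induction k with
  | zero => rfl
  | succ k ih =>
    rw [Function.iterate_succ_apply]
    have h : fwdDiff 1 (0 : ℕ → ℂ) = 0 := by
      funext x
      unfold fwdDiff
      simp
    rw [h, ih]

private theorem A2_z {i k : ℕ} (h : i < k) : (fwdDiff 1)^[k] (A2_G i) = 0 := by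
  obtain ⟨r, rfl⟩ : ∃ r, k = (r + 1) + i := ⟨k - i - 1, by omega⟩
  have h1 := A2_it i 0
  rw [add_zero] at h1
  rw [Function.iterate_add_apply, h1, Function.iterate_succ_apply, A2_d0, A2_dz]

private theorem A2_sum (i k s : ℕ) :
    ∑ n ∈ range (k + 1), ((-1 : ℂ) ^ (k - n) * (k.choose n : ℂ)) * ((n + s).choose i : ℂ) =
      (fwdDiff 1)^[k] (A2_G i) s := by
  rw [fwdDiff_iter_eq_sum_shift]
  refine Finset.sum_congr rfl fun n _ => ?_
  unfold A2_G
  rw [zsmul_eq_mul, smul_eq_mul, mul_one, add_comm s n]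
  push_cast
  ring

private theorem A2_fn_sum (l m i : ℕ) {ι : Type*} (t : Finset ι) (c : ι → ℂ) (f : ι → ℂ[X]) :
    fn l m i (∑ n ∈ t, C (c n) * f n) = ∑ n ∈ t, c n * fn l m i (f n) := by
  unfold fn
  rw [Finset.sum_congr rfl fun n _ => Finset.mul_sum _ _ (c n), Finset.sum_comm]
  refine Finset.sum_congr rfl fun N _ => ?_
  split_ifs
  · rw [finsetSum_coeff, Finset.mul_sum]
    refine Finset.sum_congr rfl fun n _ => ?_
    rw [coeff_C_mul]
    ring
  · rw [Finset.sum_congr rfl fun n _ => mul_zero (c n), Finset.sum_const_zero]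

private theorem A2_fn_X (l m i a : ℕ) (ha : a < 3 * m + 2 * l) :
    fn l m i (X ^ a) = if (a + 2 * l + 2) % 3 = 0 then ((a / 3).choose i : ℂ) else 0 := by
  unfold fn
  rw [Finset.sum_eq_single a]
  · rw [coeff_X_pow_self, mul_one]
  · intro N _ hN
    rw [coeff_X_pow, if_neg hN, mul_zero]
    split_ifs <;> rfl
  · intro h
    exact absurd (Finset.mem_range.2 ha) h

private theorem A2_pow (r k : ℕ) : (X ^ r * (X ^ 3 - 1) ^ k : ℂ[X]) =
    ∑ n ∈ range (k + 1), C ((-1 : ℂ) ^ (k - n) * (k.choose n : ℂ)) * X ^ (3 * n + r) := by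
  rw [sub_eq_add_neg, add_pow, Finset.mul_sum]
  refine Finset.sum_congr rfl fun n _ => ?_
  rw [C_mul, C_pow, C_neg, C_1, map_natCast, ← pow_mul, pow_add]
  ring

private theorem A2_key0 (l m i : ℕ) {r k : ℕ} (h : 3 * k + r < 3 * m + 2 * l)
    (hr : (r + 2 * l + 2) % 3 ≠ 0) : fn l m i (X ^ r * (X ^ 3 - 1) ^ k) = 0 := by
  rw [A2_pow, A2_fn_sum]
  refine Finset.sum_eq_zero fun n hn => ?_
  have hn' := Finset.mem_range.1 hn
  rw [A2_fn_X _ _ _ _ (by omega), if_neg (by omega), mul_zero]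

private theorem A2_key1 (l m i : ℕ) {r k : ℕ} (h : 3 * k + r < 3 * m + 2 * l)
    (hr : (r + 2 * l + 2) % 3 = 0) :
    fn l m i (X ^ r * (X ^ 3 - 1) ^ k) = (fwdDiff 1)^[k] (A2_G i) (r / 3) := by
  rw [A2_pow, A2_fn_sum, ← A2_sum]
  refine Finset.sum_congr rfl fun n hn => ?_
  have hn' := Finset.mem_range.1 hn
  rw [A2_fn_X _ _ _ _ (by omega), if_pos (by omega), show (3 * n + r) / 3 = n + r / 3 by omega]

theorem fn_low (l m : ℕ) {i j : ℕ} (hi : i < m) (hj : j < 2 * m + 2 * l) : fn l m i (gf l m j) = 0 := by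
  unfold gf pi
  have h1 := QL.e1_le l
  have h2 := QL.e2_le l
  by_cases h : j < 2 * m
  · rw [if_pos h]
    have h3 : ∀ e : ℕ, e ≤ 2 → (e + 2 * l + 2) % 3 ≠ 0 → fn l m i (hf m (3 * (j / 2) + e)) = 0 := by
      intro e he he'
      unfold hf
      rw [if_pos (by omega)]
      exact A2_key0 l m i (by omega) (by omega)
    split_ifs
    · refine h3 _ h1 ?_
      unfold QL.e1
      split_ifs <;> omega
    · refine h3 _ h2 ?_
      unfold QL.e2
      split_ifs <;> omega
  · rw [if_neg h, if_pos hj]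
    unfold hf
    rw [if_neg (by omega), Nat.add_sub_cancel_left]
    by_cases hr : (j - 2 * m + 2 * l + 2) % 3 = 0
    · rw [A2_key1 l m i (by omega) hr, A2_z hi]
      rfl
    · exact A2_key0 l m i (by omega) hr

theorem fn_high (l m : ℕ) {i j : ℕ} (hi : i < m) (hj : j < m) :
    fn l m i (gf l m (2 * m + 2 * l + j)) = if i = j then 1 else 0 := by
  unfold gf pi
  have he : e0 l ≤ 2 ∧ (e0 l + 2 * l + 2) % 3 = 0 := by
    unfold e0
    omega
  rw [if_neg (by omega), if_neg (by omega), Nat.add_sub_cancel_left]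
  unfold hf
  rw [if_pos (by omega), A2_key1 l m i (by omega) (by omega), show (3 * j + e0 l) / 3 = j by omega,
    show (3 * j + e0 l) % 3 / 3 = 0 by omega]
  rcases lt_trichotomy i j with h | h | h
  · rw [A2_z h, if_neg (by omega)]
    rfl
  · subst h
    have h1 := A2_it i 0
    rw [add_zero] at h1
    rw [h1, if_pos rfl]
    unfold A2_G
    rw [Nat.choose_zero_right, Nat.cast_one]
  · obtain ⟨r, rfl⟩ : ∃ r, i = j + (r + 1) := ⟨i - j - 1, by omega⟩
    rw [A2_it, if_neg (by omega)]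
    unfold A2_G
    rw [Nat.choose_zero_succ, Nat.cast_zero]

theorem fn_AA (l m i j : ℕ) (hj : j < m) : fn l m i ((X - 1) ^ (2 * m + 2 * l + j)) = ((AA l m i j : ℝ) : ℂ) := by
  unfold fn AA
  rw [Complex.ofReal_sum]
  refine Finset.sum_congr rfl fun N _ => ?_
  by_cases h0 : (N + 2 * l + 2) % 3 = 0
  · rw [if_pos h0, if_pos h0]
    have h1 : ((X - 1 : ℂ[X]) ^ (2 * m + 2 * l + j)).coeff N =
        (-1) ^ (2 * m + 2 * l + j - N) * ((2 * m + 2 * l + j).choose N : ℂ) := by
      have h2 : (X - 1 : ℂ[X]) = X + C (-1) := by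
        rw [C_neg, C_1, sub_eq_add_neg]
      rw [h2, coeff_X_add_C_pow]
    rw [h1, show 2 * (m + l) + j = 2 * m + 2 * l + j by ring]
    push_cast
    rcases le_or_gt N (2 * m + 2 * l + j) with h3 | h3
    · have h4 : (-1 : ℂ) ^ (2 * m + 2 * l + j - N) = (-1) ^ (j + N) := by
        obtain ⟨d, hd⟩ := Nat.exists_eq_add_of_le h3
        have h5 : j + N + 2 * (m + l) = d + 2 * N := by omega
        have h6 : (-1 : ℂ) ^ (j + N) = (-1) ^ d := by
          have h7 := congrArg (fun z => (-1 : ℂ) ^ z) h5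
          simp only [pow_add, pow_mul] at h7
          norm_num at h7
          rw [pow_add]
          exact h7
        rw [h6, hd, Nat.add_sub_cancel_left]
      rw [h4]
    · rw [Nat.choose_eq_zero_of_lt h3]
      push_cast
      ring
  · rw [if_neg h0, if_neg h0, Complex.ofReal_zero]

end QV
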