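import Pool.Agent.Lib.MP_216314_pr.QV.A1
import Pool.Agent.Lib.MP_216314_pr.QV.A2

/-!
# The complementary determinant

`T = 3m+2l`, `K = 2m+2l`. Let `Fu : Matrix (Fin T) (Fin T) ℂ` be the matrix of functionals on the monomials: `Fu i r = choose r i` (`= DD 1 i (X^r)`, `Q4.DD_X_pow`, `Q4.hh_one`) for `i < K`, `Fu (K+i) r = fn l m i (X^r)` for `i < m`. For `f` of degree `< T`: `∑_r Fu i r * f.coeff r = DD 1 i f` resp. `fn l m i f`
(`as_sum_range'`, linearity; `Q4.DD_sum`, `Q4.DD_C_mul`).
(1) `Fu * (coeff r (gf l m j))_{r,j}`: rows/columns split at `K` (`finSumFinEquiv : Fin K ⊕ Fin m ≃ Fin (K+m)` and `Fin.cast`, or `Matrix.reindex`; `Matrix.det_fromBlocks_zero₂₁`): blocks `[[DD 1 i (GG l m 1 j), *], [0, 1]]` (`GG_hf`, `fn_low`, `fn_high`): determinant `PhF`. The second factor is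
`(coeff r (hf m k))` with columns permuted by `pi` (`pi_lt`, `pi_inj`: `Equiv.ofBijective` on `Fin T`, `Finite.injective_iff_bijective`), `Matrix.det_permute'`: determinant `±1` (`Int.units_eq_one_or`), `hf_det`.
(2) `Fu * (coeff r ((X-1)^j))_{r,j}`: the second factor is upper triangular with diagonal 1; `DD 1 i ((X-1)^j) = δ_ij` (`Q4.DD_root`/`Q4.DD_root_zero`/`DD_one` with all nodes 1, induction): blocks `[[1, 0], [*, AA]]` (`fn_AA`): determinant `det AA` (complex; `RingHom.map_det` for `Complex.ofRealHom`).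
So `PhF = ± det Fu`, `det Fu = det AA`.
-/

set_option autoImplicit false

noncomputable section

namespace QV

open Finset Polynomial

private theorem A_blk1 (K m : ℕ) (a : ℕ → ℕ → ℂ) (h : ∀ i j : ℕ, i < m → j < K → a (K + i) j = 0) :
    (Matrix.of fun i j : Fin (K + m) => a i j).det =
      (Matrix.of fun i j : Fin K => a i j).det * (Matrix.of fun i j : Fin m => a (K + i) (K + j)).det := by
  rw [← Matrix.det_submatrix_equiv_self (finSumFinEquiv (m := K) (n := m))]
  have e : (Matrix.of fun i j : Fin (K + m) => a i j).submatrix (finSumFinEquiv (m := K) (n := m)) finSumFinEquiv =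
      Matrix.fromBlocks (Matrix.of fun i j : Fin K => a i j) (Matrix.of fun (i : Fin K) (j : Fin m) => a i (K + j)) 0
        (Matrix.of fun i j : Fin m => a (K + i) (K + j)) := by
    apply Matrix.ext
    rintro (i | i) (j | j)
    · simp only [Matrix.submatrix_apply, Matrix.of_apply, Matrix.fromBlocks_apply₁₁, finSumFinEquiv_apply_left, Fin.val_castAdd]
    · simp only [Matrix.submatrix_apply, Matrix.of_apply, Matrix.fromBlocks_apply₁₂, finSumFinEquiv_apply_left,
        finSumFinEquiv_apply_right, Fin.val_castAdd, Fin.val_natAdd]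
    · simp only [Matrix.submatrix_apply, Matrix.of_apply, Matrix.fromBlocks_apply₂₁, finSumFinEquiv_apply_left,
        finSumFinEquiv_apply_right, Fin.val_castAdd, Fin.val_natAdd, Matrix.zero_apply]
      exact h i j i.2 j.2
    · simp only [Matrix.submatrix_apply, Matrix.of_apply, Matrix.fromBlocks_apply₂₂, finSumFinEquiv_apply_right, Fin.val_natAdd]
  rw [e, Matrix.det_fromBlocks_zero₂₁]

private theorem A_blk2 (K m : ℕ) (a : ℕ → ℕ → ℂ) (h : ∀ i j : ℕ, i < K → j < m → a i (K + j) = 0) :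
    (Matrix.of fun i j : Fin (K + m) => a i j).det =
      (Matrix.of fun i j : Fin K => a i j).det * (Matrix.of fun i j : Fin m => a (K + i) (K + j)).det := by
  rw [← Matrix.det_submatrix_equiv_self (finSumFinEquiv (m := K) (n := m))]
  have e : (Matrix.of fun i j : Fin (K + m) => a i j).submatrix (finSumFinEquiv (m := K) (n := m)) finSumFinEquiv =
      Matrix.fromBlocks (Matrix.of fun i j : Fin K => a i j) 0 (Matrix.of fun (i : Fin m) (j : Fin K) => a (K + i) j)
        (Matrix.of fun i j : Fin m => a (K + i) (K + j)) := by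
    apply Matrix.ext
    rintro (i | i) (j | j)
    · simp only [Matrix.submatrix_apply, Matrix.of_apply, Matrix.fromBlocks_apply₁₁, finSumFinEquiv_apply_left, Fin.val_castAdd]
    · simp only [Matrix.submatrix_apply, Matrix.of_apply, Matrix.fromBlocks_apply₁₂, finSumFinEquiv_apply_left,
        finSumFinEquiv_apply_right, Fin.val_castAdd, Fin.val_natAdd, Matrix.zero_apply]
      exact h i j i.2 j.2
    · simp only [Matrix.submatrix_apply, Matrix.of_apply, Matrix.fromBlocks_apply₂₁, finSumFinEquiv_apply_left,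
        finSumFinEquiv_apply_right, Fin.val_castAdd, Fin.val_natAdd]
    · simp only [Matrix.submatrix_apply, Matrix.of_apply, Matrix.fromBlocks_apply₂₂, finSumFinEquiv_apply_right, Fin.val_natAdd]
  rw [e, Matrix.det_fromBlocks_zero₁₂]

private theorem A_fn_sum {ι : Type*} (l m i : ℕ) (s : Finset ι) (g : ι → ℂ[X]) :
    fn l m i (∑ k ∈ s, g k) = ∑ k ∈ s, fn l m i (g k) := by
  unfold fn
  rw [Finset.sum_comm]
  refine Finset.sum_congr rfl fun N _ => ?_
  split_ifs
  · rw [Polynomial.finsetSum_coeff, Finset.mul_sum]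
  · rw [Finset.sum_const_zero]

private theorem A_fn_mul (l m i : ℕ) (c : ℂ) (g : ℂ[X]) : fn l m i (C c * g) = c * fn l m i g := by
  unfold fn
  rw [Finset.mul_sum]
  refine Finset.sum_congr rfl fun N _ => ?_
  split_ifs
  · rw [Polynomial.coeff_C_mul]
    ring
  · rw [mul_zero]

/-- the functionals -/
private def A_F (l m i : ℕ) (f : ℂ[X]) : ℂ :=
  if i < 2 * m + 2 * l then Q4.DD (fun _ => 1) i f else fn l m (i - (2 * m + 2 * l)) f

private theorem A_F_low {l m i : ℕ} (h : i < 2 * m + 2 * l) (f : ℂ[X]) : A_F l m i f = Q4.DD (fun _ => 1) i f := by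
  unfold A_F
  rw [if_pos h]

private theorem A_F_high (l m i : ℕ) (f : ℂ[X]) : A_F l m (2 * m + 2 * l + i) f = fn l m i f := by
  unfold A_F
  rw [if_neg (by omega), Nat.add_sub_cancel_left]

private theorem A_exp {l m T : ℕ} (i : ℕ) {f : ℂ[X]} (hf : f.natDegree < T) :
    A_F l m i f = ∑ r : Fin T, A_F l m i (X ^ (r : ℕ)) * f.coeff r := by
  have e : f = ∑ k ∈ range T, C (f.coeff k) * X ^ k := as_sum_range_C_mul_X_pow' f hf
  conv_lhs => rw [e]
  rw [← Finset.sum_range fun r => A_F l m i (X ^ r) * f.coeff r]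
  unfold A_F
  split_ifs
  · rw [Q4.DD_sum]
    refine Finset.sum_congr rfl fun k _ => ?_
    rw [Q4.DD_C_mul, mul_comm]
  · rw [A_fn_sum]
    refine Finset.sum_congr rfl fun k _ => ?_
    rw [A_fn_mul, mul_comm]

private theorem A_det {l m T : ℕ} (g : ℕ → ℂ[X]) (hg : ∀ j, j < T → (g j).natDegree < T) :
    (Matrix.of fun i j : Fin T => A_F l m i (g j)).det =
      (Matrix.of fun i r : Fin T => A_F l m i (X ^ (r : ℕ))).det * (Matrix.of fun r j : Fin T => (g j).coeff r).det := by
  rw [← Matrix.det_mul]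
  congr 1
  apply Matrix.ext
  intro i j
  rw [Matrix.mul_apply]
  simp only [Matrix.of_apply]
  exact A_exp i (hg j j.2)

private theorem A_cube : (X ^ 3 - 1 : ℂ[X]).natDegree ≤ 3 := by
  refine (natDegree_sub_le _ _).trans ?_
  rw [natDegree_X_pow, natDegree_one]
  exact le_refl _

private theorem A_hf_deg {m k T : ℕ} (hk : k < T) : (hf m k).natDegree < T := by
  unfold hf
  have key : ∀ a b : ℕ, (X ^ a * (X ^ 3 - 1) ^ b : ℂ[X]).natDegree ≤ a + 3 * b := by
    intro a b
    refine natDegree_mul_le.trans ?_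
    rw [natDegree_X_pow]
    have h1 := (natDegree_pow_le (p := (X ^ 3 - 1 : ℂ[X])) (n := b)).trans (Nat.mul_le_mul_left b A_cube)
    omega
  split_ifs with h
  · have h1 := key (k % 3) (k / 3)
    omega
  · have h1 := key (k - 3 * m) m
    omega

private theorem A_DD (i j : ℕ) : Q4.DD (fun _ => 1) i ((X - 1) ^ j) = if i = j then 1 else 0 := by
  induction j generalizing i with
  | zero =>
    rw [pow_zero]
    exact Q4.DD_one _ i
  | succ j ih =>
    have e : ((X : ℂ[X]) - 1) ^ (j + 1) = (X - C ((fun _ : ℕ => (1 : ℂ)) 0)) * (X - 1) ^ j := by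
      rw [C_1, pow_succ']
    rw [e]
    cases i with
    | zero =>
      rw [Q4.DD_root_zero, if_neg (by omega)]
    | succ i =>
      rw [Q4.DD_root, ih i]
      by_cases h : i = j
      · rw [if_pos h, if_pos (by omega)]
      · rw [if_neg h, if_neg (by omega)]

private theorem A_X1_det (T : ℕ) : (Matrix.of fun r j : Fin T => (((X : ℂ[X]) - 1) ^ (j : ℕ)).coeff r).det = 1 := by
  have hm : ∀ j : ℕ, (((X : ℂ[X]) - 1) ^ j).Monic ∧ (((X : ℂ[X]) - 1) ^ j).natDegree = j := by
    intro j
    have h1 : ((X : ℂ[X]) - 1) = X - C 1 := by rw [C_1]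
    rw [h1]
    refine ⟨(monic_X_sub_C 1).pow j, ?_⟩
    rw [(monic_X_sub_C (1 : ℂ)).natDegree_pow, natDegree_X_sub_C, mul_one]
  rw [Matrix.det_of_upperTriangular]
  · refine Finset.prod_eq_one fun j _ => ?_
    rw [Matrix.of_apply]
    have h1 := (hm j).1.coeff_natDegree
    rwa [(hm j).2] at h1
  · intro r j hrj
    rw [Matrix.of_apply]
    apply coeff_eq_zero_of_natDegree_lt
    rw [(hm j).2]
    exact hrj

private theorem A_one (K : ℕ) (a : ℕ → ℕ → ℂ) (h : ∀ i j : ℕ, i < K → j < K → a i j = if i = j then 1 else 0) :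
    (Matrix.of fun i j : Fin K => a i j).det = 1 := by
  have e : (Matrix.of fun i j : Fin K => a i j) = 1 := by
    apply Matrix.ext
    intro i j
    rw [Matrix.of_apply, h i j i.2 j.2, Matrix.one_apply]
    by_cases hij : i = j
    · rw [if_pos hij, if_pos (by rw [hij])]
    · rw [if_neg hij, if_neg (fun h => hij (Fin.ext h))]
  rw [e, Matrix.det_one]


theorem PhF_compl (l m : ℕ) (hl : 0 < l) : ∃ s : ℝ, s ^ 2 = 1 ∧
    Q4.PhF (2 * m + 2 * l) (QL.GG l m fun _ => 1) (fun _ => 1) =
      ((s * (Matrix.of fun i j : Fin m => AA l m i j).det : ℝ) : ℂ) := by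
  have hT : 3 * m + 2 * l = (2 * m + 2 * l) + m := by ring
  -- the first evaluation
  have h1 : (Matrix.of fun i j : Fin (3 * m + 2 * l) => A_F l m i (gf l m j)).det =
      Q4.PhF (2 * m + 2 * l) (QL.GG l m fun _ => 1) (fun _ => 1) := by
    have e1 : (Matrix.of fun i j : Fin (3 * m + 2 * l) => A_F l m i (gf l m j)).det =
        (Matrix.of fun i j : Fin ((2 * m + 2 * l) + m) => A_F l m i (gf l m j)).det := by
      rw [hT]
    rw [e1, A_blk1 (2 * m + 2 * l) m (fun i j => A_F l m i (gf l m j)) (fun i j hi hj => by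
      rw [A_F_high]
      exact fn_low l m hi hj), A_one m (fun i j => A_F l m (2 * m + 2 * l + i) (gf l m (2 * m + 2 * l + j))) (fun i j hi hj => by
      rw [A_F_high]
      exact fn_high l m hi hj), mul_one]
    unfold Q4.PhF
    congr 1
    apply Matrix.ext
    intro i j
    rw [Matrix.of_apply, Matrix.of_apply, A_F_low i.2, GG_hf l m j j.2]
  -- the second evaluation
  have h2 : (Matrix.of fun i j : Fin (3 * m + 2 * l) => A_F l m i (((X : ℂ[X]) - 1) ^ (j : ℕ))).det =
      (((Matrix.of fun i j : Fin m => AA l m i j).det : ℝ) : ℂ) := by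
    have e1 : (Matrix.of fun i j : Fin (3 * m + 2 * l) => A_F l m i (((X : ℂ[X]) - 1) ^ (j : ℕ))).det =
        (Matrix.of fun i j : Fin ((2 * m + 2 * l) + m) => A_F l m i (((X : ℂ[X]) - 1) ^ (j : ℕ))).det := by
      rw [hT]
    rw [e1, A_blk2 (2 * m + 2 * l) m (fun i j => A_F l m i (((X : ℂ[X]) - 1) ^ j)) (fun i j hi hj => by
      rw [A_F_low hi, A_DD, if_neg (by omega)]), A_one (2 * m + 2 * l) (fun i j => A_F l m i (((X : ℂ[X]) - 1) ^ j))
      (fun i j hi hj => by
        rw [A_F_low hi, A_DD]), one_mul]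
    have e2 : (((Matrix.of fun i j : Fin m => AA l m i j).det : ℝ) : ℂ) =
        ((Matrix.of fun i j : Fin m => AA l m i j).map Complex.ofRealHom).det :=
      RingHom.map_det Complex.ofRealHom (Matrix.of fun i j : Fin m => AA l m i j)
    rw [e2]
    congr 1
    apply Matrix.ext
    intro i j
    rw [Matrix.of_apply, A_F_high, fn_AA l m i j j.2]
    rfl
  -- the change of basis
  have h3 := A_det (l := l) (m := m) (T := 3 * m + 2 * l) (gf l m) (fun j hj => A_hf_deg (pi_lt l m j hj))
  have h4 := A_det (l := l) (m := m) (T := 3 * m + 2 * l) (fun j => ((X : ℂ[X]) - 1) ^ j) (fun j hj => by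
    have h5 : ((X : ℂ[X]) - 1) = X - C 1 := by rw [C_1]
    rw [h5, (monic_X_sub_C (1 : ℂ)).natDegree_pow, natDegree_X_sub_C, mul_one]
    exact hj)
  rw [h1] at h3
  rw [h2, A_X1_det, mul_one] at h4
  have hinj : Function.Injective (fun j : Fin (3 * m + 2 * l) => (⟨pi l m j, pi_lt l m j j.2⟩ : Fin (3 * m + 2 * l))) := by
    intro i j hij
    exact Fin.ext (pi_inj l m i.2 j.2 (Fin.mk.inj hij))
  obtain ⟨σ, hσ⟩ : ∃ σ : Equiv.Perm (Fin (3 * m + 2 * l)), ∀ j, ((σ j : Fin (3 * m + 2 * l)) : ℕ) = pi l m j :=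
    ⟨Equiv.ofBijective _ (Finite.injective_iff_bijective.mp hinj), fun j => rfl⟩
  have h5 : (Matrix.of fun r j : Fin (3 * m + 2 * l) => (gf l m j).coeff r) =
      (Matrix.of fun r k : Fin (3 * m + 2 * l) => (hf m k).coeff r).submatrix id σ := by
    apply Matrix.ext
    intro r j
    rw [Matrix.submatrix_apply, Matrix.of_apply, Matrix.of_apply, hσ j]
    rfl
  rw [h5, Matrix.det_permute', hf_det, mul_one, ← h4] at h3
  refine ⟨(((Equiv.Perm.sign σ : ℤˣ) : ℤ) : ℝ), ?_, ?_⟩
  · rcases Int.units_eq_one_or (Equiv.Perm.sign σ) with h | h <;> rw [h] <;> norm_num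
  · rw [h3]
    push_cast
    ring

end QV
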