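import Mathlib

/-!
# Definitions for the value at the homogeneous point, `2l` legs

`ph x k = x (x+1) ... (x+k-1)`, `pd y k = y (y-1) ... (y-k+1)`. `Lam D f`: the sum of `f` over the points `x = N - D/2`, `0 ≤ N ≤ D`, `N + D = 0 mod 3`, with weights `(-1)^N/(N! (D-N)!)`.
`Hk D m` the Hankel determinant of the moments of `Lam D`, `Dk D d n` the Hankel determinant in the variable `x²` with the additional weight `x^d`.
-/

set_option autoImplicit false

noncomputable section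

namespace QV

open Finset

/-- rising factorial -/
def ph (x : ℝ) (k : ℕ) : ℝ := ∏ r ∈ range k, (x + r)

/-- falling factorial -/
def pd (y : ℝ) (k : ℕ) : ℝ := ∏ r ∈ range k, (y - r)

theorem ph_zero (x : ℝ) : ph x 0 = 1 := by
  unfold ph
  rw [Finset.prod_range_zero]

theorem ph_succ (x : ℝ) (k : ℕ) : ph x (k + 1) = ph x k * (x + k) := by
  unfold ph
  rw [Finset.prod_range_succ]

theorem ph_add (x : ℝ) (i j : ℕ) : ph x (i + j) = ph x i * ph (x + i) j := by
  unfold ph
  rw [Finset.prod_range_add]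
  congr 1
  refine Finset.prod_congr rfl fun r _ => ?_
  push_cast
  ring

theorem ph_succ' (x : ℝ) (k : ℕ) : ph x (k + 1) = x * ph (x + 1) k := by
  rw [add_comm k 1, ph_add]
  congr 1
  · unfold ph
    rw [Finset.prod_range_one]
    push_cast
    ring
  · push_cast
    rfl

theorem pd_zero (x : ℝ) : pd x 0 = 1 := by
  unfold pd
  rw [Finset.prod_range_zero]

theorem pd_succ (x : ℝ) (k : ℕ) : pd x (k + 1) = pd x k * (x - k) := by
  unfold pd
  rw [Finset.prod_range_succ]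

theorem pd_pos {y : ℝ} {k : ℕ} (h : (k : ℝ) < y + 1) : 0 < pd y k := by
  unfold pd
  refine Finset.prod_pos fun r hr => ?_
  have h1 : (r : ℝ) + 1 ≤ k := by exact_mod_cast Finset.mem_range.1 hr
  linarith

theorem ph_neg (y : ℝ) (k : ℕ) : ph (-y) k = (-1) ^ k * pd y k := by
  unfold ph pd
  rw [← Finset.card_range k, ← Finset.prod_const, Finset.card_range, ← Finset.prod_mul_distrib]
  refine Finset.prod_congr rfl fun r _ => ?_
  ring

theorem abs_ph_neg {y : ℝ} {k : ℕ} (h : (k : ℝ) < y + 1) : |ph (-y) k| = pd y k := by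
  rw [ph_neg, abs_mul, abs_pow, abs_neg, abs_one, one_pow, one_mul, abs_of_pos (pd_pos h)]

/-- the functional -/
def Lam (D : ℕ) (f : ℝ → ℝ) : ℝ := ∑ N ∈ range (D + 1), if (N + D) % 3 = 0 then
  (-1) ^ N / ((N.factorial : ℝ) * ((D - N).factorial : ℝ)) * f ((N : ℝ) - (D : ℝ) / 2) else 0

theorem Lam_congr {D : ℕ} {f g : ℝ → ℝ} (h : ∀ N : ℕ, N ≤ D → f ((N : ℝ) - (D : ℝ) / 2) = g ((N : ℝ) - (D : ℝ) / 2)) :
    Lam D f = Lam D g := by
  unfold Lam
  refine Finset.sum_congr rfl fun N hN => ?_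
  rw [h N (Nat.lt_succ_iff.1 (Finset.mem_range.1 hN))]

theorem Lam_sum {ι : Type*} (D : ℕ) (s : Finset ι) (f : ι → ℝ → ℝ) :
    Lam D (fun x => ∑ i ∈ s, f i x) = ∑ i ∈ s, Lam D (f i) := by
  unfold Lam
  rw [Finset.sum_comm]
  refine Finset.sum_congr rfl fun N _ => ?_
  split_ifs
  · rw [Finset.mul_sum]
  · rw [Finset.sum_const_zero]

theorem Lam_mul (D : ℕ) (c : ℝ) (f : ℝ → ℝ) : Lam D (fun x => c * f x) = c * Lam D f := by
  unfold Lam
  rw [Finset.mul_sum]
  refine Finset.sum_congr rfl fun N _ => ?_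
  split_ifs
  · ring
  · rw [mul_zero]

theorem Lam_add (D : ℕ) (f g : ℝ → ℝ) : Lam D (fun x => f x + g x) = Lam D f + Lam D g := by
  unfold Lam
  rw [← Finset.sum_add_distrib]
  refine Finset.sum_congr rfl fun N _ => ?_
  split_ifs
  · ring
  · rw [add_zero]

theorem Lam_sub (D : ℕ) (f g : ℝ → ℝ) : Lam D (fun x => f x - g x) = Lam D f - Lam D g := by
  unfold Lam
  rw [← Finset.sum_sub_distrib]
  refine Finset.sum_congr rfl fun N _ => ?_
  split_ifs
  · ring
  · rw [sub_zero]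

/-- Hankel determinants -/
def Hk (D m : ℕ) : ℝ := (Matrix.of fun i j : Fin m => Lam D fun x => x ^ ((i : ℕ) + j)).det

def Dk (D d n : ℕ) : ℝ := (Matrix.of fun i j : Fin n => Lam D fun x => x ^ d * (x ^ 2) ^ ((i : ℕ) + j)).det

/-- the parity of the weight `x^d` and of the functional -/
def Ok (D d : ℕ) : Prop := (d = 0 ∧ Even D) ∨ (d = 1 ∧ Odd D) ∨ (d = 2 ∧ Even D)

end QV
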