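import Pool.Agent.Lib.MP_216314_pr.QL.Phi
import Pool.Agent.Lib.MP_216314_pr.Q4.ValA
import Pool.Agent.Lib.MP_216314_pr.QV.D

/-!
# The complementary determinant: definitions

`T = 3m+2l`. `hf m k` (`k < T`): monic of degree `k`. `gf l m j`, `j < 2m+2l`: the family `GG l m 1`; `gf l m (2m+2l+j)`, `j < m`: `X^e (X³-1)^j`, `e = e0 l` the class which is different from `e1 l`, `e2 l`. `fn l m i`: the functionals `f ↦ ∑_{N = e mod 3} choose (N/3) i * coeff_N f`.
-/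

set_option autoImplicit false

noncomputable section

namespace QV

open Finset Polynomial

def AA (l m i j : ℕ) : ℝ := ∑ N ∈ range (3 * m + 2 * l), if (N + 2 * l + 2) % 3 = 0 then
  ((N / 3).choose i : ℝ) * ((-1) ^ (j + N) * ((2 * (m + l) + j).choose N : ℝ)) else 0

def e0 (l : ℕ) : ℕ := (l + 1) % 3

def hf (m k : ℕ) : ℂ[X] := if k < 3 * m then X ^ (k % 3) * (X ^ 3 - 1) ^ (k / 3) else X ^ (k - 3 * m) * (X ^ 3 - 1) ^ m

def pi (l m j : ℕ) : ℕ := if j < 2 * m then 3 * (j / 2) + (if j % 2 = 0 then QL.e1 l else QL.e2 l)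
  else if j < 2 * m + 2 * l then 3 * m + (j - 2 * m) else 3 * (j - (2 * m + 2 * l)) + e0 l

def gf (l m j : ℕ) : ℂ[X] := hf m (pi l m j)

def fn (l m i : ℕ) (f : ℂ[X]) : ℂ := ∑ N ∈ range (3 * m + 2 * l), if (N + 2 * l + 2) % 3 = 0 then
  ((N / 3).choose i : ℂ) * f.coeff N else 0

end QV
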