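import Pool.Agent.Lib.MP_216314_pr.QV.A0

/-!
# The family `GG l m 1`

`GG_hf`: induction on `m` for all `j`: `QL.GG l 0 _ j = X^j` (`j < 2l`); `QL.GG l (m+1) z = Q4.pre (X ^ e1 l) (X ^ e2 l) (fun j => (X ^ 3 - C (z 0 ^ 3)) * GG l m _ j)` (`rfl`), `z = 1`; `pi l (m+1) (j+2) = pi l m j + 3` and `hf (m+1) (k+3) = (X³-1) * hf m k`.
`pi_lt`, `pi_inj`: `QL.e1`, `QL.e2`, `e0 l` are the three different residues 0, 1, 2 (unfold, `split_ifs`, `omega`).
`hf_det`: `hf m k` is monic of degree `k`: the matrix is upper triangular with diagonal 1 (`Matrix.det_of_upperTriangular` or `det_of_isUpperTriangular`).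
-/

set_option autoImplicit false

noncomputable section

namespace QV

open Finset Polynomial

private theorem A1_e0 (l : ℕ) : e0 l ≤ 2 := by
  unfold e0
  omega

private theorem A1_hf_small (m e : ℕ) (he : e ≤ 2) : hf (m + 1) e = X ^ e := by
  unfold hf
  rw [if_pos (by omega), Nat.mod_eq_of_lt (by omega), Nat.div_eq_of_lt (by omega), pow_zero, mul_one]

private theorem A1_hf_succ (m k : ℕ) : hf (m + 1) (k + 3) = (X ^ 3 - 1) * hf m k := by
  unfold hf
  by_cases h : k < 3 * m
  · rw [if_pos h, if_pos (by omega)]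
    have h1 : (k + 3) % 3 = k % 3 := by omega
    have h2 : (k + 3) / 3 = k / 3 + 1 := by omega
    rw [h1, h2, pow_succ]
    ring
  · rw [if_neg h, if_neg (by omega)]
    have h1 : k + 3 - 3 * (m + 1) = k - 3 * m := by omega
    rw [h1, pow_succ]
    ring

private theorem A1_pi_succ (l m j : ℕ) (hj : j < 2 * m + 2 * l) :
    pi l (m + 1) (j + 2) = pi l m j + 3 := by
  unfold pi
  by_cases h : j < 2 * m
  · rw [if_pos h, if_pos (by omega)]
    have h1 : (j + 2) % 2 = j % 2 := by omega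
    have h2 : (j + 2) / 2 = j / 2 + 1 := by omega
    rw [h1, h2]
    omega
  · rw [if_neg h, if_neg (by omega), if_pos hj, if_pos (by omega)]
    omega

theorem GG_hf (l m j : ℕ) (hj : j < 2 * m + 2 * l) : QL.GG l m (fun _ => 1) j = gf l m j := by
  induction m generalizing j with
  | zero =>
    have h1 : QL.GG l 0 (fun _ => (1 : ℂ)) j = if j < 2 * l then X ^ j else 0 := rfl
    rw [h1, if_pos (by omega)]
    unfold gf pi hf
    rw [if_neg (by omega), if_pos hj, if_neg (by omega), pow_zero, mul_one]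
    have h2 : 3 * 0 + (j - 2 * 0) - 3 * 0 = j := by omega
    rw [h2]
  | succ m ih =>
    have h1 : QL.GG l (m + 1) (fun _ => (1 : ℂ)) j = if j = 0 then X ^ QL.e1 l else
        if j = 1 then X ^ QL.e2 l else
          (X ^ 3 - C ((1 : ℂ) ^ 3)) * QL.GG l m (fun _ => 1) (j - 2) := rfl
    rw [h1]
    unfold gf
    by_cases h0 : j = 0
    · subst h0
      have h2 : pi l (m + 1) 0 = QL.e1 l := by
        unfold pi
        rw [if_pos (by omega), if_pos rfl]
        omega
      rw [if_pos rfl, h2, A1_hf_small m _ (QL.e1_le l)]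
    · by_cases h3 : j = 1
      · subst h3
        have h2 : pi l (m + 1) 1 = QL.e2 l := by
          unfold pi
          rw [if_pos (by omega), if_neg (by omega)]
          omega
        rw [if_neg (by omega), if_pos rfl, h2, A1_hf_small m _ (QL.e2_le l)]
      · obtain ⟨i, rfl⟩ : ∃ i, j = i + 2 := ⟨j - 2, by omega⟩
        have h4 : i < 2 * m + 2 * l := by omega
        rw [if_neg h0, if_neg h3, A1_pi_succ l m i h4, A1_hf_succ, one_pow, C_1]
        have h5 : i + 2 - 2 = i := by omega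
        rw [h5, ih i h4]
        rfl

theorem pi_lt (l m j : ℕ) (hj : j < 3 * m + 2 * l) : pi l m j < 3 * m + 2 * l := by
  have h1 := QL.e1_le l
  have h2 := QL.e2_le l
  have h3 := A1_e0 l
  unfold pi
  split_ifs <;> omega

theorem pi_inj (l m : ℕ) {i j : ℕ} (hi : i < 3 * m + 2 * l) (hj : j < 3 * m + 2 * l) (h : pi l m i = pi l m j) : i = j := by
  have h1 := QL.e1_le l
  have h2 := QL.e2_le l
  have h3 := A1_e0 l
  have h4 : QL.e1 l ≠ QL.e2 l := by
    unfold QL.e1 QL.e2
    split_ifs <;> omega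
  have h5 : QL.e1 l ≠ e0 l := by
    unfold QL.e1 e0
    split_ifs <;> omega
  have h6 : QL.e2 l ≠ e0 l := by
    unfold QL.e2 e0
    split_ifs <;> omega
  unfold pi at h
  generalize QL.e1 l = a at *
  generalize QL.e2 l = b at *
  generalize e0 l = c at *
  split_ifs at h <;> omega

private theorem A1_monic (a b : ℕ) : (X ^ a * (X ^ 3 - 1) ^ b : ℂ[X]).Monic ∧
    (X ^ a * (X ^ 3 - 1) ^ b : ℂ[X]).natDegree = a + 3 * b := by
  have h1 : (X ^ 3 - C (1 : ℂ) : ℂ[X]).Monic := monic_X_pow_sub_C 1 (by norm_num)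
  have h2 : (X ^ 3 - C (1 : ℂ) : ℂ[X]).natDegree = 3 := natDegree_X_pow_sub_C
  rw [C_1] at h1 h2
  refine ⟨(monic_X_pow a).mul (h1.pow b), ?_⟩
  rw [(monic_X_pow a).natDegree_mul (h1.pow b), natDegree_X_pow, h1.natDegree_pow, h2]
  ring

private theorem A1_hf_monic (m k : ℕ) : (hf m k).Monic ∧ (hf m k).natDegree = k := by
  unfold hf
  by_cases h : k < 3 * m
  · rw [if_pos h]
    obtain ⟨h1, h2⟩ := A1_monic (k % 3) (k / 3)
    exact ⟨h1, by rw [h2]; omega⟩
  · rw [if_neg h]
    obtain ⟨h1, h2⟩ := A1_monic (k - 3 * m) m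
    exact ⟨h1, by rw [h2]; omega⟩

theorem hf_det (l m : ℕ) : (Matrix.of fun r k : Fin (3 * m + 2 * l) => (hf m k).coeff r).det = 1 := by
  rw [Matrix.det_of_upperTriangular]
  · refine Finset.prod_eq_one fun i _ => ?_
    rw [Matrix.of_apply]
    obtain ⟨h1, h2⟩ := A1_hf_monic m i
    have h3 := h1.coeff_natDegree
    rw [h2] at h3
    exact h3
  · intro i j hij
    rw [Matrix.of_apply]
    obtain ⟨h1, h2⟩ := A1_hf_monic m j
    refine coeff_eq_zero_of_natDegree_lt ?_
    rw [h2]
    exact hij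

end QV
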