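import Pool.Agent.Lib.MP_216314_pr.QV.D

/-!
# Change of basis in a moment determinant

`det_basis`: the matrix is `A * H * Bᵀ` with `A i k = (P i).coeff k` (lower triangular by `hP`), `B j k = (Q j).coeff k`, `H` the matrix of the moments (`Polynomial.eval_eq_sum_range'`, `natDegree ≤ i < n`; `Lam_sum`, `Lam_mul`,
`Lam_congr` or `congrArg`); `Matrix.det_mul`, `Matrix.det_of_lowerTriangular` (or `Matrix.det_of_isLowerTriangular`), `Matrix.det_transpose`, `Finset.prod_range`.
-/

set_option autoImplicit false

noncomputable section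

namespace QV

open Finset

theorem det_basis (D n : ℕ) (w g : ℝ → ℝ) (P Q : ℕ → Polynomial ℝ) (hP : ∀ i, i < n → (P i).natDegree ≤ i)
    (hQ : ∀ i, i < n → (Q i).natDegree ≤ i) :
    (Matrix.of fun i j : Fin n => Lam D fun x => w x * ((P i).eval (g x) * (Q j).eval (g x))).det =
      (∏ i ∈ range n, ((P i).coeff i * (Q i).coeff i)) *
        (Matrix.of fun i j : Fin n => Lam D fun x => w x * g x ^ ((i : ℕ) + j)).det := by
  have hev : ∀ (p : Polynomial ℝ) (i : ℕ), i < n → p.natDegree ≤ i → ∀ y : ℝ,
      p.eval y = ∑ k : Fin n, p.coeff k * y ^ (k : ℕ) := by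
    intro p i hi hp y
    rw [Polynomial.eval_eq_sum_range' (lt_of_le_of_lt hp hi), Finset.sum_range]
  have h1 : (Matrix.of fun i j : Fin n => Lam D fun x => w x * ((P i).eval (g x) * (Q j).eval (g x))) =
      (Matrix.of fun i k : Fin n => (P i).coeff k) *
        (Matrix.of fun i j : Fin n => Lam D fun x => w x * g x ^ ((i : ℕ) + j)) *
        (Matrix.of fun k j : Fin n => (Q j).coeff k) := by
    ext i j
    rw [Matrix.mul_apply]
    simp only [Matrix.mul_apply, Matrix.of_apply]
    have h2 : (fun x => w x * ((P i).eval (g x) * (Q j).eval (g x))) =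
        fun x => ∑ m : Fin n, ∑ k : Fin n, (P i).coeff k * (Q j).coeff m * (w x * g x ^ ((k : ℕ) + m)) := by
      funext x
      rw [hev (P i) i i.2 (hP i i.2) (g x), hev (Q j) j j.2 (hQ j j.2) (g x), Finset.sum_mul_sum,
        Finset.sum_comm, Finset.mul_sum]
      refine Finset.sum_congr rfl fun m _ => ?_
      rw [Finset.mul_sum]
      refine Finset.sum_congr rfl fun k _ => ?_
      rw [pow_add]
      ring
    rw [h2, Lam_sum]
    refine Finset.sum_congr rfl fun m _ => ?_
    rw [Lam_sum, Finset.sum_mul]
    refine Finset.sum_congr rfl fun k _ => ?_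
    rw [Lam_mul]
    ring
  have h3 : (Matrix.of fun i k : Fin n => (P i).coeff k).det = ∏ i : Fin n, (P i).coeff i := by
    rw [Matrix.det_of_isLowerTriangular]
    · rfl
    · intro i k hik
      have hik' : i < k := hik
      refine Polynomial.coeff_eq_zero_of_natDegree_lt (lt_of_le_of_lt (hP i i.2) ?_)
      exact hik'
  have h4 : (Matrix.of fun k j : Fin n => (Q j).coeff k).det = ∏ i : Fin n, (Q i).coeff i := by
    rw [Matrix.det_of_isUpperTriangular]
    · rfl
    · intro k j hjk
      have hjk' : j < k := hjk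
      refine Polynomial.coeff_eq_zero_of_natDegree_lt (lt_of_le_of_lt (hQ j j.2) ?_)
      exact hjk'
  rw [h1, Matrix.det_mul, Matrix.det_mul, h3, h4, Finset.prod_mul_distrib, Finset.prod_range, Finset.prod_range]
  ring

end QV
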