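import Pool.Agent.Lib.MP_216314_pr.QV.A
import Pool.Agent.Lib.MP_216314_pr.QV.Bas

/-!
# The complementary determinant as a Hankel determinant

`D = 3m+2l-1`, `L = m+l`, `D = 2L+m-1`. Write `m = 0` separately (both sides 1). For `N ≤ D`, `N + D = 0 mod 3` (the same as `(N+2l+2) % 3 = 0`), `e = (2 D) % 3 = N % 3`, `x = N - D/2`:
`choose (N/3) i = (P i).eval x`, `P i = C (1/i!) * ∏_{r<i} (C (1/3) * (X + C (D/2 - e)) - C r)`, degree `≤ i`, coefficient `i` equal to `1/(i! 3^i)` (`Nat.descFactorial_eq_factorial_mul_choose`, `Nat.cast_descFactorial`-like, by induction on `i`);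
`choose (2L+j) N * N! * (D-N)! = (2L+j)! * (D-N)(D-N-1)...(2L+j-N+1)` (`m-1-j` factors; both sides 0 if `N > 2L+j`), `= (2L+j)! * (Q (m-1-j)).eval x`, `Q k = ∏_{r<k} (C (D/2) - X - C r)`, degree `≤ k`, coefficient `k` equal to `(-1)^k`.
So `AA l m i j = (-1)^j (2L+j)! * Lam D (fun x => (P i).eval x * (Q (m-1-j)).eval x)`. Column factors: `Matrix.det_mul_row` / `Matrix.det_mul_column`. The reversal `j ↦ m-1-j` of the columns: `Fin.revPerm`, `Matrix.det_permute'`, sign `±1`. Then `det_basis` with `w = 1`, `g = id`.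
-/

set_option autoImplicit false

noncomputable section

namespace QV

open Finset

private def B_R (a : ℝ) (b : ℕ → ℝ) (k : ℕ) : Polynomial ℝ :=
  ∏ r ∈ range k, (Polynomial.C a * Polynomial.X + Polynomial.C (b r))

private theorem B_R_eval (a : ℝ) (b : ℕ → ℝ) (k : ℕ) (x : ℝ) :
    (B_R a b k).eval x = ∏ r ∈ range k, (a * x + b r) := by
  unfold B_R
  rw [Polynomial.eval_prod]
  refine Finset.prod_congr rfl fun r _ => ?_
  rw [Polynomial.eval_add, Polynomial.eval_mul, Polynomial.eval_C, Polynomial.eval_X, Polynomial.eval_C]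

private theorem B_R_spec (a : ℝ) (b : ℕ → ℝ) (k : ℕ) :
    (B_R a b k).natDegree ≤ k ∧ (B_R a b k).coeff k = a ^ k := by
  induction k with
  | zero =>
    unfold B_R
    rw [Finset.prod_range_zero]
    exact ⟨le_of_eq Polynomial.natDegree_one, by rw [pow_zero, Polynomial.coeff_one_zero]⟩
  | succ k ih =>
    have h1 : B_R a b (k + 1) = B_R a b k * (Polynomial.C a * Polynomial.X + Polynomial.C (b k)) := by
      unfold B_R
      rw [Finset.prod_range_succ]
    constructor
    · rw [h1]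
      exact Polynomial.natDegree_mul_le.trans (Nat.add_le_add ih.1 Polynomial.natDegree_linear_le)
    · have h2 : (B_R a b k).coeff (k + 1) = 0 :=
        Polynomial.coeff_eq_zero_of_natDegree_lt (Nat.lt_succ_of_le ih.1)
      have h3 : B_R a b (k + 1) = Polynomial.C a * (B_R a b k * Polynomial.X) +
          Polynomial.C (b k) * B_R a b k := by
        rw [h1]
        ring
      rw [h3, Polynomial.coeff_add, Polynomial.coeff_C_mul, Polynomial.coeff_C_mul, Polynomial.coeff_mul_X,
        ih.2, h2, mul_zero, add_zero, pow_succ]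
      ring

private theorem B_desc (n k : ℕ) : (n.descFactorial k : ℝ) = ∏ r ∈ range k, ((n : ℝ) - r) := by
  induction k with
  | zero => rw [Nat.descFactorial_zero, Finset.prod_range_zero, Nat.cast_one]
  | succ k ih =>
    rw [Nat.descFactorial_succ, Finset.prod_range_succ, ← ih, Nat.cast_mul]
    rcases le_or_gt k n with h | h
    · rw [Nat.cast_sub h, mul_comm]
    · rw [Nat.descFactorial_of_lt h, Nat.cast_zero, mul_zero, zero_mul]

private theorem B_nat {a k D N : ℕ} (hD : D = a + k) (hN : N ≤ D) :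
    a.choose N * (N.factorial * (D - N).factorial) = a.factorial * (D - N).descFactorial k := by
  rcases le_or_gt N a with h | h
  · have h1 : k ≤ D - N := by omega
    have h2 := Nat.factorial_mul_descFactorial h1
    have h3 : D - N - k = a - N := by omega
    rw [h3] at h2
    rw [← h2, ← Nat.choose_mul_factorial_mul_factorial h]
    ring
  · have h1 : D - N < k := by omega
    rw [Nat.choose_eq_zero_of_lt h, Nat.descFactorial_of_lt h1, zero_mul, mul_zero]

theorem AA_det (l m : ℕ) (hl : 0 < l) : ∃ s : ℝ, s ^ 2 = 1 ∧ (Matrix.of fun i j : Fin m => AA l m i j).det =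
    s * (∏ i ∈ range m, (((2 * (m + l) + i).factorial : ℝ) / ((i.factorial : ℝ) * 3 ^ i))) * Hk (3 * m + 2 * l - 1) m := by
  rcases Nat.eq_zero_or_pos m with hm | hm
  · subst hm
    refine ⟨1, one_pow 2, ?_⟩
    unfold Hk
    rw [Matrix.det_isEmpty, Matrix.det_isEmpty, Finset.prod_range_zero, one_mul, one_mul]
  obtain ⟨D, hD⟩ : ∃ D, D = 3 * m + 2 * l - 1 := ⟨_, rfl⟩
  rw [← hD]
  obtain ⟨e, he⟩ : ∃ e, e = (2 * D) % 3 := ⟨_, rfl⟩
  obtain ⟨P, hP⟩ : ∃ P : ℕ → Polynomial ℝ, P = fun i => Polynomial.C (1 / (i.factorial : ℝ)) *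
      B_R (1 / 3) (fun r => ((D : ℝ) / 2 - e) / 3 - r) i := ⟨_, rfl⟩
  obtain ⟨Q, hQ⟩ : ∃ Q : ℕ → Polynomial ℝ, Q = fun k => B_R (-1) (fun r => (D : ℝ) / 2 - r) k := ⟨_, rfl⟩
  have hPd : ∀ i, i < m → (P i).natDegree ≤ i := by
    intro i _
    rw [hP]
    exact (Polynomial.natDegree_C_mul_le _ _).trans (B_R_spec _ _ i).1
  have hQd : ∀ i, i < m → (Q i).natDegree ≤ i := by
    intro i _
    rw [hQ]
    exact (B_R_spec _ _ i).1
  have hPc : ∀ i, (P i).coeff i = 1 / ((i.factorial : ℝ) * 3 ^ i) := by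
    intro i
    rw [hP]
    show (Polynomial.C (1 / (i.factorial : ℝ)) * B_R (1 / 3) _ i).coeff i = _
    rw [Polynomial.coeff_C_mul, (B_R_spec _ _ i).2, div_pow, one_pow, div_mul_div_comm, one_mul]
  have hQc : ∀ i, (Q i).coeff i = (-1) ^ i := by
    intro i
    rw [hQ]
    exact (B_R_spec _ _ i).2
  have key : ∀ i j : Fin m, AA l m i j = ((-1) ^ (j : ℕ) * ((2 * (m + l) + (j : ℕ)).factorial : ℝ)) *
      Lam D (fun x => (P i).eval x * (Q ((Fin.revPerm j : Fin m) : ℕ)).eval x) := by
    intro i j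
    have hj := j.isLt
    have hrev : ((Fin.revPerm j : Fin m) : ℕ) = m - 1 - j := by
      rw [Fin.revPerm_apply, Fin.val_rev]
      omega
    rw [hrev]
    unfold AA Lam
    have hT : 3 * m + 2 * l = D + 1 := by omega
    rw [hT, Finset.mul_sum]
    refine Finset.sum_congr rfl fun N hN => ?_
    have hN' : N ≤ D := Nat.lt_succ_iff.1 (Finset.mem_range.1 hN)
    by_cases hc : (N + 2 * l + 2) % 3 = 0
    · have hc' : (N + D) % 3 = 0 := by omega
      rw [if_pos hc, if_pos hc']
      have hNe : N = 3 * (N / 3) + e := by omega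
      have h1 : (P i).eval ((N : ℝ) - (D : ℝ) / 2) = ((N / 3).choose i : ℝ) := by
        rw [hP]
        show (Polynomial.C (1 / ((i : ℕ).factorial : ℝ)) * B_R (1 / 3) _ i).eval _ = _
        rw [Polynomial.eval_mul, Polynomial.eval_C, B_R_eval]
        have h2 : ((N : ℕ) : ℝ) = 3 * ((N / 3 : ℕ) : ℝ) + e := by exact_mod_cast hNe
        have h3 : ∏ r ∈ range (i : ℕ), (1 / 3 * ((N : ℝ) - (D : ℝ) / 2) + (((D : ℝ) / 2 - e) / 3 - r)) =
            ∏ r ∈ range (i : ℕ), (((N / 3 : ℕ) : ℝ) - r) := by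
          refine Finset.prod_congr rfl fun r _ => ?_
          rw [h2]
          ring
        rw [h3, ← B_desc, Nat.descFactorial_eq_factorial_mul_choose, Nat.cast_mul]
        have h4 : ((i : ℕ).factorial : ℝ) ≠ 0 := by exact_mod_cast (Nat.factorial_ne_zero _)
        field_simp
      have h5 : (Q (m - 1 - j)).eval ((N : ℝ) - (D : ℝ) / 2) = ((D - N).descFactorial (m - 1 - j) : ℝ) := by
        rw [hQ]
        show (B_R (-1) _ (m - 1 - j)).eval _ = _
        rw [B_R_eval, B_desc, Nat.cast_sub hN']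
        refine Finset.prod_congr rfl fun r _ => ?_
        ring
      have h6 : ((2 * (m + l) + j).choose N : ℝ) * ((N.factorial : ℝ) * ((D - N).factorial : ℝ)) =
          ((2 * (m + l) + (j : ℕ)).factorial : ℝ) * ((D - N).descFactorial (m - 1 - j) : ℝ) := by
        have h7 := B_nat (a := 2 * (m + l) + j) (k := m - 1 - j) (D := D) (by omega) hN'
        exact_mod_cast h7
      beta_reduce
      rw [h1, h5]
      have h8 : (N.factorial : ℝ) ≠ 0 := by exact_mod_cast (Nat.factorial_ne_zero _)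
      have h9 : ((D - N).factorial : ℝ) ≠ 0 := by exact_mod_cast (Nat.factorial_ne_zero _)
      have h10 : ((2 * (m + l) + j).choose N : ℝ) =
          ((2 * (m + l) + (j : ℕ)).factorial : ℝ) * ((D - N).descFactorial (m - 1 - j) : ℝ) /
            ((N.factorial : ℝ) * ((D - N).factorial : ℝ)) := by
        rw [← h6, mul_div_assoc, div_self (mul_ne_zero h8 h9), mul_one]
      rw [h10, pow_add]
      ring
    · have hc' : ¬ (N + D) % 3 = 0 := by omega
      rw [if_neg hc, if_neg hc', mul_zero]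
  have h1 : (Matrix.of fun i j : Fin m => AA l m i j) =
      Matrix.of fun i j : Fin m => ((-1) ^ (j : ℕ) * ((2 * (m + l) + (j : ℕ)).factorial : ℝ)) *
        ((Matrix.of fun i j : Fin m => Lam D (fun x => (P i).eval x * (Q j).eval x)).submatrix id
          Fin.revPerm) i j := by
    ext i j
    exact key i j
  have h2 : (Matrix.of fun i j : Fin m => Lam D (fun x => (P i).eval x * (Q j).eval x)).det =
      (∏ i ∈ range m, ((P i).coeff i * (Q i).coeff i)) * Hk D m := by
    have h3 := det_basis D m (fun _ => 1) (fun x => x) P Q hPd hQd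
    simp only [one_mul] at h3
    exact h3
  refine ⟨((Equiv.Perm.sign (Fin.revPerm : Equiv.Perm (Fin m)) : ℤ) : ℝ), ?_, ?_⟩
  · have h4 : ((Equiv.Perm.sign (Fin.revPerm : Equiv.Perm (Fin m)) : ℤˣ) : ℤ) ^ 2 = 1 := by
      rw [← Units.val_pow_eq_pow_val, Int.units_sq, Units.val_one]
    exact_mod_cast h4
  · rw [h1, Matrix.det_mul_row, Matrix.det_permute', h2]
    have h5 : (∏ j : Fin m, ((-1) ^ (j : ℕ) * ((2 * (m + l) + (j : ℕ)).factorial : ℝ))) =
        ∏ i ∈ range m, ((-1) ^ i * ((2 * (m + l) + i).factorial : ℝ)) :=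
      (Finset.prod_range (fun i : ℕ => ((-1 : ℝ) ^ i * ((2 * (m + l) + i).factorial : ℝ)))).symm
    have h6 : (∏ i ∈ range m, ((-1) ^ i * ((2 * (m + l) + i).factorial : ℝ))) *
        (∏ i ∈ range m, ((P i).coeff i * (Q i).coeff i)) =
        ∏ i ∈ range m, (((2 * (m + l) + i).factorial : ℝ) / ((i.factorial : ℝ) * 3 ^ i)) := by
      rw [← Finset.prod_mul_distrib]
      refine Finset.prod_congr rfl fun i _ => ?_
      rw [hPc, hQc]
      have h7 : ((-1 : ℝ) ^ i) * (-1) ^ i = 1 := by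
        rw [← mul_pow]
        norm_num
      calc (-1 : ℝ) ^ i * ((2 * (m + l) + i).factorial : ℝ) * (1 / ((i.factorial : ℝ) * 3 ^ i) * (-1) ^ i)
          = ((-1 : ℝ) ^ i * (-1) ^ i) * (((2 * (m + l) + i).factorial : ℝ) / ((i.factorial : ℝ) * 3 ^ i)) := by
            ring
        _ = _ := by rw [h7, one_mul]
    rw [h5, ← h6]
    ring

end QV
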