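import Pool.Agent.Lib.MP_216314_pr.QV.D

/-!
# Even and odd part

`Lam_symm`: reflection `N ↦ D - N` (`Finset.sum_range_reflect`), `(N + D) % 3 = 0 ↔ (D - N + D) % 3 = 0`, `(-1)^(D-N) = (-1)^D (-1)^N`. `Lam_odd`, `Lam_even`: `f(-x) = -f(x)` resp. `f(-x) = f(x)` and the sign `(-1)^D`.
`Hk_odd`: order the indices `i = 2a` (`a ≤ n`) and `i = 2a+1` (`a < n`): an equivalence `Fin (n+1) ⊕ Fin n ≃ Fin (2n+1)`; `Matrix.det_submatrix_equiv_self`, `Matrix.det_fromBlocks_zero₂₁`: the mixed entries vanish (`Lam_odd`), the blocks are `Lam (x^(2a+2b)) = Lam (x^0 (x²)^(a+b))` and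
`Lam (x^(2a+2b+2)) = Lam (x^2 (x²)^(a+b))`. `Hk_even`: `Fin n ⊕ Fin n ≃ Fin (2n)`; the diagonal blocks vanish (`Lam_even`), the two others are `B = (Lam (x (x²)^(a+b)))`: `[[0,B],[B,0]] = [[B,0],[0,B]] * [[0,1],[1,0]]`, and the determinant of `[[0,1],[1,0]]` has square 1.
-/

set_option autoImplicit false

noncomputable section

namespace QV

open Finset

theorem Lam_symm (D : ℕ) (f : ℝ → ℝ) : Lam D (fun x => f (-x)) = (-1) ^ D * Lam D f := by
  unfold Lam
  rw [Finset.mul_sum, ← Finset.sum_range_reflect]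
  refine Finset.sum_congr rfl fun N hN => ?_
  have hN' : N ≤ D := Nat.lt_succ_iff.1 (Finset.mem_range.1 hN)
  have e0 : D + 1 - 1 - N = D - N := by omega
  rw [e0]
  have e1 : D - (D - N) = N := by omega
  have e2 : (D - N + D) % 3 = 0 ↔ (N + D) % 3 = 0 := by omega
  have e3 : ((D - N : ℕ) : ℝ) = (D : ℝ) - N := by
    rw [Nat.cast_sub hN']
  by_cases h : (N + D) % 3 = 0
  · rw [if_pos h, if_pos (e2.2 h), e1, e3]
    have e4 : -((D : ℝ) - N - D / 2) = (N : ℝ) - D / 2 := by ring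
    have e5 : ((-1 : ℝ)) ^ (D - N) = (-1) ^ D * (-1) ^ N := by
      have h1 : ((-1 : ℝ)) ^ D = (-1) ^ (D - N) * (-1) ^ N := by
        rw [← pow_add]
        congr 1
        omega
      rw [h1, mul_assoc, ← mul_pow]
      norm_num
    beta_reduce
    rw [e4, e5]
    ring
  · rw [if_neg h, if_neg (fun h' => h (e2.1 h')), mul_zero]

theorem Lam_odd (k j : ℕ) : Lam (2 * k) (fun x => x ^ (2 * j + 1)) = 0 := by
  have h := Lam_symm (2 * k) (fun x => x ^ (2 * j + 1))
  have e1 : (fun x : ℝ => (-x) ^ (2 * j + 1)) = fun x => (-1) * x ^ (2 * j + 1) := by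
    funext x
    rw [Odd.neg_pow ⟨j, rfl⟩]
    ring
  have e2 : ((-1 : ℝ)) ^ (2 * k) = 1 := by
    rw [pow_mul]
    norm_num
  rw [e1, Lam_mul, e2] at h
  linarith

theorem Lam_even (k j : ℕ) : Lam (2 * k + 1) (fun x => x ^ (2 * j)) = 0 := by
  have h := Lam_symm (2 * k + 1) (fun x => x ^ (2 * j))
  have e1 : (fun x : ℝ => (-x) ^ (2 * j)) = fun x => x ^ (2 * j) := by
    funext x
    rw [Even.neg_pow ⟨j, two_mul j⟩]
  have e2 : ((-1 : ℝ)) ^ (2 * k + 1) = -1 := by
    rw [pow_succ, pow_mul]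
    norm_num
  rw [e1, e2] at h
  linarith

private theorem C_bij_odd (n : ℕ) : Function.Bijective (Sum.elim (fun a : Fin (n + 1) => (⟨2 * (a : ℕ), by omega⟩ : Fin (2 * n + 1)))
    (fun a : Fin n => ⟨2 * (a : ℕ) + 1, by omega⟩)) := by
  rw [Fintype.bijective_iff_injective_and_card]
  constructor
  · rintro (a | a) (b | b) h
    · simp only [Sum.elim_inl, Fin.mk.injEq] at h
      rw [Fin.ext (by omega : (a : ℕ) = b)]
    · simp only [Sum.elim_inl, Sum.elim_inr, Fin.mk.injEq] at h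
      omega
    · simp only [Sum.elim_inl, Sum.elim_inr, Fin.mk.injEq] at h
      omega
    · simp only [Sum.elim_inr, Fin.mk.injEq] at h
      rw [Fin.ext (by omega : (a : ℕ) = b)]
  · rw [Fintype.card_sum, Fintype.card_fin, Fintype.card_fin, Fintype.card_fin]
    omega

private theorem C_bij_even (n : ℕ) : Function.Bijective (Sum.elim (fun a : Fin n => (⟨2 * (a : ℕ), by omega⟩ : Fin (2 * n)))
    (fun a : Fin n => ⟨2 * (a : ℕ) + 1, by omega⟩)) := by
  rw [Fintype.bijective_iff_injective_and_card]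
  constructor
  · rintro (a | a) (b | b) h
    · simp only [Sum.elim_inl, Fin.mk.injEq] at h
      rw [Fin.ext (by omega : (a : ℕ) = b)]
    · simp only [Sum.elim_inl, Sum.elim_inr, Fin.mk.injEq] at h
      omega
    · simp only [Sum.elim_inl, Sum.elim_inr, Fin.mk.injEq] at h
      omega
    · simp only [Sum.elim_inr, Fin.mk.injEq] at h
      rw [Fin.ext (by omega : (a : ℕ) = b)]
  · rw [Fintype.card_sum, Fintype.card_fin, Fintype.card_fin]
    omega

theorem Hk_odd (k n : ℕ) : Hk (2 * k) (2 * n + 1) = Dk (2 * k) 0 (n + 1) * Dk (2 * k) 2 n := by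
  unfold Hk Dk
  rw [← Matrix.det_submatrix_equiv_self (Equiv.ofBijective _ (C_bij_odd n)), ← Matrix.det_fromBlocks_zero₂₁ _ 0 _]
  congr 1
  ext i j
  rcases i with a | a <;> rcases j with b | b
  · simp only [Matrix.submatrix_apply, Equiv.ofBijective_apply, Sum.elim_inl, Matrix.of_apply, Matrix.fromBlocks_apply₁₁]
    congr 1
    funext x
    rw [pow_zero, one_mul, ← pow_mul]
    congr 1
    ring
  · simp only [Matrix.submatrix_apply, Equiv.ofBijective_apply, Sum.elim_inl, Sum.elim_inr, Matrix.of_apply,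
      Matrix.fromBlocks_apply₁₂, Matrix.zero_apply]
    have e : 2 * (a : ℕ) + (2 * (b : ℕ) + 1) = 2 * (a + b) + 1 := by ring
    rw [e]
    exact Lam_odd k _
  · simp only [Matrix.submatrix_apply, Equiv.ofBijective_apply, Sum.elim_inl, Sum.elim_inr, Matrix.of_apply,
      Matrix.fromBlocks_apply₂₁, Matrix.zero_apply]
    have e : 2 * (a : ℕ) + 1 + 2 * (b : ℕ) = 2 * (a + b) + 1 := by ring
    rw [e]
    exact Lam_odd k _
  · simp only [Matrix.submatrix_apply, Equiv.ofBijective_apply, Sum.elim_inr, Matrix.of_apply, Matrix.fromBlocks_apply₂₂]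
    congr 1
    funext x
    rw [← pow_mul, ← pow_add]
    congr 1
    ring

theorem Hk_even (k n : ℕ) : ∃ s : ℝ, s ^ 2 = 1 ∧ Hk (2 * k + 1) (2 * n) = s * Dk (2 * k + 1) 1 n ^ 2 := by
  refine ⟨(Matrix.fromBlocks 0 1 1 0 : Matrix (Fin n ⊕ Fin n) (Fin n ⊕ Fin n) ℝ).det, ?_, ?_⟩
  · rw [pow_two, ← Matrix.det_mul, Matrix.fromBlocks_multiply]
    simp only [mul_zero, mul_one, zero_mul, one_mul, add_zero, zero_add, Matrix.fromBlocks_one, Matrix.det_one]
  · unfold Hk Dk
    set B : Matrix (Fin n) (Fin n) ℝ := Matrix.of fun i j : Fin n => Lam (2 * k + 1) fun x => x ^ 1 * (x ^ 2) ^ ((i : ℕ) + j) with hB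
    have e0 : B.det ^ 2 = (Matrix.fromBlocks B 0 0 B : Matrix (Fin n ⊕ Fin n) (Fin n ⊕ Fin n) ℝ).det := by
      rw [Matrix.det_fromBlocks_zero₂₁, pow_two]
    rw [e0, ← Matrix.det_mul, Matrix.fromBlocks_multiply]
    simp only [Matrix.mul_zero, Matrix.zero_mul, Matrix.one_mul, add_zero, zero_add]
    rw [← Matrix.det_submatrix_equiv_self (Equiv.ofBijective _ (C_bij_even n))]
    congr 1
    ext i j
    rcases i with a | a <;> rcases j with b | b
    · simp only [Matrix.submatrix_apply, Equiv.ofBijective_apply, Sum.elim_inl, Matrix.of_apply,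
        Matrix.fromBlocks_apply₁₁, Matrix.zero_apply]
      have e : 2 * (a : ℕ) + 2 * (b : ℕ) = 2 * (a + b) := by ring
      rw [e]
      exact Lam_even k _
    · simp only [Matrix.submatrix_apply, Equiv.ofBijective_apply, Sum.elim_inl, Sum.elim_inr, Matrix.of_apply,
        Matrix.fromBlocks_apply₁₂, hB]
      congr 1
      funext x
      rw [← pow_mul, ← pow_add]
      congr 1
      ring
    · simp only [Matrix.submatrix_apply, Equiv.ofBijective_apply, Sum.elim_inl, Sum.elim_inr, Matrix.of_apply,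
        Matrix.fromBlocks_apply₂₁, hB]
      congr 1
      funext x
      rw [← pow_mul, ← pow_add]
      congr 1
      ring
    · simp only [Matrix.submatrix_apply, Equiv.ofBijective_apply, Sum.elim_inr, Matrix.of_apply,
        Matrix.fromBlocks_apply₂₂, Matrix.zero_apply]
      have e : 2 * (a : ℕ) + 1 + (2 * (b : ℕ) + 1) = 2 * (a + b + 1) := by ring
      rw [e]
      exact Lam_even k _

end QV
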