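import Pool.Agent.Lib.MP_216314_pr.QV.M

/-!
# The values of the functional on products

Write `u = -D/2` (so `x² - (u+r)²`), `a = u/3`, `b = (u+1)/3`, `c = (u+2)/3`, `δ = d/2`, `σ = u+1+δ = a+b+c+δ`; `RR i j k` denotes the product of the six `ph` times `(-9)^(i+j+k)`. `F = FF D d`.
(1) contiguity: `F (i+1) j k - F i (j+1) k = ((u+1+3j)² - (u+3i)²) F i j k`, `F (i+1) j k - F i j (k+1) = ((u+2+3k)² - (u+3i)²) F i j k` (`Finset.prod_range_succ`, `Lam_sub`, `Lam_mul`).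
(2) `RR (i+1) j k - RR i (j+1) k = ((u+1+3j)² - (u+3i)²) (σ+i+j+k) RR i j k` and the analogue for `k` (`ph_succ`, `ring`).
(3) path: for `2M ≤ D`, `M = i+j+k` with `(i,j,k) = (p,p,p), (p+1,p,p), (p+1,p+1,p)`: the product of all factors is `∏_{r<M} (x² - (u+r)²)`, and `Lam D (x^d ∏_{r<M} (x² - (u+r)²)) = Lam (D-2M) (x^d)` by `Lam_shift` (`-D/2 + r`, `D - 2r`), so `F(path M) = Lam (D-2M) (x^d)`; with `pr` for `D - 2M - 2` (`Ok (D-2M-2) d`)
`F(path (M+1)) (σ+M) = -9 ((2u'+1)/3) ((2u'+2)/3) (u'/3+δ) F(path M)`, `u' = u+M`, which is the quotient `RR(path (M+1))/RR(path M)` in each of the three cases.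
(4) induction on `M`: `F i j k * ph σ M = Lam D (x^d) * RR i j k` for all `i+j+k = M`, `2M ≤ D`. `M = 0` clear. Step: let `E i j k = F i j k * ph σ (M+1) - Lam D (x^d) * RR i j k` for `i+j+k = M+1`; by (1), (2) and the induction hypothesis `E i (j+1) k = E (i+1) j k` and `E i j (k+1) = E (i+1) j k`
(`i+j+k = M`), so all `E` are equal to `E (M+1) 0 0`; the one at the path point vanishes by (3) and the induction hypothesis at the path point of level `M`.
-/

set_option autoImplicit false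

noncomputable section

namespace QV

open Finset

def FF (D d i j k : ℕ) : ℝ := Lam D fun x => x ^ d * ((∏ r ∈ range i, (x ^ 2 - (-(D : ℝ) / 2 + 3 * r) ^ 2)) *
  (∏ r ∈ range j, (x ^ 2 - (-(D : ℝ) / 2 + 1 + 3 * r) ^ 2)) * ∏ r ∈ range k, (x ^ 2 - (-(D : ℝ) / 2 + 2 + 3 * r) ^ 2))

private def E_R (D d i j k : ℕ) : ℝ := (-9) ^ (i + j + k) * (ph ((-(D : ℝ) + 1) / 3) (i + j) * ph ((-(D : ℝ) + 2) / 3) (i + k) *
        ph ((-(D : ℝ) + 3) / 3) (j + k) * ph (-(D : ℝ) / 6 + (d : ℝ) / 2) i * ph (-(D : ℝ) / 6 + 1 / 3 + (d : ℝ) / 2) j *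
        ph (-(D : ℝ) / 6 + 2 / 3 + (d : ℝ) / 2) k)

private theorem E_R_i (D d i j k : ℕ) : E_R D d (i + 1) j k =
    -9 * (((-(D : ℝ) + 1) / 3 + (i + j)) * ((-(D : ℝ) + 2) / 3 + (i + k)) * (-(D : ℝ) / 6 + (d : ℝ) / 2 + i)) *
      E_R D d i j k := by
  unfold E_R
  have e1 : i + 1 + j + k = i + j + k + 1 := by omega
  have e2 : i + 1 + j = i + j + 1 := by omega
  have e3 : i + 1 + k = i + k + 1 := by omega
  rw [e1, e2, e3, pow_succ, ph_succ, ph_succ, ph_succ]
  push_cast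
  ring

private theorem E_R_j (D d i j k : ℕ) : E_R D d i (j + 1) k =
    -9 * (((-(D : ℝ) + 1) / 3 + (i + j)) * ((-(D : ℝ) + 3) / 3 + (j + k)) *
      (-(D : ℝ) / 6 + 1 / 3 + (d : ℝ) / 2 + j)) * E_R D d i j k := by
  unfold E_R
  have e1 : i + (j + 1) + k = i + j + k + 1 := by omega
  have e2 : i + (j + 1) = i + j + 1 := by omega
  have e3 : j + 1 + k = j + k + 1 := by omega
  rw [e1, e2, e3, pow_succ, ph_succ, ph_succ, ph_succ]
  push_cast
  ring

private theorem E_R_k (D d i j k : ℕ) : E_R D d i j (k + 1) =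
    -9 * (((-(D : ℝ) + 2) / 3 + (i + k)) * ((-(D : ℝ) + 3) / 3 + (j + k)) *
      (-(D : ℝ) / 6 + 2 / 3 + (d : ℝ) / 2 + k)) * E_R D d i j k := by
  unfold E_R
  have e1 : i + j + (k + 1) = i + j + k + 1 := by omega
  have e2 : i + (k + 1) = i + k + 1 := by omega
  have e3 : j + (k + 1) = j + k + 1 := by omega
  rw [e1, e2, e3, pow_succ, ph_succ, ph_succ, ph_succ]
  push_cast
  ring

private theorem E_F_ij (D d i j k : ℕ) : FF D d (i + 1) j k - FF D d i (j + 1) k =
    ((-(D : ℝ) / 2 + 1 + 3 * j) ^ 2 - (-(D : ℝ) / 2 + 3 * i) ^ 2) * FF D d i j k := by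
  unfold FF
  rw [← Lam_sub, ← Lam_mul]
  refine Lam_congr fun N _ => ?_
  rw [prod_range_succ, prod_range_succ]
  ring

private theorem E_F_ik (D d i j k : ℕ) : FF D d (i + 1) j k - FF D d i j (k + 1) =
    ((-(D : ℝ) / 2 + 2 + 3 * k) ^ 2 - (-(D : ℝ) / 2 + 3 * i) ^ 2) * FF D d i j k := by
  unfold FF
  rw [← Lam_sub, ← Lam_mul]
  refine Lam_congr fun N _ => ?_
  rw [prod_range_succ, prod_range_succ]
  ring

private theorem E_shift (M : ℕ) : ∀ (D : ℕ) (f : ℝ → ℝ), Lam (D + 2 * M)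
    (fun x => f x * ∏ r ∈ range M, (x ^ 2 - (-((D + 2 * M : ℕ) : ℝ) / 2 + r) ^ 2)) = Lam D f := by
  induction M with
  | zero =>
    intro D f
    rw [Nat.mul_zero, Nat.add_zero]
    refine Lam_congr fun N _ => ?_
    rw [prod_range_zero, mul_one]
  | succ M ih =>
    intro D f
    have e1 : D + 2 * (M + 1) = D + 2 * M + 2 := by omega
    rw [← ih D f, e1]
    refine Eq.trans ?_ (Lam_shift (D + 2 * M)
      (fun x => f x * ∏ r ∈ range M, (x ^ 2 - (-((D + 2 * M : ℕ) : ℝ) / 2 + r) ^ 2)))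
    refine Lam_congr fun N _ => ?_
    rw [prod_range_succ']
    have e2 : ∀ x : ℝ, ∏ k ∈ range M, (x ^ 2 - (-((D + 2 * M + 2 : ℕ) : ℝ) / 2 + ((k + 1 : ℕ) : ℝ)) ^ 2) =
        ∏ r ∈ range M, (x ^ 2 - (-((D + 2 * M : ℕ) : ℝ) / 2 + r) ^ 2) := by
      intro x
      refine prod_congr rfl fun r _ => ?_
      push_cast
      ring
    rw [e2]
    push_cast
    ring

private theorem E_prod (u x : ℝ) (M : ℕ) : (∏ r ∈ range ((M + 2) / 3), (x ^ 2 - (u + 3 * r) ^ 2)) *
    (∏ r ∈ range ((M + 1) / 3), (x ^ 2 - (u + 1 + 3 * r) ^ 2)) *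
      (∏ r ∈ range (M / 3), (x ^ 2 - (u + 2 + 3 * r) ^ 2)) = ∏ r ∈ range M, (x ^ 2 - (u + r) ^ 2) := by
  induction M with
  | zero => simp
  | succ M ih =>
    rw [prod_range_succ, ← ih]
    obtain ⟨p, hp⟩ : ∃ p, M = 3 * p ∨ M = 3 * p + 1 ∨ M = 3 * p + 2 := ⟨M / 3, by omega⟩
    rcases hp with rfl | rfl | rfl
    · have a1 : (3 * p + 1 + 2) / 3 = p + 1 := by omega
      have a2 : (3 * p + 1 + 1) / 3 = p := by omega
      have a3 : (3 * p + 1) / 3 = p := by omega
      have a5 : 3 * p / 3 = p := by omega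
      simp only [a1, a2, a3, a5]
      rw [prod_range_succ]
      push_cast
      ring
    · have a1 : (3 * p + 1 + 1 + 2) / 3 = p + 1 := by omega
      have a2 : (3 * p + 1 + 1 + 1) / 3 = p + 1 := by omega
      have a3 : (3 * p + 1 + 1) / 3 = p := by omega
      have a5 : (3 * p + 1) / 3 = p := by omega
      simp only [a1, a2, a3, a5]
      rw [prod_range_succ (fun r : ℕ => x ^ 2 - (u + 1 + 3 * (r : ℝ)) ^ 2)]
      push_cast
      ring
    · have a1 : (3 * p + 2 + 1 + 2) / 3 = p + 1 := by omega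
      have a2 : (3 * p + 2 + 1 + 1) / 3 = p + 1 := by omega
      have a3 : (3 * p + 2 + 1) / 3 = p + 1 := by omega
      have a5 : (3 * p + 2) / 3 = p := by omega
      simp only [a1, a2, a3, a5]
      rw [prod_range_succ (fun r : ℕ => x ^ 2 - (u + 2 + 3 * (r : ℝ)) ^ 2)]
      push_cast
      ring

private theorem E_path (D' d M : ℕ) : FF (D' + 2 * M) d ((M + 2) / 3) ((M + 1) / 3) (M / 3) =
    Lam D' (fun x => x ^ d) := by
  rw [← E_shift M D' (fun x => x ^ d)]
  unfold FF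
  refine Lam_congr fun N _ => ?_
  rw [E_prod]

private theorem E_Rpath (D d M : ℕ) : E_R D d ((M + 1 + 2) / 3) ((M + 1 + 1) / 3) ((M + 1) / 3) =
    -9 * (((-(D : ℝ) + 2 * M + 1) / 3) * ((-(D : ℝ) + 2 * M + 2) / 3) *
      ((-(D : ℝ) / 2 + M) / 3 + (d : ℝ) / 2)) * E_R D d ((M + 2) / 3) ((M + 1) / 3) (M / 3) := by
  obtain ⟨p, hp⟩ : ∃ p, M = 3 * p ∨ M = 3 * p + 1 ∨ M = 3 * p + 2 := ⟨M / 3, by omega⟩
  rcases hp with rfl | rfl | rfl
  · have a1 : (3 * p + 1 + 2) / 3 = p + 1 := by omega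
    have a2 : (3 * p + 1 + 1) / 3 = p := by omega
    have a3 : (3 * p + 1) / 3 = p := by omega
    have a5 : 3 * p / 3 = p := by omega
    simp only [a1, a2, a3, a5]
    rw [E_R_i]
    push_cast
    ring
  · have a1 : (3 * p + 1 + 1 + 2) / 3 = p + 1 := by omega
    have a2 : (3 * p + 1 + 1 + 1) / 3 = p + 1 := by omega
    have a3 : (3 * p + 1 + 1) / 3 = p := by omega
    have a5 : (3 * p + 1) / 3 = p := by omega
    simp only [a1, a2, a3, a5]
    rw [E_R_j]
    push_cast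
    ring
  · have a1 : (3 * p + 2 + 1 + 2) / 3 = p + 1 := by omega
    have a2 : (3 * p + 2 + 1 + 1) / 3 = p + 1 := by omega
    have a3 : (3 * p + 2 + 1) / 3 = p + 1 := by omega
    have a5 : (3 * p + 2) / 3 = p := by omega
    simp only [a1, a2, a3, a5]
    rw [E_R_k]
    push_cast
    ring

private theorem E_ok {D d M : ℕ} (h : Ok (D + 2 * M) d) : Ok D d := by
  unfold Ok at h ⊢
  have h1 : Even (D + 2 * M) ↔ Even D := by
    rw [Nat.even_add]
    constructor
    · intro h2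
      exact h2.2 (even_two_mul M)
    · intro h2
      exact ⟨fun _ => even_two_mul M, fun _ => h2⟩
  have h2 : Odd (D + 2 * M) ↔ Odd D := by
    rw [← Nat.not_even_iff_odd, ← Nat.not_even_iff_odd, h1]
  rw [h1, h2] at h
  exact h

private theorem E_step {D d : ℕ} (h : Ok D d) (M : ℕ) (hM : 2 * (M + 1) ≤ D) :
    FF D d ((M + 1 + 2) / 3) ((M + 1 + 1) / 3) ((M + 1) / 3) * (-(D : ℝ) / 2 + 1 + (d : ℝ) / 2 + M) =
      -9 * (((-(D : ℝ) + 2 * M + 1) / 3) * ((-(D : ℝ) + 2 * M + 2) / 3) *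
      ((-(D : ℝ) / 2 + M) / 3 + (d : ℝ) / 2)) * FF D d ((M + 2) / 3) ((M + 1) / 3) (M / 3) := by
  obtain ⟨D', rfl⟩ : ∃ D', D = D' + 2 * (M + 1) := ⟨D - 2 * (M + 1), by omega⟩
  have h1 := E_path D' d (M + 1)
  have h2 := E_path (D' + 2) d M
  have e1 : D' + 2 + 2 * M = D' + 2 * (M + 1) := by ring
  rw [e1] at h2
  rw [h1, h2]
  have h3 := pr (E_ok h)
  push_cast
  linear_combination h3

theorem FF_val {D d : ℕ} (h : Ok D d) (i j k : ℕ) (hM : 2 * (i + j + k) ≤ D) :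
    FF D d i j k * ph (-(D : ℝ) / 2 + 1 + (d : ℝ) / 2) (i + j + k) =
      Lam D (fun x => x ^ d) * ((-9) ^ (i + j + k) * (ph ((-(D : ℝ) + 1) / 3) (i + j) * ph ((-(D : ℝ) + 2) / 3) (i + k) *
        ph ((-(D : ℝ) + 3) / 3) (j + k) * ph (-(D : ℝ) / 6 + (d : ℝ) / 2) i * ph (-(D : ℝ) / 6 + 1 / 3 + (d : ℝ) / 2) j *
        ph (-(D : ℝ) / 6 + 2 / 3 + (d : ℝ) / 2) k)) := by
  have main : ∀ M : ℕ, 2 * M ≤ D → ∀ i j k : ℕ, i + j + k = M →
      FF D d i j k * ph (-(D : ℝ) / 2 + 1 + (d : ℝ) / 2) M = Lam D (fun x => x ^ d) * E_R D d i j k := by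
    intro M
    induction M with
    | zero =>
      intro _ i j k hijk
      have hi : i = 0 := by omega
      have hj : j = 0 := by omega
      have hk : k = 0 := by omega
      subst hi hj hk
      unfold FF E_R
      rw [ph_zero, ph_zero, ph_zero, ph_zero, ph_zero, ph_zero, ph_zero, mul_one]
      simp
    | succ M ih =>
      intro hM2 i j k hijk
      have hM1 : 2 * M ≤ D := by omega
      have ih' := ih hM1
      let E : ℕ → ℕ → ℕ → ℝ := fun i j k => FF D d i j k * ph (-(D : ℝ) / 2 + 1 + (d : ℝ) / 2) (M + 1) -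
        Lam D (fun x => x ^ d) * E_R D d i j k
      have hE : ∀ i j k, E i j k = FF D d i j k * ph (-(D : ℝ) / 2 + 1 + (d : ℝ) / 2) (M + 1) -
        Lam D (fun x => x ^ d) * E_R D d i j k := fun _ _ _ => rfl
      have h1 : ∀ i j k, i + j + k = M → E i (j + 1) k = E (i + 1) j k := by
        intro i j k hs
        have h2 := ih' i j k hs
        have h3 := E_F_ij D d i j k
        have hs' : (M : ℝ) = i + j + k := by
          rw [← hs]
          push_cast
          ring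
        rw [hE, hE, E_R_i, E_R_j, ph_succ, hs']
        linear_combination (-(ph (-(D : ℝ) / 2 + 1 + (d : ℝ) / 2) M * (-(D : ℝ) / 2 + 1 + (d : ℝ) / 2 + (i + j + k)))) * h3 -
          ((-(D : ℝ) / 2 + 1 + (d : ℝ) / 2 + (i + j + k)) *
            ((-(D : ℝ) / 2 + 1 + 3 * j) ^ 2 - (-(D : ℝ) / 2 + 3 * i) ^ 2)) * h2
      have h1' : ∀ i j k, i + j + k = M → E i j (k + 1) = E (i + 1) j k := by
        intro i j k hs
        have h2 := ih' i j k hs
        have h3 := E_F_ik D d i j k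
        have hs' : (M : ℝ) = i + j + k := by
          rw [← hs]
          push_cast
          ring
        rw [hE, hE, E_R_i, E_R_k, ph_succ, hs']
        linear_combination (-(ph (-(D : ℝ) / 2 + 1 + (d : ℝ) / 2) M * (-(D : ℝ) / 2 + 1 + (d : ℝ) / 2 + (i + j + k)))) * h3 -
          ((-(D : ℝ) / 2 + 1 + (d : ℝ) / 2 + (i + j + k)) *
            ((-(D : ℝ) / 2 + 2 + 3 * k) ^ 2 - (-(D : ℝ) / 2 + 3 * i) ^ 2)) * h2
      have h4 : ∀ j i k, i + j + k = M + 1 → E i j k = E (i + j) 0 k := by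
        intro j
        induction j with
        | zero =>
          intro i k _
          rfl
        | succ j ihj =>
          intro i k hs
          rw [h1 i j k (by omega), ihj (i + 1) k (by omega)]
          have e1 : i + 1 + j = i + (j + 1) := by omega
          rw [e1]
      have h5 : ∀ k i, i + k = M + 1 → E i 0 k = E (i + k) 0 0 := by
        intro k
        induction k with
        | zero =>
          intro i _
          rfl
        | succ k ihk =>
          intro i hs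
          rw [h1' i 0 k (by omega), ihk (i + 1) (by omega)]
          have e1 : i + 1 + k = i + (k + 1) := by omega
          rw [e1]
      have h6 : ∀ i j k, i + j + k = M + 1 → E i j k = E (M + 1) 0 0 := by
        intro i j k hs
        rw [h4 j i k hs, h5 k (i + j) (by omega), hs]
      have h7 : E ((M + 1 + 2) / 3) ((M + 1 + 1) / 3) ((M + 1) / 3) = 0 := by
        have h8 := E_step h M hM2
        have h9 := ih' ((M + 2) / 3) ((M + 1) / 3) (M / 3) (by omega)
        rw [hE, ph_succ, E_Rpath]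
        linear_combination (ph (-(D : ℝ) / 2 + 1 + (d : ℝ) / 2) M) * h8 +
          (-9 * (((-(D : ℝ) + 2 * M + 1) / 3) * ((-(D : ℝ) + 2 * M + 2) / 3) *
            ((-(D : ℝ) / 2 + M) / 3 + (d : ℝ) / 2))) * h9
      have h10 : E i j k = 0 := by
        rw [h6 i j k hijk, ← h6 ((M + 1 + 2) / 3) ((M + 1 + 1) / 3) ((M + 1) / 3) (by omega), h7]
      rw [hE] at h10
      linarith
  exact main (i + j + k) hM i j k rfl

end QV
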