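import Pool.Agent.Lib.MP_216314_pr.QV.D

/-!
# Finite differences

`fd_zero`: induction on `M` for all `p`: with `E q = ∑_{i ≤ M} (-1)^i choose M i q(i)`: `∑_{i ≤ M+1} (-1)^i choose (M+1) i p(i) = E (p - p.comp (X+1))` (Pascal), and `p - p.comp (X+1)` has degree `< M` if `p` has degree `< M+1` (or use Mathlib: `fwdDiff_iter_eq_sum_shift`,
`fwdDiff_iter_eq_zero_of_degree_lt` if available).
`fd_frac`: induction on `M` (Pascal): `∑_{i≤M+1} (-1)^i choose (M+1) i/(z+i) = M!/ph z (M+1) - M!/ph (z+1) (M+1) = (M+1)!/ph z (M+2)`.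
`S_sum`: `M = 0`: both sides 1. `M ≥ 1`, `z = s+M-1`: all `z + i ≠ 0`, `i ≤ M` (factors of `ph s (2M)`). `ph s (i+j) = ph s j * ph (s+j) i`. If `j < M`: `ph z i/ph (s+j) i = ph (s+j+i) (M-1-j)/ph (s+j) (M-1-j)` (both `ph (s+j) (i+M-1-j)` divided), so the term is a polynomial in `i` of degree
`j + (M-1-j) = M-1 < M`: `fd_zero`. If `j = M`: `ph z i/ph (s+M) i = z/(z+i)`, the sum is `(z/ph s M) ∑ (-1)^i choose M i q(i)/(z+i)`, `q(y) = ph (A+y) M` a polynomial of degree `≤ M`; `q(y) - q(-z) = (y+z) r(y)` with degree of `r` `< M` (`Polynomial.dvd_iff_isRoot`,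
`Polynomial.mul_divByMonic_eq_iff_isRoot`): `= (z/ph s M) q(-z) M!/ph z (M+1)`; `q(-z) = ph (A-s-M+1) M = (-1)^M ph (s-A) M` (reflection), `ph s M * ph z (M+1) = z * ph s (2M)` (`ph z (M+1) = z ph (s+M) M`).
-/

set_option autoImplicit false

noncomputable section

namespace QV

open Finset

theorem fd_zero (M : ℕ) (p : Polynomial ℝ) (h : p.natDegree < M) :
    ∑ i ∈ range (M + 1), (-1) ^ i * (M.choose i : ℝ) * p.eval (i : ℝ) = 0 := by
  have h1 := congrFun (Polynomial.fwdDiff_iter_eq_zero_of_degree_lt h) (0 : ℝ)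
  rw [fwdDiff_iter_eq_sum_shift] at h1
  have h2 : ∑ i ∈ range (M + 1), (-1) ^ i * (M.choose i : ℝ) * p.eval (i : ℝ) =
      (-1) ^ M * ∑ k ∈ range (M + 1), ((-1 : ℤ) ^ (M - k) * M.choose k) • p.eval ((0 : ℝ) + k • (1 : ℝ)) := by
    rw [Finset.mul_sum]
    refine Finset.sum_congr rfl fun i hi => ?_
    have hi' : i ≤ M := Nat.lt_succ_iff.1 (Finset.mem_range.1 hi)
    have h3 : ((-1 : ℝ)) ^ M * (-1) ^ (M - i) = (-1) ^ i := by
      obtain ⟨t, rfl⟩ := Nat.exists_eq_add_of_le hi'
      rw [Nat.add_sub_cancel_left, pow_add, mul_assoc, ← pow_add, ← two_mul, pow_mul]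
      norm_num
    rw [zsmul_eq_mul, zero_add, nsmul_eq_mul, mul_one]
    push_cast
    rw [← h3]
    ring
  rw [h2, h1]
  simp

private theorem S_pascal (M : ℕ) (f : ℕ → ℝ) :
    ∑ i ∈ range (M + 2), (-1) ^ i * ((M + 1).choose i : ℝ) * f i =
      ∑ i ∈ range (M + 1), (-1) ^ i * (M.choose i : ℝ) * (f i - f (i + 1)) := by
  rw [Finset.sum_range_succ']
  have h1 : ∀ i, (-1 : ℝ) ^ (i + 1) * ((M + 1).choose (i + 1) : ℝ) * f (i + 1) =
      (-1) ^ (i + 1) * (M.choose (i + 1) : ℝ) * f (i + 1) - (-1) ^ i * (M.choose i : ℝ) * f (i + 1) := by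
    intro i
    rw [Nat.choose_succ_succ]
    push_cast
    ring
  rw [Finset.sum_congr rfl fun i _ => h1 i, Finset.sum_sub_distrib]
  have h2 : ∑ i ∈ range (M + 1), (-1 : ℝ) ^ (i + 1) * (M.choose (i + 1) : ℝ) * f (i + 1) + f 0 =
      ∑ i ∈ range (M + 1), (-1) ^ i * (M.choose i : ℝ) * f i := by
    have h3 := Finset.sum_range_succ' (fun i => (-1 : ℝ) ^ i * (M.choose i : ℝ) * f i) (M + 1)
    have h4 := Finset.sum_range_succ (fun i => (-1 : ℝ) ^ i * (M.choose i : ℝ) * f i) (M + 1)
    rw [Nat.choose_succ_self] at h4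
    simp only [Nat.cast_zero, mul_zero, zero_mul, add_zero, pow_zero, Nat.choose_zero_right,
      Nat.cast_one, one_mul] at h3 h4
    rw [← h3, h4]
  simp only [mul_sub, Finset.sum_sub_distrib]
  rw [← h2]
  simp only [pow_zero, Nat.choose_zero_right, Nat.cast_one, one_mul]
  ring

theorem fd_frac (M : ℕ) (z : ℝ) (hz : ∀ i : ℕ, i ≤ M → z + i ≠ 0) :
    ∑ i ∈ range (M + 1), (-1) ^ i * (M.choose i : ℝ) / (z + i) = (M.factorial : ℝ) / ph z (M + 1) := by
  induction M generalizing z with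
  | zero =>
    simp [ph]
  | succ M ih =>
    have h1 : ∑ i ∈ range (M + 1 + 1), (-1) ^ i * ((M + 1).choose i : ℝ) / (z + i) =
        ∑ i ∈ range (M + 2), (-1) ^ i * ((M + 1).choose i : ℝ) * (1 / (z + i)) :=
      Finset.sum_congr rfl fun i _ => by rw [mul_one_div]
    rw [h1, S_pascal M (fun i => 1 / (z + i))]
    simp only [mul_sub, Finset.sum_sub_distrib]
    have h2 := ih z (fun i hi => hz i (by omega))
    have h3 := ih (z + 1) (fun i hi => by
      have := hz (i + 1) (by omega)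
      push_cast at this
      rwa [show z + 1 + (i : ℝ) = z + (i + 1) by ring])
    have h4 : ∑ i ∈ range (M + 1), (-1 : ℝ) ^ i * (M.choose i : ℝ) * (1 / (z + i)) =
        (M.factorial : ℝ) / ph z (M + 1) := by
      rw [← h2]
      exact Finset.sum_congr rfl fun i _ => by rw [mul_one_div]
    have h5 : ∑ i ∈ range (M + 1), (-1 : ℝ) ^ i * (M.choose i : ℝ) * (1 / (z + ((i + 1 : ℕ) : ℝ))) =
        (M.factorial : ℝ) / ph (z + 1) (M + 1) := by
      rw [← h3]
      refine Finset.sum_congr rfl fun i _ => ?_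
      push_cast
      rw [mul_one_div, show z + ((i : ℝ) + 1) = z + 1 + i by ring]
    rw [h4, h5]
    have hne : ph z (M + 2) ≠ 0 := by
      unfold ph
      exact Finset.prod_ne_zero_iff.2 fun r hr => hz r (Nat.lt_succ_iff.1 (Finset.mem_range.1 hr))
    have h6 : ph z (M + 2) = z * ph (z + 1) (M + 1) := ph_succ' z (M + 1)
    have h7 : ph z (M + 2) = ph z (M + 1) * (z + ((M + 1 : ℕ) : ℝ)) := ph_succ z (M + 1)
    have h8 : ph (z + 1) (M + 1) ≠ 0 := fun h => hne (by rw [h6, h, mul_zero])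
    have h9 : ph z (M + 1) ≠ 0 := fun h => hne (by rw [h7, h, zero_mul])
    rw [div_sub_div _ _ h9 h8, Nat.factorial_succ, div_eq_div_iff (mul_ne_zero h9 h8) hne]
    have h10 : z * ph (z + 1) (M + 1) = ph z (M + 1) * (z + ((M + 1 : ℕ) : ℝ)) := by rw [← h6, h7]
    rw [h6]
    push_cast at h10 ⊢
    linear_combination ((M.factorial : ℝ) * ph (z + 1) (M + 1)) * h10

/-- the rising factorial of `a + y` as a polynomial of `y` -/
private def S_poly (a : ℝ) (k : ℕ) : Polynomial ℝ := ∏ r ∈ range k, (Polynomial.X + Polynomial.C (a + r))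

private theorem S_poly_eval (a : ℝ) (k : ℕ) (y : ℝ) : (S_poly a k).eval y = ph (a + y) k := by
  unfold S_poly ph
  rw [Polynomial.eval_prod]
  refine Finset.prod_congr rfl fun r _ => ?_
  rw [Polynomial.eval_add, Polynomial.eval_X, Polynomial.eval_C]
  ring

private theorem S_poly_deg (a : ℝ) (k : ℕ) : (S_poly a k).natDegree ≤ k := by
  unfold S_poly
  refine (Polynomial.natDegree_prod_le _ _).trans ?_
  refine (Finset.sum_le_card_nsmul _ _ 1 fun r _ => ?_).trans (by simp)
  rw [Polynomial.natDegree_X_add_C]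

theorem S_sum (M j : ℕ) (A s : ℝ) (hj : j ≤ M) (hs : ph s (2 * M) ≠ 0) :
    ∑ i ∈ range (M + 1), (-1) ^ i * (M.choose i : ℝ) * (ph (s + M - 1) i * ph (A + i) j / ph s (i + j)) =
      if j = M then (-1) ^ M * ph (s - A) M * (M.factorial : ℝ) / ph s (2 * M) else 0 := by
  rcases Nat.eq_zero_or_pos M with hM | hM
  · subst hM
    obtain rfl : j = 0 := by omega
    simp [ph]
  have hfac : ∀ r : ℕ, r < 2 * M → s + r ≠ 0 := by
    intro r hr
    unfold ph at hs
    exact Finset.prod_ne_zero_iff.1 hs r (Finset.mem_range.2 hr)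
  have hph : ∀ k, k ≤ 2 * M → ph s k ≠ 0 := by
    intro k hk
    unfold ph
    exact Finset.prod_ne_zero_iff.2 fun r hr => hfac r (lt_of_lt_of_le (Finset.mem_range.1 hr) hk)
  obtain ⟨m, rfl⟩ : ∃ m, M = m + 1 := ⟨M - 1, by omega⟩
  set z : ℝ := s + ((m + 1 : ℕ) : ℝ) - 1 with hz
  have hz' : z = s + m := by rw [hz]; push_cast; ring
  have hzi : ∀ i : ℕ, i ≤ m + 1 → z + i ≠ 0 := by
    intro i hi
    have := hfac (m + i) (by omega)
    push_cast at this
    rw [hz']
    rwa [show s + (m : ℝ) + i = s + (m + i) by ring]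
  by_cases hjm : j = m + 1
  · subst hjm
    rw [if_pos rfl]
    have hz0 : z ≠ 0 := by
      have := hzi 0 (by omega)
      simpa using this
    set Q := S_poly A (m + 1) with hQ
    set R := Q /ₘ (Polynomial.X - Polynomial.C (-z)) with hR
    have hRd : R.natDegree < m + 1 := by
      rw [hR, Polynomial.natDegree_divByMonic _ (Polynomial.monic_X_sub_C _), Polynomial.natDegree_X_sub_C]
      have := S_poly_deg A (m + 1)
      rw [← hQ] at this
      omega
    have hQR : ∀ y : ℝ, ph (A + y) (m + 1) = (z + y) * R.eval y + Q.eval (-z) := by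
      intro y
      have h1 := Polynomial.modByMonic_add_div Q (Polynomial.X - Polynomial.C (-z))
      rw [Polynomial.modByMonic_X_sub_C_eq_C_eval] at h1
      have h2 := congrArg (Polynomial.eval y) h1
      rw [Polynomial.eval_add, Polynomial.eval_mul, Polynomial.eval_C, Polynomial.eval_sub,
        Polynomial.eval_X, Polynomial.eval_C, hQ, S_poly_eval A (m + 1) y] at h2
      rw [← h2]
      ring
    have hterm : ∀ i ∈ range (m + 1 + 1), (-1 : ℝ) ^ i * ((m + 1).choose i : ℝ) *
        (ph z i * ph (A + i) (m + 1) / ph s (i + (m + 1))) =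
        z / ph s (m + 1) * ((-1) ^ i * ((m + 1).choose i : ℝ) * R.eval (i : ℝ)) +
          z / ph s (m + 1) * Q.eval (-z) * ((-1) ^ i * ((m + 1).choose i : ℝ) / (z + i)) := by
      intro i hi
      have hi' : i ≤ m + 1 := Nat.lt_succ_iff.1 (Finset.mem_range.1 hi)
      have h1 : ph s (i + (m + 1)) = ph s (m + 1) * ph (s + ((m + 1 : ℕ) : ℝ)) i := by
        rw [add_comm i, ph_add]
      have h2 : ph z i * (z + i) = z * ph (s + ((m + 1 : ℕ) : ℝ)) i := by
        rw [← ph_succ, ph_succ', hz']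
        congr 2
        push_cast
        ring
      have h3 : ph s (m + 1) ≠ 0 := hph _ (by omega)
      have h4 : ph (s + ((m + 1 : ℕ) : ℝ)) i ≠ 0 := by
        have := hph (i + (m + 1)) (by omega)
        rw [h1] at this
        exact right_ne_zero_of_mul this
      have h5 := hzi i hi'
      have h6 : ph z i = z * ph (s + ((m + 1 : ℕ) : ℝ)) i / (z + i) := by
        rw [← h2, mul_div_assoc, div_self h5, mul_one]
      rw [h1, h6, hQR]
      field_simp
    rw [Finset.sum_congr rfl hterm, Finset.sum_add_distrib, ← Finset.mul_sum, ← Finset.mul_sum,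
      fd_zero (m + 1) R hRd, fd_frac (m + 1) z hzi, mul_zero, zero_add]
    have h7 : Q.eval (-z) = (-1) ^ (m + 1) * ph (s - A) (m + 1) := by
      rw [hQ, S_poly_eval]
      have h8 : ph (s - A) (m + 1) = ph (-(A - s)) (m + 1) := by rw [neg_sub]
      rw [h8, ph_neg, ← mul_assoc, ← pow_add, ← two_mul, pow_mul]
      norm_num
      unfold ph pd
      rw [← Finset.prod_range_reflect]
      refine Finset.prod_congr rfl fun r hr => ?_
      have hr' : r ≤ m := Nat.lt_succ_iff.1 (Finset.mem_range.1 hr)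
      have h9 : (((m + 1 - 1 - r : ℕ)) : ℝ) = (m : ℝ) - r := by
        rw [Nat.add_sub_cancel, Nat.cast_sub hr']
      rw [h9, hz']
      ring
    have h10 : ph s (m + 1) * ph z (m + 1 + 1) = z * ph s (2 * (m + 1)) := by
      rw [ph_succ' z (m + 1), two_mul, ph_add s (m + 1) (m + 1)]
      have : z + 1 = s + ((m + 1 : ℕ) : ℝ) := by rw [hz']; push_cast; ring
      rw [this]
      ring
    have h11 : ph z (m + 1 + 1) ≠ 0 := by
      intro h0
      rw [h0, mul_zero] at h10
      exact mul_ne_zero hz0 hs h10.symm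
    have h12 : ph s (m + 1) ≠ 0 := hph _ (by omega)
    rw [h7, div_mul_eq_mul_div, div_mul_div_comm, h10, mul_assoc z, mul_div_mul_left _ _ hz0]
  · rw [if_neg hjm]
    have hjm' : j ≤ m := by omega
    obtain ⟨t, rfl⟩ := Nat.exists_eq_add_of_le hjm'
    have hterm : ∀ i ∈ range (j + t + 1 + 1), (-1 : ℝ) ^ i * ((j + t + 1).choose i : ℝ) *
        (ph z i * ph (A + i) j / ph s (i + j)) =
        1 / (ph s j * ph (s + j) t) *
          ((-1) ^ i * ((j + t + 1).choose i : ℝ) * (S_poly (s + j) t * S_poly A j).eval (i : ℝ)) := by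
      intro i hi
      have hi' : i ≤ j + t + 1 := Nat.lt_succ_iff.1 (Finset.mem_range.1 hi)
      have h1 : ph s (i + j) = ph s j * ph (s + j) i := by rw [add_comm i, ph_add]
      have h2 : ph (s + j) i * ph (s + j + i) t = ph (s + j) t * ph z i := by
        rw [← ph_add, add_comm i t, ph_add, hz']
        congr 2
        push_cast
        ring
      have h3 : ph s (j + t) ≠ 0 := hph _ (by omega)
      rw [ph_add] at h3
      have h4 : ph s (i + j) ≠ 0 := hph _ (by omega)
      rw [h1] at h4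
      have h5 := right_ne_zero_of_mul h4
      have h6 := right_ne_zero_of_mul h3
      have h7 := left_ne_zero_of_mul h3
      rw [Polynomial.eval_mul, S_poly_eval, S_poly_eval, h1]
      have h8 : ph z i / ph (s + j) i = ph (s + j + i) t / ph (s + j) t := by
        rw [div_eq_div_iff h5 h6, mul_comm (ph z i), ← h2]
        ring
      calc (-1 : ℝ) ^ i * ((j + t + 1).choose i : ℝ) * (ph z i * ph (A + i) j / (ph s j * ph (s + j) i))
          = (-1) ^ i * ((j + t + 1).choose i : ℝ) * (ph (A + i) j / ph s j * (ph z i / ph (s + j) i)) := by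
            field_simp
        _ = _ := by
            rw [h8]
            field_simp
    rw [Finset.sum_congr rfl hterm, ← Finset.mul_sum, fd_zero, mul_zero]
    refine lt_of_le_of_lt (Polynomial.natDegree_mul_le.trans
      (add_le_add (S_poly_deg _ _) (S_poly_deg _ _))) (by omega)

end QV
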