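import Pool.Agent.Lib.MP_216314_pr.QV.E
import Pool.Agent.Lib.MP_216314_pr.QV.S
import Pool.Agent.Lib.MP_216314_pr.QV.Bas

/-!
# The relation between two Hankel determinants

`u = -D/2`, `a = u/3`, `b = (u+1)/3`, `c = (u+2)/3`, `δ = d/2`, `σ = u+1+δ`, `A = a+b = (-D+1)/3`. `G i j = FF D d i j 0` (`i, j ≤ M`; `2 (i+j) ≤ 4M ≤ D`).
(1) `Dk D d (M+1) = det (G i j)_{i,j<M+1}`: `det_basis` with `w = x^d`, `g = x²`, `P i = ∏_{r<i} (X - C (u+3r)²)`, `Q j = ∏_{r<j} (X - C (u+1+3r)²)` (monic of degree `i`, `j`).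
(2) `Dk (D-2) d M = det (G (i+1) j)_{i,j<M}` (`M ≥ 1`, so `D ≥ 2`): `Lam (D-2) f = Lam D ((x² - (D/2)²) f)` (`Lam_shift`), `(x² - u²) * ∏_{r<i} (x² - (u+3+3r)²) = ∏_{r<i+1} (x² - (u+3r)²)`, `det_basis` for `D-2` with `P i = ∏_{r<i} (X - C (u+3+3r)²)`, `Q j` as above. For `M = 0` both are 1.
(3) `xv i = (-1)^i choose M i * ph (σ+M-1) i/((-9)^i ph A i * ph ((-D+2)/3) i * ph (a+δ) i)` (`ph A i ≠ 0` etc. for `i ≤ M` since `ph A M ≠ 0`, `ph_add`), `xv 0 = 1`. By `FF_val` (divide by `ph σ (i+j) ≠ 0`) and `ph A (i+j) = ph A i * ph (A+i) j`: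
`∑_i xv i * G i j = Lam D (x^d) (-9)^j ph ((-D+3)/3) j * ph (b+δ) j * S_j`, `S_j` the sum of `S_sum` (`s = σ`), `σ - A = c+δ`: it vanishes for `j < M` and equals `y` for `j = M`,
`y = Lam D (x^d) (-9)^M ph ((-D+3)/3) M * ph (b+δ) M * (-1)^M ph (c+δ) M * M!/ph σ (2M)`.
(4) replace the row `0` of `G` by `∑_i xv i * G i` (`Matrix.det_updateRow_add_smul_self`-like or `Matrix.det_updateRow_sum`; the determinant is multiplied by `xv 0 = 1`): this row is `(0, .., 0, y)`, expand along it (`Matrix.det_succ_row_zero` and only the last term): `det G = (-1)^M y * det (G (i+1) j)_{i,j<M}`. Multiply by `ph σ (2M)`.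
-/

set_option autoImplicit false

noncomputable section

namespace QV

open Finset

private theorem G_ph_ne {x : ℝ} {m n : ℕ} (h : ph x n ≠ 0) (hm : m ≤ n) : ph x m ≠ 0 := by
  obtain ⟨k, rfl⟩ := Nat.exists_eq_add_of_le hm
  rw [ph_add] at h
  exact left_ne_zero_of_mul h

private def G_pol (u : ℝ) (i : ℕ) : Polynomial ℝ :=
  ∏ r ∈ range i, (Polynomial.X - Polynomial.C ((u + 3 * r) ^ 2))

private theorem G_pol_monic (u : ℝ) (i : ℕ) : (G_pol u i).Monic :=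
  Polynomial.monic_prod_of_monic _ _ fun _ _ => Polynomial.monic_X_sub_C _

private theorem G_pol_deg (u : ℝ) (i : ℕ) : (G_pol u i).natDegree = i := by
  unfold G_pol
  rw [Polynomial.natDegree_prod_of_monic _ _ fun _ _ => Polynomial.monic_X_sub_C _,
    Finset.sum_congr rfl fun _ _ => Polynomial.natDegree_X_sub_C _, Finset.sum_const,
    Finset.card_range, smul_eq_mul, mul_one]

private theorem G_pol_coeff (u : ℝ) (i : ℕ) : (G_pol u i).coeff i = 1 := by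
  have h := (G_pol_monic u i).coeff_natDegree
  rw [G_pol_deg] at h
  exact h

private theorem G_pol_eval (u x : ℝ) (i : ℕ) :
    (G_pol u i).eval x = ∏ r ∈ range i, (x - (u + 3 * r) ^ 2) := by
  unfold G_pol
  rw [Polynomial.eval_prod]
  refine Finset.prod_congr rfl fun r _ => ?_
  rw [Polynomial.eval_sub, Polynomial.eval_X, Polynomial.eval_C]

private theorem G_det (D n d : ℕ) (u v : ℝ) :
    Dk D d n = (Matrix.of fun i j : Fin n => Lam D fun x => x ^ d *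
      ((∏ r ∈ range (i : ℕ), (x ^ 2 - (u + 3 * r) ^ 2)) *
        ∏ r ∈ range (j : ℕ), (x ^ 2 - (v + 3 * r) ^ 2))).det := by
  have h := det_basis D n (fun x => x ^ d) (fun x => x ^ 2) (G_pol u) (G_pol v)
    (fun i _ => (G_pol_deg u i).le) (fun i _ => (G_pol_deg v i).le)
  have h1 : ∏ i ∈ range n, ((G_pol u i).coeff i * (G_pol v i).coeff i) = 1 := by
    refine Finset.prod_eq_one fun i _ => ?_
    rw [G_pol_coeff, G_pol_coeff, mul_one]
  rw [h1, one_mul] at h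
  unfold Dk
  rw [← h]
  congr 1
  ext i j
  rw [Matrix.of_apply, Matrix.of_apply]
  congr 1
  funext x
  rw [G_pol_eval, G_pol_eval]

private theorem G_row {D d M : ℕ} (h : Ok D d) (hM : 4 * M ≤ D) (h1 : ph ((-(D : ℝ) + 1) / 3) M ≠ 0)
    (h2 : ph ((-(D : ℝ) + 2) / 3) M ≠ 0) (h3 : ph (-(D : ℝ) / 6 + (d : ℝ) / 2) M ≠ 0)
    (h4 : ph (-(D : ℝ) / 2 + 1 + (d : ℝ) / 2) (2 * M) ≠ 0) (i j : ℕ) (hi : i ≤ M) (hj : j ≤ M) :
    ((-1) ^ i * (M.choose i : ℝ) * ph (-(D : ℝ) / 2 + 1 + (d : ℝ) / 2 + M - 1) i /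
      ((-9) ^ i * ph ((-(D : ℝ) + 1) / 3) i * ph ((-(D : ℝ) + 2) / 3) i *
        ph (-(D : ℝ) / 6 + (d : ℝ) / 2) i)) * FF D d i j 0 =
    (Lam D (fun x => x ^ d) * (-9) ^ j * ph ((-(D : ℝ) + 3) / 3) j *
      ph (-(D : ℝ) / 6 + 1 / 3 + (d : ℝ) / 2) j) *
      ((-1) ^ i * (M.choose i : ℝ) * (ph (-(D : ℝ) / 2 + 1 + (d : ℝ) / 2 + M - 1) i *
        ph ((-(D : ℝ) + 1) / 3 + i) j / ph (-(D : ℝ) / 2 + 1 + (d : ℝ) / 2) (i + j))) := by
  have e := FF_val h i j 0 (by omega)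
  rw [add_zero, add_zero, add_zero, ph_zero, mul_one, ph_add ((-(D : ℝ) + 1) / 3), pow_add] at e
  have n1 := G_ph_ne h1 hi
  have n2 := G_ph_ne h2 hi
  have n3 := G_ph_ne h3 hi
  have n4 := G_ph_ne h4 (show i + j ≤ 2 * M by omega)
  have n5 : ((-9 : ℝ)) ^ i ≠ 0 := pow_ne_zero _ (by norm_num)
  rw [div_mul_eq_mul_div, div_eq_iff (mul_ne_zero (mul_ne_zero (mul_ne_zero n5 n1) n2) n3)]
  generalize ph (-(D : ℝ) / 2 + 1 + (d : ℝ) / 2 + M - 1) i = t0 at *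
  generalize ph ((-(D : ℝ) + 1) / 3) i = t1 at *
  generalize ph ((-(D : ℝ) + 2) / 3) i = t2 at *
  generalize ph (-(D : ℝ) / 6 + (d : ℝ) / 2) i = t3 at *
  generalize ph (-(D : ℝ) / 2 + 1 + (d : ℝ) / 2) (i + j) = t4 at *
  generalize ph ((-(D : ℝ) + 1) / 3 + i) j = t5 at *
  generalize ph ((-(D : ℝ) + 3) / 3) j = t6 at *
  generalize ph (-(D : ℝ) / 6 + 1 / 3 + (d : ℝ) / 2) j = t7 at *
  generalize (-9 : ℝ) ^ i = t8 at *
  generalize (-9 : ℝ) ^ j = t9 at *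
  generalize FF D d i j 0 = t10 at *
  generalize Lam D (fun x => x ^ d) = t11 at *
  generalize (-1 : ℝ) ^ i = t12 at *
  have e' : t10 = t11 * (t8 * t9 * (t1 * t5 * t2 * t6 * t3 * t7)) / t4 := by
    rw [eq_div_iff n4]
    exact e
  rw [e']
  ring

theorem Dk_rel {D d M : ℕ} (h : Ok D d) (hM : 4 * M ≤ D) (h1 : ph ((-(D : ℝ) + 1) / 3) M ≠ 0)
    (h2 : ph ((-(D : ℝ) + 2) / 3) M ≠ 0) (h3 : ph (-(D : ℝ) / 6 + (d : ℝ) / 2) M ≠ 0)
    (h4 : ph (-(D : ℝ) / 2 + 1 + (d : ℝ) / 2) (2 * M) ≠ 0) :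
    Dk D d (M + 1) * ph (-(D : ℝ) / 2 + 1 + (d : ℝ) / 2) (2 * M) =
      Lam D (fun x => x ^ d) * (-9) ^ M * (M.factorial : ℝ) * ph ((-(D : ℝ) + 3) / 3) M *
        ph (-(D : ℝ) / 6 + 1 / 3 + (d : ℝ) / 2) M * ph (-(D : ℝ) / 6 + 2 / 3 + (d : ℝ) / 2) M * Dk (D - 2) d M := by
  classical
  obtain ⟨xv, hxv⟩ : ∃ xv : ℕ → ℝ, xv = fun i => (-1) ^ i * (M.choose i : ℝ) *
      ph (-(D : ℝ) / 2 + 1 + (d : ℝ) / 2 + M - 1) i /
      ((-9) ^ i * ph ((-(D : ℝ) + 1) / 3) i * ph ((-(D : ℝ) + 2) / 3) i *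
        ph (-(D : ℝ) / 6 + (d : ℝ) / 2) i) := ⟨_, rfl⟩
  have hxv0 : xv 0 = 1 := by
    rw [hxv]
    show (-1 : ℝ) ^ 0 * (M.choose 0 : ℝ) *
      ph (-(D : ℝ) / 2 + 1 + (d : ℝ) / 2 + M - 1) 0 /
      ((-9) ^ 0 * ph ((-(D : ℝ) + 1) / 3) 0 * ph ((-(D : ℝ) + 2) / 3) 0 *
        ph (-(D : ℝ) / 6 + (d : ℝ) / 2) 0) = 1
    rw [ph_zero, ph_zero, ph_zero, ph_zero, Nat.choose_zero_right]
    norm_num
  have hrow : ∀ j, j ≤ M → ∑ i ∈ range (M + 1), xv i * FF D d i j 0 =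
      if j = M then Lam D (fun x => x ^ d) * (-9) ^ M * ph ((-(D : ℝ) + 3) / 3) M *
        ph (-(D : ℝ) / 6 + 1 / 3 + (d : ℝ) / 2) M *
        ((-1) ^ M * ph (-(D : ℝ) / 6 + 2 / 3 + (d : ℝ) / 2) M * (M.factorial : ℝ) /
          ph (-(D : ℝ) / 2 + 1 + (d : ℝ) / 2) (2 * M)) else 0 := by
    intro j hj
    have hs := S_sum M j ((-(D : ℝ) + 1) / 3) (-(D : ℝ) / 2 + 1 + (d : ℝ) / 2) hj h4
    have e1 : ∀ i ∈ range (M + 1), xv i * FF D d i j 0 =
        (Lam D (fun x => x ^ d) * (-9) ^ j * ph ((-(D : ℝ) + 3) / 3) j *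
          ph (-(D : ℝ) / 6 + 1 / 3 + (d : ℝ) / 2) j) *
          ((-1) ^ i * (M.choose i : ℝ) * (ph (-(D : ℝ) / 2 + 1 + (d : ℝ) / 2 + M - 1) i *
            ph ((-(D : ℝ) + 1) / 3 + i) j / ph (-(D : ℝ) / 2 + 1 + (d : ℝ) / 2) (i + j))) := by
      intro i hi
      rw [hxv]
      exact G_row h hM h1 h2 h3 h4 i j (Nat.lt_succ_iff.1 (Finset.mem_range.1 hi)) hj
    rw [Finset.sum_congr rfl e1, ← Finset.mul_sum, hs]
    by_cases hjM : j = M
    · rw [if_pos hjM, if_pos hjM, hjM]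
      have e2 : -(D : ℝ) / 2 + 1 + (d : ℝ) / 2 - (-(D : ℝ) + 1) / 3 =
          -(D : ℝ) / 6 + 2 / 3 + (d : ℝ) / 2 := by ring
      rw [e2]
    · rw [if_neg hjM, if_neg hjM, mul_zero]
  have hG : Dk D d (M + 1) = (Matrix.of fun i j : Fin (M + 1) => FF D d i j 0).det := by
    rw [G_det D (M + 1) d (-(D : ℝ) / 2) (-(D : ℝ) / 2 + 1)]
    congr 1
    ext i j
    rw [Matrix.of_apply, Matrix.of_apply]
    unfold FF
    congr 1
    funext x
    rw [Finset.prod_range_zero, mul_one]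
  have hG' : (Matrix.of fun i j : Fin M => FF D d ((i : ℕ) + 1) j 0).det = Dk (D - 2) d M := by
    rcases Nat.eq_zero_or_pos M with h0 | h0
    · subst h0
      unfold Dk
      rw [Matrix.det_fin_zero, Matrix.det_fin_zero]
    · obtain ⟨D', rfl⟩ : ∃ D', D = D' + 2 := ⟨D - 2, by omega⟩
      rw [Nat.add_sub_cancel, G_det D' M d (-((D' : ℝ) + 2) / 2 + 3) (-((D' : ℝ) + 2) / 2 + 1)]
      congr 1
      ext i j
      rw [Matrix.of_apply, Matrix.of_apply, ← Lam_shift]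
      unfold FF
      congr 1
      funext x
      rw [Finset.prod_range_zero, mul_one, Finset.prod_range_succ']
      push_cast
      have e1 : ∀ r ∈ range (i : ℕ), (x ^ 2 - (-((D' : ℝ) + 2) / 2 + 3 * ((r : ℝ) + 1)) ^ 2) =
          (x ^ 2 - (-((D' : ℝ) + 2) / 2 + 3 + 3 * (r : ℝ)) ^ 2) := by
        intro r _
        ring
      rw [Finset.prod_congr rfl e1]
      ring
  have hu := Matrix.det_updateRow_sum (Matrix.of fun i j : Fin (M + 1) => FF D d i j 0) 0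
    (fun k => xv k)
  have hx0 : xv ((0 : Fin (M + 1)) : ℕ) = 1 := by
    rw [Fin.val_zero, hxv0]
  rw [hx0, one_smul] at hu
  rw [hG, ← hu, Matrix.det_succ_row_zero, Finset.sum_eq_single (Fin.last M)]
  · rw [Matrix.updateRow_self, Finset.sum_apply]
    have e1 : ∑ c : Fin (M + 1), (xv c • (Matrix.of fun i j : Fin (M + 1) => FF D d i j 0) c)
        (Fin.last M) = ∑ i ∈ range (M + 1), xv i * FF D d i M 0 := by
      rw [← Fin.sum_univ_eq_sum_range (fun i => xv i * FF D d i M 0)]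
      refine Finset.sum_congr rfl fun c _ => ?_
      rfl
    have e2 : (((Matrix.of fun i j : Fin (M + 1) => FF D d i j 0).updateRow 0
        (∑ k : Fin (M + 1), xv k • (Matrix.of fun i j : Fin (M + 1) => FF D d i j 0) k)).submatrix
          Fin.succ (Fin.last M).succAbove) =
        (Matrix.of fun i j : Fin M => FF D d ((i : ℕ) + 1) j 0) := by
      ext i j
      rw [Matrix.submatrix_apply, Matrix.updateRow_ne (Fin.succ_ne_zero i), Fin.succAbove_last,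
        Matrix.of_apply, Matrix.of_apply, Fin.val_succ, Fin.val_castSucc]
    rw [e1, e2, hG', hrow M le_rfl, if_pos rfl, Fin.val_last]
    have e3 : ((-1 : ℝ) ^ M) * (-1) ^ M = 1 := by
      rw [← mul_pow]
      norm_num
    generalize ph (-(D : ℝ) / 2 + 1 + (d : ℝ) / 2) (2 * M) = t1 at *
    generalize ph ((-(D : ℝ) + 3) / 3) M = t2 at *
    generalize ph (-(D : ℝ) / 6 + 1 / 3 + (d : ℝ) / 2) M = t3 at *
    generalize ph (-(D : ℝ) / 6 + 2 / 3 + (d : ℝ) / 2) M = t4 at *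
    generalize Lam D (fun x => x ^ d) = t5 at *
    generalize Dk (D - 2) d M = t6 at *
    generalize (-9 : ℝ) ^ M = t7 at *
    generalize (M.factorial : ℝ) = t8 at *
    generalize (-1 : ℝ) ^ M = t9 at *
    have e4 : t9 * (t5 * t7 * t2 * t3 * (t9 * t4 * t8 / t1)) * t6 * t1 =
        (t9 * t9) * (t5 * t7 * t8 * t2 * t3 * t4 * t6) * (t1 / t1) := by ring
    rw [e4, e3, div_self h4]
    ring
  · intro j _ hj
    have hjM : (j : ℕ) ≠ M := fun h5 => hj (Fin.ext (by rw [h5, Fin.val_last]))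
    rw [Matrix.updateRow_self, Finset.sum_apply]
    have e1 : ∑ c : Fin (M + 1), (xv c • (Matrix.of fun i j : Fin (M + 1) => FF D d i j 0) c)
        j = ∑ i ∈ range (M + 1), xv i * FF D d i j 0 := by
      rw [← Fin.sum_univ_eq_sum_range (fun i => xv i * FF D d i j 0)]
      refine Finset.sum_congr rfl fun c _ => ?_
      rfl
    rw [e1, hrow j (Nat.lt_succ_iff.1 j.2), if_neg hjM, mul_zero, zero_mul]
  · intro h5
    exact absurd (Finset.mem_univ _) h5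

end QV
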