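import Pool.Agent.Lib.MP_216314_pr.QV.G

/-!
# The quotient of the values for `2(l+2)` and `2l` legs (the same circumference)

`rA`, `rB0`, `rB2`: `|Dk (D-2) d M / Dk D d (M+1)|` for `(D, d, M) = (6n+2l+5, 1, n)`, `(6n+2l+8, 0, n+1)`, `(6n+2l+8, 2, n)`.
`rA_eq`: `Dk_rel`, absolute values: `|ph σ (2M)| = pd (3n+l+1) (2n)` etc. by `abs_ph_neg` (each argument `-y` with `M < y + 1` resp. `2M < y+1`): `σ = -(3n+l+1)`, `(-D+3)/3 = -(2n+(2l+2)/3)`, `-D/6+1/3+1/2 = -(n+l/3)`, `-D/6+2/3+1/2 = -(n+(l-1)/3)`;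
the hypotheses `h1 .. h4` of `Dk_rel` by `ph_neg` and `pd_pos` (`(-D+1)/3 = -(2n+(2l+4)/3)`, `(-D+2)/3 = -(2n+(2l+3)/3)`, `-D/6+1/2 = -(n+(l+1)/3)`). `|Lam D x| = 3^(3n+l+1)/(6n+2l+4)!` by `ms1` (`k = 3n+l+1`). Solve for `|Dk (D-2) 1 n|`.
`rB0_eq`: `D = 6n+2l+8`, `d = 0`, `M = n+1`: `σ = -(3n+l+3)`, `(-D+3)/3 = -(2n+(2l+5)/3)`, `-D/6+1/3 = -(n+1+l/3)`, `-D/6+2/3 = -(n+(l+2)/3)`, `|Lam D 1| = 2·3^(3n+l+3)/(6n+2l+8)!` (`ms0`, `k = 3n+l+3`; `x^0 = 1`).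
`rB2_eq`: `d = 2`, `M = n`: `σ = -(3n+l+2)`, `(-D+3)/3 = -(2n+(2l+5)/3)`, `-D/6+1/3+1 = -(n+l/3)`, `-D/6+2/3+1 = -(n+(l-1)/3)`, `|Lam D x²| = (D (D-4)/12) |Lam D 1|` (`ms2`, `k = 3n+l+2`).
-/

set_option autoImplicit false

noncomputable section

namespace QV

open Finset

def rA (l n : ℕ) : ℝ := pd (3 * n + l + 1) (2 * n) /
  (3 ^ (3 * n + l + 1) / ((6 * n + 2 * l + 4).factorial : ℝ) * 9 ^ n * (n.factorial : ℝ) * pd (2 * n + (2 * l + 2) / 3) n *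
    pd (n + l / 3) n * pd (n + (l - 1) / 3) n)

def rB0 (l n : ℕ) : ℝ := pd (3 * n + l + 3) (2 * n + 2) /
  (2 * 3 ^ (3 * n + l + 3) / ((6 * n + 2 * l + 8).factorial : ℝ) * 9 ^ (n + 1) * ((n + 1).factorial : ℝ) *
    pd (2 * n + (2 * l + 5) / 3) (n + 1) * pd (n + 1 + l / 3) (n + 1) * pd (n + (l + 2) / 3) (n + 1))

def rB2 (l n : ℕ) : ℝ := pd (3 * n + l + 2) (2 * n) /
  ((6 * n + 2 * l + 8) * (6 * n + 2 * l + 4) / 12 * (2 * 3 ^ (3 * n + l + 3) / ((6 * n + 2 * l + 8).factorial : ℝ)) * 9 ^ n *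
    (n.factorial : ℝ) * pd (2 * n + (2 * l + 5) / 3) n * pd (n + l / 3) n * pd (n + (l - 1) / 3) n)

def RA (l n : ℕ) : ℝ := ((2 * n + 1).factorial : ℝ) * ((2 * n).factorial : ℝ) * 3 ^ (4 * n + 1) /
  (((6 * n + 2 * l + 5).factorial : ℝ) * ((6 * n + 2 * l + 4).factorial : ℝ)) * rA l n ^ 2

def RB (l n : ℕ) : ℝ := ((2 * n + 2).factorial : ℝ) * ((2 * n + 1).factorial : ℝ) * 3 ^ (4 * n + 3) /
  (((6 * n + 2 * l + 8).factorial : ℝ) * ((6 * n + 2 * l + 7).factorial : ℝ)) * (rB0 l n * rB2 l n)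

private theorem H1_ph {x y : ℝ} {k : ℕ} (e : x = -y) (h : (k : ℝ) < y + 1) :
    |ph x k| = pd y k := by
  rw [e, abs_ph_neg h]

private theorem H1_ne {x y : ℝ} {k : ℕ} (e : x = -y) (h : (k : ℝ) < y + 1) : ph x k ≠ 0 := by
  intro h0
  have h1 := H1_ph e h
  rw [h0, abs_zero] at h1
  exact (pd_pos h).ne h1

private theorem H1_gen {D d M : ℕ} (h : Ok D d) (hM : 4 * M ≤ D)
    (y1 y2 y3 ys ya yb yc L : ℝ)
    (e1 : (-(D : ℝ) + 1) / 3 = -y1) (b1 : (M : ℝ) < y1 + 1)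
    (e2 : (-(D : ℝ) + 2) / 3 = -y2) (b2 : (M : ℝ) < y2 + 1)
    (e3 : -(D : ℝ) / 6 + (d : ℝ) / 2 = -y3) (b3 : (M : ℝ) < y3 + 1)
    (es : -(D : ℝ) / 2 + 1 + (d : ℝ) / 2 = -ys) (bs : ((2 * M : ℕ) : ℝ) < ys + 1)
    (ea : (-(D : ℝ) + 3) / 3 = -ya) (ba : (M : ℝ) < ya + 1)
    (eb : -(D : ℝ) / 6 + 1 / 3 + (d : ℝ) / 2 = -yb) (bb : (M : ℝ) < yb + 1)
    (ec : -(D : ℝ) / 6 + 2 / 3 + (d : ℝ) / 2 = -yc) (bc : (M : ℝ) < yc + 1)
    (hL : |Lam D (fun x => x ^ d)| = L) (hL0 : 0 < L) :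
    |Dk (D - 2) d M| = pd ys (2 * M) /
      (L * 9 ^ M * (M.factorial : ℝ) * pd ya M * pd yb M * pd yc M) * |Dk D d (M + 1)| := by
  have h0 := Dk_rel h hM (H1_ne e1 b1) (H1_ne e2 b2) (H1_ne e3 b3) (H1_ne es bs)
  have h5 := congrArg abs h0
  rw [abs_mul, abs_mul, abs_mul, abs_mul, abs_mul, abs_mul, abs_mul, H1_ph es bs, H1_ph ea ba,
    H1_ph eb bb, H1_ph ec bc, hL, abs_pow, abs_neg] at h5
  have h9 : |(9 : ℝ)| = 9 := abs_of_pos (by norm_num)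
  have hf : |(M.factorial : ℝ)| = (M.factorial : ℝ) := abs_of_nonneg (Nat.cast_nonneg _)
  rw [h9, hf] at h5
  have pa := pd_pos ba
  have pb := pd_pos bb
  have pc := pd_pos bc
  have pf : (0 : ℝ) < (M.factorial : ℝ) := by exact_mod_cast M.factorial_pos
  have hpos : 0 < L * 9 ^ M * (M.factorial : ℝ) * pd ya M * pd yb M * pd yc M := by positivity
  rw [div_mul_eq_mul_div, eq_div_iff hpos.ne']
  linarith

theorem rA_eq (l n : ℕ) (hl : 0 < l) : |Dk (6 * n + 2 * l + 3) 1 n| = rA l n * |Dk (6 * n + 2 * l + 5) 1 (n + 1)| := by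
  have hl' : (1 : ℝ) ≤ (l : ℝ) := by exact_mod_cast hl
  have hn' : (0 : ℝ) ≤ (n : ℝ) := Nat.cast_nonneg _
  have hL : |Lam (6 * n + 2 * l + 5) (fun x => x ^ 1)| =
      3 ^ (3 * n + l + 1) / ((6 * n + 2 * l + 4).factorial : ℝ) := by
    have h1 := ms1 (3 * n + l + 1)
    have e1 : 2 * (3 * n + l + 1) + 3 = 6 * n + 2 * l + 5 := by ring
    have e2 : 2 * (3 * n + l + 1) + 2 = 6 * n + 2 * l + 4 := by ring
    rw [e1, e2] at h1
    simp only [pow_one]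
    rw [h1, abs_neg, abs_div, abs_pow, abs_neg, abs_of_pos (by norm_num : (0 : ℝ) < 3),
      abs_of_nonneg (Nat.cast_nonneg _)]
  have hOk : Ok (6 * n + 2 * l + 5) 1 := Or.inr (Or.inl ⟨rfl, ⟨3 * n + l + 2, by ring⟩⟩)
  have h := H1_gen (D := 6 * n + 2 * l + 5) (d := 1) (M := n) hOk (by omega)
    (2 * n + (2 * l + 4) / 3) (2 * n + (2 * l + 3) / 3) (n + (l + 1) / 3)
    (3 * n + l + 1) (2 * n + (2 * l + 2) / 3) (n + l / 3) (n + (l - 1) / 3) _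
    (by push_cast; ring) (by linarith) (by push_cast; ring) (by linarith)
    (by push_cast; ring) (by linarith) (by push_cast; ring) (by push_cast; linarith)
    (by push_cast; ring) (by linarith) (by push_cast; ring) (by linarith)
    (by push_cast; ring) (by linarith) hL (by positivity)
  exact h

theorem rB0_eq (l n : ℕ) (hl : 0 < l) :
    |Dk (6 * n + 2 * l + 6) 0 (n + 1)| = rB0 l n * |Dk (6 * n + 2 * l + 8) 0 (n + 2)| := by
  have hl' : (1 : ℝ) ≤ (l : ℝ) := by exact_mod_cast hl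
  have hn' : (0 : ℝ) ≤ (n : ℝ) := Nat.cast_nonneg _
  have hLam : |Lam (6 * n + 2 * l + 8) (fun _ => 1)| =
      2 * 3 ^ (3 * n + l + 3) / ((6 * n + 2 * l + 8).factorial : ℝ) := by
    have h1 := ms0 (3 * n + l + 3)
    have e1 : 2 * (3 * n + l + 3) + 2 = 6 * n + 2 * l + 8 := by ring
    rw [e1] at h1
    rw [h1, abs_div, abs_mul, abs_mul, abs_pow, abs_pow, abs_neg, abs_one, one_pow,
      abs_of_pos (by norm_num : (0 : ℝ) < 3), abs_of_pos (by norm_num : (0 : ℝ) < 2),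
      abs_of_nonneg (Nat.cast_nonneg _)]
    ring
  have hL : |Lam (6 * n + 2 * l + 8) (fun x => x ^ 0)| =
      2 * 3 ^ (3 * n + l + 3) / ((6 * n + 2 * l + 8).factorial : ℝ) := by
    simp only [pow_zero]
    exact hLam
  have hOk : Ok (6 * n + 2 * l + 8) 0 := Or.inl ⟨rfl, ⟨3 * n + l + 4, by ring⟩⟩
  have h := H1_gen (D := 6 * n + 2 * l + 8) (d := 0) (M := n + 1) hOk (by omega)
    (2 * n + (2 * l + 7) / 3) (2 * n + (2 * l + 6) / 3) (n + (l + 4) / 3)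
    (3 * n + l + 3) (2 * n + (2 * l + 5) / 3) (n + 1 + l / 3) (n + (l + 2) / 3) _
    (by push_cast; ring) (by push_cast; linarith) (by push_cast; ring) (by push_cast; linarith)
    (by push_cast; ring) (by push_cast; linarith) (by push_cast; ring) (by push_cast; linarith)
    (by push_cast; ring) (by push_cast; linarith) (by push_cast; ring) (by push_cast; linarith)
    (by push_cast; ring) (by push_cast; linarith) hL (by positivity)
  exact h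

theorem rB2_eq (l n : ℕ) (hl : 0 < l) :
    |Dk (6 * n + 2 * l + 6) 2 n| = rB2 l n * |Dk (6 * n + 2 * l + 8) 2 (n + 1)| := by
  have hl' : (1 : ℝ) ≤ (l : ℝ) := by exact_mod_cast hl
  have hn' : (0 : ℝ) ≤ (n : ℝ) := Nat.cast_nonneg _
  have hLam : |Lam (6 * n + 2 * l + 8) (fun _ => 1)| =
      2 * 3 ^ (3 * n + l + 3) / ((6 * n + 2 * l + 8).factorial : ℝ) := by
    have h1 := ms0 (3 * n + l + 3)
    have e1 : 2 * (3 * n + l + 3) + 2 = 6 * n + 2 * l + 8 := by ring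
    rw [e1] at h1
    rw [h1, abs_div, abs_mul, abs_mul, abs_pow, abs_pow, abs_neg, abs_one, one_pow,
      abs_of_pos (by norm_num : (0 : ℝ) < 3), abs_of_pos (by norm_num : (0 : ℝ) < 2),
      abs_of_nonneg (Nat.cast_nonneg _)]
    ring
  have hL : |Lam (6 * n + 2 * l + 8) (fun x => x ^ 2)| =
      (6 * n + 2 * l + 8) * (6 * n + 2 * l + 4) / 12 *
        (2 * 3 ^ (3 * n + l + 3) / ((6 * n + 2 * l + 8).factorial : ℝ)) := by
    have h1 := ms2 (3 * n + l + 2)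
    have e1 : 2 * (3 * n + l + 2) + 4 = 6 * n + 2 * l + 8 := by ring
    rw [e1] at h1
    have h2 : (0 : ℝ) ≤ (2 * ((3 * n + l + 2 : ℕ) : ℝ) + 4) * (2 * ((3 * n + l + 2 : ℕ) : ℝ)) / 12 := by
      positivity
    rw [h1, abs_mul, abs_neg, abs_of_nonneg h2, hLam]
    push_cast
    ring
  have hOk : Ok (6 * n + 2 * l + 8) 2 := Or.inr (Or.inr ⟨rfl, ⟨3 * n + l + 4, by ring⟩⟩)
  have h := H1_gen (D := 6 * n + 2 * l + 8) (d := 2) (M := n) hOk (by omega)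
    (2 * n + (2 * l + 7) / 3) (2 * n + (2 * l + 6) / 3) (n + (l + 1) / 3)
    (3 * n + l + 2) (2 * n + (2 * l + 5) / 3) (n + l / 3) (n + (l - 1) / 3) _
    (by push_cast; ring) (by linarith) (by push_cast; ring) (by linarith)
    (by push_cast; ring) (by linarith) (by push_cast; ring) (by push_cast; linarith)
    (by push_cast; ring) (by linarith) (by push_cast; ring) (by linarith)
    (by push_cast; ring) (by linarith) hL (by positivity)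
  exact h

end QV
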