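import Pool.Agent.Lib.MP_216314_pr.QV.A
import Pool.Agent.Lib.MP_216314_pr.QV.B
import Pool.Agent.Lib.MP_216314_pr.QV.C
import Pool.Agent.Lib.MP_216314_pr.QV.H1

/-!
# The quotient of the values for `2(l+2)` and `2l` legs (the same circumference)

`ratio_even`: `m = 2n+2` and `m' = 2n`, `l' = l+2`: the same `L = m + l = m' + l'`; `D = 3m+2l-1 = 6n+2l+5`, `3m'+2l'-1 = D-2`. `PhF_compl`, `AA_det`, `Hk_even` (`D = 2(3n+l+2)+1`) for both; the products over `i < 2n+2` and `i < 2n` differ by the factors `i = 2n, 2n+1`: `(2(m+l)+2n)! = (6n+2l+4)!`,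
`(6n+2l+5)!`. `|s| = 1` from `s² = 1`. Norms in `ℂ` of real numbers: `Complex.norm_real`.
`ratio_odd`: `m = 2n+3`, `m' = 2n+1`, `D = 6n+2l+8 = 2(3n+l+4)`, `Hk_odd`.
-/

set_option autoImplicit false

noncomputable section

namespace QV

open Finset

theorem H_abs {s : ℝ} (h : s ^ 2 = 1) : |s| = 1 := by
  have h1 : |s| ^ 2 = 1 := by
    rw [sq_abs, h]
  exact (pow_eq_one_iff_of_nonneg (abs_nonneg s) two_ne_zero).1 h1

theorem H_val (l m : ℕ) (hl : 0 < l) :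
    ‖Q4.PhF (2 * m + 2 * l) (QL.GG l m fun _ => 1) (fun _ => 1)‖ =
      (∏ i ∈ range m, (((2 * (m + l) + i).factorial : ℝ) / ((i.factorial : ℝ) * 3 ^ i))) * |Hk (3 * m + 2 * l - 1) m| := by
  obtain ⟨s, hs, h1⟩ := PhF_compl l m hl
  obtain ⟨s', hs', h2⟩ := AA_det l m hl
  have hp : 0 ≤ ∏ i ∈ range m, (((2 * (m + l) + i).factorial : ℝ) / ((i.factorial : ℝ) * 3 ^ i)) :=
    prod_nonneg fun i _ => by positivity
  rw [h1, h2, Complex.norm_real, Real.norm_eq_abs, abs_mul, abs_mul, abs_mul, H_abs hs, H_abs hs', one_mul, one_mul,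
    abs_of_nonneg hp]

theorem ratio_even (l n : ℕ) (hl : 0 < l) :
    ‖Q4.PhF (2 * (2 * n) + 2 * (l + 2)) (QL.GG (l + 2) (2 * n) fun _ => 1) (fun _ => 1)‖ =
      RA l n * ‖Q4.PhF (2 * (2 * n + 2) + 2 * l) (QL.GG l (2 * n + 2) fun _ => 1) (fun _ => 1)‖ := by
  rw [H_val (l + 2) (2 * n) (by omega), H_val l (2 * n + 2) hl]
  have e1 : 3 * (2 * n) + 2 * (l + 2) - 1 = 2 * (3 * n + l + 1) + 1 := by omega
  have e2 : 3 * (2 * n + 2) + 2 * l - 1 = 2 * (3 * n + l + 2) + 1 := by omega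
  have e3 : 2 * (2 * n + (l + 2)) = 2 * (2 * n + 2 + l) := by omega
  have e4 : 2 * (2 * n + 2 + l) + 2 * n = 6 * n + 2 * l + 4 := by omega
  have e5 : 2 * (2 * n + 2 + l) + (2 * n + 1) = 6 * n + 2 * l + 5 := by omega
  obtain ⟨s1, hs1, h1⟩ := Hk_even (3 * n + l + 1) n
  obtain ⟨s2, hs2, h2⟩ := Hk_even (3 * n + l + 2) (n + 1)
  have e6 : 2 * (n + 1) = 2 * n + 2 := by omega
  rw [e6] at h2
  have h3 := rA_eq l n hl
  have e7 : 6 * n + 2 * l + 3 = 2 * (3 * n + l + 1) + 1 := by omega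
  have e8 : 6 * n + 2 * l + 5 = 2 * (3 * n + l + 2) + 1 := by omega
  rw [e7, e8] at h3
  rw [e1, e2, h1, h2, abs_mul, abs_mul, H_abs hs1, H_abs hs2, one_mul, one_mul, abs_pow, abs_pow, h3, e3,
    prod_range_succ, prod_range_succ, e4, e5]
  unfold RA
  have f1 : ((6 * n + 2 * l + 4).factorial : ℝ) ≠ 0 := Nat.cast_ne_zero.2 (Nat.factorial_ne_zero _)
  have f2 : ((6 * n + 2 * l + 5).factorial : ℝ) ≠ 0 := Nat.cast_ne_zero.2 (Nat.factorial_ne_zero _)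
  have f3 : ((2 * n).factorial : ℝ) ≠ 0 := Nat.cast_ne_zero.2 (Nat.factorial_ne_zero _)
  have f4 : ((2 * n + 1).factorial : ℝ) ≠ 0 := Nat.cast_ne_zero.2 (Nat.factorial_ne_zero _)
  generalize rA l n = r
  generalize |Dk (2 * (3 * n + l + 2) + 1) 1 (n + 1)| = t
  generalize (∏ i ∈ range (2 * n), (((2 * (2 * n + 2 + l) + i).factorial : ℝ) / ((i.factorial : ℝ) * 3 ^ i))) = p
  generalize ((6 * n + 2 * l + 4).factorial : ℝ) = g1 at f1 ⊢
  generalize ((6 * n + 2 * l + 5).factorial : ℝ) = g2 at f2 ⊢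
  generalize ((2 * n).factorial : ℝ) = g3 at f3 ⊢
  generalize ((2 * n + 1).factorial : ℝ) = g4 at f4 ⊢
  have e9 : (3 : ℝ) ^ (4 * n + 1) = 3 ^ (2 * n) * 3 ^ (2 * n + 1) := by
    rw [← pow_add]
    congr 1
    omega
  rw [e9]
  have f5 : (3 : ℝ) ^ (2 * n) ≠ 0 := pow_ne_zero _ (by norm_num)
  have f6 : (3 : ℝ) ^ (2 * n + 1) ≠ 0 := pow_ne_zero _ (by norm_num)
  generalize (3 : ℝ) ^ (2 * n) = g5 at f5 ⊢
  generalize (3 : ℝ) ^ (2 * n + 1) = g6 at f6 ⊢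
  field_simp

theorem ratio_odd (l n : ℕ) (hl : 0 < l) :
    ‖Q4.PhF (2 * (2 * n + 1) + 2 * (l + 2)) (QL.GG (l + 2) (2 * n + 1) fun _ => 1) (fun _ => 1)‖ =
      RB l n * ‖Q4.PhF (2 * (2 * n + 3) + 2 * l) (QL.GG l (2 * n + 3) fun _ => 1) (fun _ => 1)‖ := by
  rw [H_val (l + 2) (2 * n + 1) (by omega), H_val l (2 * n + 3) hl]
  have e1 : 3 * (2 * n + 1) + 2 * (l + 2) - 1 = 2 * (3 * n + l + 3) := by omega
  have e2 : 3 * (2 * n + 3) + 2 * l - 1 = 2 * (3 * n + l + 4) := by omega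
  have e3 : 2 * (2 * n + 1 + (l + 2)) = 2 * (2 * n + 3 + l) := by omega
  have e4 : 2 * (2 * n + 3 + l) + (2 * n + 1) = 6 * n + 2 * l + 7 := by omega
  have e5 : 2 * (2 * n + 3 + l) + (2 * n + 2) = 6 * n + 2 * l + 8 := by omega
  have h1 := Hk_odd (3 * n + l + 3) n
  have h2 := Hk_odd (3 * n + l + 4) (n + 1)
  have e6 : 2 * (n + 1) + 1 = 2 * n + 3 := by omega
  have e6' : n + 1 + 1 = n + 2 := rfl
  rw [e6, e6'] at h2
  have h3 := rB0_eq l n hl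
  have h4 := rB2_eq l n hl
  have e7 : 6 * n + 2 * l + 6 = 2 * (3 * n + l + 3) := by omega
  have e8 : 6 * n + 2 * l + 8 = 2 * (3 * n + l + 4) := by omega
  rw [e7, e8] at h3 h4
  rw [e1, e2, h1, h2, abs_mul, abs_mul, h3, h4, e3,
    prod_range_succ (f := fun i => (((2 * (2 * n + 3 + l) + i).factorial : ℝ) / ((i.factorial : ℝ) * 3 ^ i))) (2 * n + 2),
    prod_range_succ (f := fun i => (((2 * (2 * n + 3 + l) + i).factorial : ℝ) / ((i.factorial : ℝ) * 3 ^ i))) (2 * n + 1),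
    e4, e5]
  unfold RB
  have f1 : ((6 * n + 2 * l + 7).factorial : ℝ) ≠ 0 := Nat.cast_ne_zero.2 (Nat.factorial_ne_zero _)
  have f2 : ((6 * n + 2 * l + 8).factorial : ℝ) ≠ 0 := Nat.cast_ne_zero.2 (Nat.factorial_ne_zero _)
  have f3 : ((2 * n + 1).factorial : ℝ) ≠ 0 := Nat.cast_ne_zero.2 (Nat.factorial_ne_zero _)
  have f4 : ((2 * n + 2).factorial : ℝ) ≠ 0 := Nat.cast_ne_zero.2 (Nat.factorial_ne_zero _)
  generalize rB0 l n = r0
  generalize rB2 l n = r2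
  generalize |Dk (2 * (3 * n + l + 4)) 0 (n + 2)| = t0
  generalize |Dk (2 * (3 * n + l + 4)) 2 (n + 1)| = t2
  generalize (∏ i ∈ range (2 * n + 1), (((2 * (2 * n + 3 + l) + i).factorial : ℝ) / ((i.factorial : ℝ) * 3 ^ i))) = p
  generalize ((6 * n + 2 * l + 7).factorial : ℝ) = g1 at f1 ⊢
  generalize ((6 * n + 2 * l + 8).factorial : ℝ) = g2 at f2 ⊢
  generalize ((2 * n + 1).factorial : ℝ) = g3 at f3 ⊢
  generalize ((2 * n + 2).factorial : ℝ) = g4 at f4 ⊢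
  have e9 : (3 : ℝ) ^ (4 * n + 3) = 3 ^ (2 * n + 1) * 3 ^ (2 * n + 2) := by
    rw [← pow_add]
    congr 1
    omega
  rw [e9]
  have f5 : (3 : ℝ) ^ (2 * n + 1) ≠ 0 := pow_ne_zero _ (by norm_num)
  have f6 : (3 : ℝ) ^ (2 * n + 2) ≠ 0 := pow_ne_zero _ (by norm_num)
  generalize (3 : ℝ) ^ (2 * n + 1) = g5 at f5 ⊢
  generalize (3 : ℝ) ^ (2 * n + 2) = g6 at f6 ⊢
  field_simp

end QV
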