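import Pool.Agent.Lib.MP_216314_pr.QV.I1

/-!
# Sequences of the same order: products

`sim_prod`: `Real.GammaSeq_tendsto_Gamma α`: `GammaSeq α n = n^α n!/∏_{j≤n} (α+j) → Γ(α) > 0`, so for `n ≥ 1` it is bounded between two positive constants (a convergent sequence of positive numbers with positive limit);
`∏_{k<n} (k+α) = ∏_{j ≤ n} (α+j)/(α+n)`, `(α+n) ~ n+1`, `n^α ~ (n+1)^α` (`n ≥ 1`; `(n+1)^α ≤ 2^α n^α`), `n = 0` separately (the value is 1 on both sides).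
`pd (n+θ) n = ∏_{k<n} (k+1+θ)` (reverse the order, `Finset.prod_range_reflect`), `θ > -1`: `sim_pd1` from `sim_prod` with `α = 1+θ`.
`pd (2n+θ) (2n) = pd (2n+θ) n * pd (n+θ) n` (`Finset.prod_range_add`), `sim_pd1` at `2n` (`Sim.comp`, `2n+1 ~ n+1`): `sim_pd2`.
`sim_pd3`: `pd (3n+a) (2n) * (n+a)! = (3n+a)!` (`a` a natural number), `(3n+a)! ~ (n+1)^a (3n)!`, `(n+a)! ~ (n+1)^a n!` (induction on `a`, `Nat.factorial_succ`, `sim_lin`).
`sim_fac`: `(3n)! = 27^n n! ∏_{k<n} (k+1/3) ∏_{k<n} (k+2/3)` (induction on `n`), `sim_prod` for `α = 1/3, 2/3`.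
-/

set_option autoImplicit false

noncomputable section

namespace QV

open Finset

theorem I_lim {u v : ℕ → ℝ} (hu : ∀ n, 0 < u n) (hv : ∀ n, 0 < v n) {L : ℝ} (hL : 0 < L)
    (h : Filter.Tendsto (fun n => u n / v n) Filter.atTop (nhds L)) : Sim u v := by
  obtain ⟨C, hC⟩ := h.bddAbove_range
  obtain ⟨D, hD⟩ := (h.inv₀ hL.ne').bddAbove_range
  have hC' : ∀ n, u n / v n ≤ C := fun n => hC ⟨n, rfl⟩
  have hD' : ∀ n, (u n / v n)⁻¹ ≤ D := fun n => hD ⟨n, rfl⟩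
  have hC0 : 0 < C := lt_of_lt_of_le (div_pos (hu 0) (hv 0)) (hC' 0)
  have hD0 : 0 < D := lt_of_lt_of_le (inv_pos.2 (div_pos (hu 0) (hv 0))) (hD' 0)
  refine ⟨hu, hv, D⁻¹, C, inv_pos.2 hD0, hC0, fun n => ⟨?_, ?_⟩⟩
  · have h1 := hD' n
    rw [inv_div, div_le_iff₀ (hu n)] at h1
    rw [inv_mul_le_iff₀ hD0]
    exact h1
  · exact (div_le_iff₀ (hv n)).1 (hC' n)

theorem I_desc {m k : ℕ} (h : k ≤ m) : pd m k * ((m - k).factorial : ℝ) = (m.factorial : ℝ) := by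
  have h1 : pd m k = (m.descFactorial k : ℝ) := by
    rw [Nat.descFactorial_eq_prod_range]
    unfold pd
    push_cast
    refine Finset.prod_congr rfl fun r hr => ?_
    have h2 := Finset.mem_range.1 hr
    rw [Nat.cast_sub (by omega)]
  rw [h1, mul_comm]
  exact_mod_cast Nat.factorial_mul_descFactorial h

theorem I_facpos (n : ℕ) : (0 : ℝ) < (n.factorial : ℝ) := by exact_mod_cast Nat.factorial_pos n

theorem I_fac (p : ℕ) (hp : 0 < p) (a : ℕ) : Sim (fun n => ((p * n + a).factorial : ℝ))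
    (fun n => ((n : ℝ) + 1) ^ a * ((p * n).factorial : ℝ)) := by
  induction a with
  | zero =>
    have h := Sim.refl (u := fun n => ((p * n).factorial : ℝ)) (fun n => I_facpos _)
    simpa using h
  | succ a ih =>
    have h1 : Sim (fun n : ℕ => (p : ℝ) * n + ((a : ℝ) + 1)) (fun n => (n : ℝ) + 1) :=
      sim_lin p hp (by positivity)
    have h2 := h1.mul ih
    have e1 : (fun n : ℕ => ((p * n + (a + 1)).factorial : ℝ)) =
        fun n : ℕ => ((p : ℝ) * n + ((a : ℝ) + 1)) * ((p * n + a).factorial : ℝ) := by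
      funext n
      rw [← add_assoc, Nat.factorial_succ]
      push_cast
      ring
    have e2 : (fun n : ℕ => ((n : ℝ) + 1) ^ (a + 1) * ((p * n).factorial : ℝ)) =
        fun n : ℕ => ((n : ℝ) + 1) * (((n : ℝ) + 1) ^ a * ((p * n).factorial : ℝ)) := by
      funext n
      ring
    rw [e1, e2]
    exact h2

theorem sim_prod {α : ℝ} (hα : 0 < α) :
    Sim (fun n => ∏ k ∈ range n, ((k : ℝ) + α)) (fun n => ((n : ℝ) + 1) ^ (α - 1) * (n.factorial : ℝ)) := by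
  have hpos : ∀ n : ℕ, 0 < ∏ k ∈ range n, ((k : ℝ) + α) := fun n =>
    Finset.prod_pos fun k _ => add_pos_of_nonneg_of_pos (Nat.cast_nonneg k) hα
  have hG := Real.Gamma_pos_of_pos hα
  refine I_lim (L := (Real.Gamma α)⁻¹) hpos (fun n => mul_pos (Real.rpow_pos_of_pos (by positivity) _) (I_facpos n))
    (inv_pos.2 hG) ?_
  have h1 := (Real.GammaSeq_tendsto_Gamma α).inv₀ hG.ne'
  have h2 : Filter.Tendsto (fun n : ℕ => (n : ℝ) / ((n : ℝ) + 1)) Filter.atTop (nhds 1) :=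
    tendsto_natCast_div_add_atTop (1 : ℝ)
  have h3 : Filter.Tendsto (fun n : ℕ => (n : ℝ) / ((n : ℝ) + α)) Filter.atTop (nhds 1) :=
    tendsto_natCast_div_add_atTop α
  have h4 : Filter.Tendsto (fun n : ℕ => ((n : ℝ) / ((n : ℝ) + 1)) ^ α) Filter.atTop (nhds ((1 : ℝ) ^ α)) :=
    h2.rpow_const (Or.inl one_ne_zero)
  have h5 := ((h4.mul (h3.div h2 one_ne_zero)).mul h1)
  rw [Real.one_rpow, div_one, one_mul, one_mul] at h5
  refine h5.congr' ?_
  filter_upwards [Filter.eventually_ge_atTop 1] with n hn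
  have hn0 : (0 : ℝ) < (n : ℝ) := by exact_mod_cast hn
  have hn1 : (0 : ℝ) < (n : ℝ) + 1 := by positivity
  have hna : (0 : ℝ) < (n : ℝ) + α := by positivity
  have e1 : Real.GammaSeq α n = (n : ℝ) ^ α * (n.factorial : ℝ) / ((∏ k ∈ range n, ((k : ℝ) + α)) * ((n : ℝ) + α)) := by
    unfold Real.GammaSeq
    rw [Finset.prod_range_succ]
    congr 2
    · exact Finset.prod_congr rfl fun k _ => add_comm _ _
    · exact add_comm _ _
  have e2 : ((n : ℝ) + 1) ^ (α - 1) = ((n : ℝ) + 1) ^ α / ((n : ℝ) + 1) := Real.rpow_sub_one hn1.ne' α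
  have e3 : ((n : ℝ) / ((n : ℝ) + 1)) ^ α = (n : ℝ) ^ α / ((n : ℝ) + 1) ^ α := Real.div_rpow hn0.le hn1.le α
  have p1 : 0 < (n : ℝ) ^ α := Real.rpow_pos_of_pos hn0 α
  have p2 : 0 < ((n : ℝ) + 1) ^ α := Real.rpow_pos_of_pos hn1 α
  have p3 := hpos n
  have p4 := I_facpos n
  rw [e1, e2, e3, Pi.div_apply]
  field_simp

theorem sim_pd1 {θ : ℝ} (hθ : -1 < θ) : Sim (fun n => pd (n + θ) n) (fun n => ((n : ℝ) + 1) ^ θ * (n.factorial : ℝ)) := by
  have h1 := sim_prod (α := 1 + θ) (by linarith)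
  have e1 : (fun n : ℕ => pd ((n : ℝ) + θ) n) = fun n : ℕ => ∏ k ∈ range n, ((k : ℝ) + (1 + θ)) := by
    funext n
    unfold pd
    rw [← Finset.prod_range_reflect]
    refine Finset.prod_congr rfl fun r hr => ?_
    have h2 := Finset.mem_range.1 hr
    rw [Nat.cast_sub (by omega), Nat.cast_sub (by omega)]
    push_cast
    ring
  rw [e1]
  rw [add_sub_cancel_left] at h1
  exact h1

theorem sim_pd2 {θ : ℝ} (hθ : -1 < θ) :
    Sim (fun n => pd (2 * n + θ) n) (fun n => ((2 * n).factorial : ℝ) / (n.factorial : ℝ)) := by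
  have h1 := sim_pd1 hθ
  have h2 : Sim (fun n : ℕ => pd (((2 * n : ℕ) : ℝ) + θ) (2 * n))
      (fun n : ℕ => (((2 * n : ℕ) : ℝ) + 1) ^ θ * ((2 * n).factorial : ℝ)) := h1.comp (fun n => 2 * n)
  have h3 : Sim (fun n : ℕ => ((2 : ℕ) : ℝ) * n + 1) (fun n => (n : ℝ) + 1) := sim_lin 2 (by norm_num) one_pos
  have h4 := (sim_rpow h3 θ).mul (Sim.refl (u := fun n : ℕ => ((2 * n).factorial : ℝ)) (fun n => I_facpos _))
  have e1 : (fun n : ℕ => (((2 * n : ℕ) : ℝ) + 1) ^ θ * ((2 * n).factorial : ℝ)) =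
      fun n : ℕ => (((2 : ℕ) : ℝ) * n + 1) ^ θ * ((2 * n).factorial : ℝ) := by
    funext n
    push_cast
    rfl
  rw [e1] at h2
  have h5 := (h2.trans h4).div h1
  have e2 : (fun n : ℕ => pd (((2 * n : ℕ) : ℝ) + θ) (2 * n) / pd ((n : ℝ) + θ) n) =
      fun n : ℕ => pd (2 * n + θ) n := by
    funext n
    have hp : 0 < pd ((n : ℝ) + θ) n := h1.1 n
    rw [div_eq_iff hp.ne', two_mul, pd, Finset.prod_range_add]
    unfold pd
    congr 1
    · refine Finset.prod_congr rfl fun r _ => ?_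
      push_cast
      ring
    · refine Finset.prod_congr rfl fun r _ => ?_
      push_cast
      ring
  have e3 : (fun n : ℕ => ((n : ℝ) + 1) ^ θ * ((2 * n).factorial : ℝ) / (((n : ℝ) + 1) ^ θ * (n.factorial : ℝ))) =
      fun n : ℕ => ((2 * n).factorial : ℝ) / (n.factorial : ℝ) := by
    funext n
    have hp : 0 < ((n : ℝ) + 1) ^ θ := Real.rpow_pos_of_pos (by positivity) _
    rw [mul_div_mul_left _ _ hp.ne']
  rw [e2, e3] at h5
  exact h5

theorem sim_pd3 (a : ℕ) : Sim (fun n => pd (3 * n + a) (2 * n)) (fun n => ((3 * n).factorial : ℝ) / (n.factorial : ℝ)) := by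
  have h1 := (I_fac 3 (by norm_num) a).div (I_fac 1 one_pos a)
  have e1 : (fun n : ℕ => ((3 * n + a).factorial : ℝ) / ((1 * n + a).factorial : ℝ)) =
      fun n : ℕ => pd (3 * n + a) (2 * n) := by
    funext n
    have h2 := I_desc (m := 3 * n + a) (k := 2 * n) (by omega)
    have h3 : 3 * n + a - 2 * n = 1 * n + a := by omega
    rw [h3] at h2
    rw [div_eq_iff (I_facpos _).ne', ← h2]
    push_cast
    rfl
  have e2 : (fun n : ℕ => ((n : ℝ) + 1) ^ a * ((3 * n).factorial : ℝ) / (((n : ℝ) + 1) ^ a * ((1 * n).factorial : ℝ))) =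
      fun n : ℕ => ((3 * n).factorial : ℝ) / (n.factorial : ℝ) := by
    funext n
    have hp : 0 < ((n : ℝ) + 1) ^ a := by positivity
    rw [mul_div_mul_left _ _ hp.ne', one_mul]
  rw [e1, e2] at h1
  exact h1

theorem sim_fac : Sim (fun n => ((3 * n).factorial : ℝ)) (fun n => 27 ^ n * (n.factorial : ℝ) ^ 3 / ((n : ℝ) + 1)) := by
  have h1 := sim_prod (α := 1 / 3) (by norm_num)
  have h2 := sim_prod (α := 2 / 3) (by norm_num)
  have h3 := (Sim.refl (u := fun n : ℕ => (27 : ℝ) ^ n * (n.factorial : ℝ))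
    (fun n => mul_pos (by positivity) (I_facpos n))).mul (h1.mul h2)
  have e1 : (fun n : ℕ => ((3 * n).factorial : ℝ)) = fun n : ℕ => (27 : ℝ) ^ n * (n.factorial : ℝ) *
      ((∏ k ∈ range n, ((k : ℝ) + 1 / 3)) * ∏ k ∈ range n, ((k : ℝ) + 2 / 3)) := by
    funext n
    induction n with
    | zero => simp
    | succ n ih =>
      rw [Finset.prod_range_succ, Finset.prod_range_succ, Nat.factorial_succ n,
        show 3 * (n + 1) = 3 * n + 1 + 1 + 1 by ring, Nat.factorial_succ, Nat.factorial_succ, Nat.factorial_succ]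
      push_cast
      rw [ih]
      ring
  have e2 : (fun n : ℕ => (27 : ℝ) ^ n * (n.factorial : ℝ) * ((((n : ℝ) + 1) ^ ((1 / 3 : ℝ) - 1) * (n.factorial : ℝ)) *
      (((n : ℝ) + 1) ^ ((2 / 3 : ℝ) - 1) * (n.factorial : ℝ)))) =
      fun n : ℕ => 27 ^ n * (n.factorial : ℝ) ^ 3 / ((n : ℝ) + 1) := by
    funext n
    have hp : (0 : ℝ) < (n : ℝ) + 1 := by positivity
    have h4 : ((n : ℝ) + 1) ^ ((1 / 3 : ℝ) - 1) * ((n : ℝ) + 1) ^ ((2 / 3 : ℝ) - 1) = ((n : ℝ) + 1)⁻¹ := by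
      rw [← Real.rpow_add hp, show ((1 / 3 : ℝ) - 1) + ((2 / 3 : ℝ) - 1) = -1 by norm_num, Real.rpow_neg_one]
    calc (27 : ℝ) ^ n * (n.factorial : ℝ) * ((((n : ℝ) + 1) ^ ((1 / 3 : ℝ) - 1) * (n.factorial : ℝ)) *
      (((n : ℝ) + 1) ^ ((2 / 3 : ℝ) - 1) * (n.factorial : ℝ))) = 27 ^ n * (n.factorial : ℝ) ^ 3 *
        (((n : ℝ) + 1) ^ ((1 / 3 : ℝ) - 1) * ((n : ℝ) + 1) ^ ((2 / 3 : ℝ) - 1)) := by ring
      _ = _ := by rw [h4, div_eq_mul_inv]
  rw [e2] at h3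
  rw [e1]
  exact h3

end QV
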