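import Pool.Agent.Lib.MP_216314_pr.QV.D

/-!
# Sequences of the same order: closure properties

`Sim u v`: positive sequences whose quotient is bounded above and below. All statements are elementary. `sim_lin`: `p n + q ≤ (p+q)(n+1)` and `≥ min p q (n+1)` (`p : ℕ`, `p ≥ 1`). `sim_rpow`: `Real.rpow_le_rpow` for `s ≥ 0` (constants `c^s`, `C^s`), `Real.rpow_le_rpow_of_nonpos` for `s < 0` (exchange `c` and `C`), `Real.mul_rpow`.
-/

set_option autoImplicit false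

noncomputable section

namespace QV

open Finset

def Sim (u v : ℕ → ℝ) : Prop :=
  (∀ n, 0 < u n) ∧ (∀ n, 0 < v n) ∧ ∃ c C : ℝ, 0 < c ∧ 0 < C ∧ ∀ n, c * v n ≤ u n ∧ u n ≤ C * v n

theorem Sim.refl {u : ℕ → ℝ} (h : ∀ n, 0 < u n) : Sim u u :=
  ⟨h, h, 1, 1, one_pos, one_pos, fun n => by
    rw [one_mul]
    exact ⟨le_refl _, le_refl _⟩⟩

theorem Sim.symm {u v : ℕ → ℝ} (h : Sim u v) : Sim v u := by
  obtain ⟨hu, hv, c, C, hc, hC, hb⟩ := h
  refine ⟨hv, hu, C⁻¹, c⁻¹, inv_pos.2 hC, inv_pos.2 hc, fun n => ⟨?_, ?_⟩⟩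
  · have h1 := (hb n).2
    rw [inv_mul_le_iff₀ hC]
    exact h1
  · have h1 := (hb n).1
    rw [le_inv_mul_iff₀ hc]
    exact h1

theorem Sim.trans {u v w : ℕ → ℝ} (h : Sim u v) (h' : Sim v w) : Sim u w := by
  obtain ⟨hu, hv, c, C, hc, hC, hb⟩ := h
  obtain ⟨_, hw, c', C', hc', hC', hb'⟩ := h'
  refine ⟨hu, hw, c * c', C * C', mul_pos hc hc', mul_pos hC hC', fun n => ⟨?_, ?_⟩⟩
  · have h1 := mul_le_mul_of_nonneg_left (hb' n).1 hc.le
    rw [mul_assoc]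
    exact h1.trans (hb n).1
  · have h1 := mul_le_mul_of_nonneg_left (hb' n).2 hC.le
    rw [mul_assoc]
    exact (hb n).2.trans h1

theorem Sim.mul {u v u' v' : ℕ → ℝ} (h : Sim u v) (h' : Sim u' v') : Sim (fun n => u n * u' n) (fun n => v n * v' n) := by
  obtain ⟨hu, hv, c, C, hc, hC, hb⟩ := h
  obtain ⟨hu', hv', c', C', hc', hC', hb'⟩ := h'
  refine ⟨fun n => mul_pos (hu n) (hu' n), fun n => mul_pos (hv n) (hv' n), c * c', C * C',
    mul_pos hc hc', mul_pos hC hC', fun n => ⟨?_, ?_⟩⟩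
  · show c * c' * (v n * v' n) ≤ u n * u' n
    have h1 := mul_le_mul (hb n).1 (hb' n).1 (mul_pos hc' (hv' n)).le (hu n).le
    calc c * c' * (v n * v' n) = c * v n * (c' * v' n) := by ring
      _ ≤ _ := h1
  · show u n * u' n ≤ C * C' * (v n * v' n)
    have h1 := mul_le_mul (hb n).2 (hb' n).2 (hu' n).le (mul_pos hC (hv n)).le
    calc u n * u' n ≤ C * v n * (C' * v' n) := h1
      _ = _ := by ring

private theorem I1_inv {u v : ℕ → ℝ} (h : Sim u v) : Sim (fun n => (u n)⁻¹) (fun n => (v n)⁻¹) := by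
  obtain ⟨hu, hv, c, C, hc, hC, hb⟩ := h
  refine ⟨fun n => inv_pos.2 (hu n), fun n => inv_pos.2 (hv n), C⁻¹, c⁻¹, inv_pos.2 hC,
    inv_pos.2 hc, fun n => ⟨?_, ?_⟩⟩
  · show C⁻¹ * (v n)⁻¹ ≤ (u n)⁻¹
    rw [← mul_inv]
    exact inv_anti₀ (hu n) (hb n).2
  · show (u n)⁻¹ ≤ c⁻¹ * (v n)⁻¹
    rw [← mul_inv]
    exact inv_anti₀ (mul_pos hc (hv n)) (hb n).1

theorem Sim.div {u v u' v' : ℕ → ℝ} (h : Sim u v) (h' : Sim u' v') : Sim (fun n => u n / u' n) (fun n => v n / v' n) := by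
  have h1 := h.mul (I1_inv h')
  exact h1

theorem Sim.pow {u v : ℕ → ℝ} (h : Sim u v) (k : ℕ) : Sim (fun n => u n ^ k) (fun n => v n ^ k) := by
  obtain ⟨hu, hv, c, C, hc, hC, hb⟩ := h
  refine ⟨fun n => pow_pos (hu n) k, fun n => pow_pos (hv n) k, c ^ k, C ^ k, pow_pos hc k,
    pow_pos hC k, fun n => ⟨?_, ?_⟩⟩
  · show c ^ k * v n ^ k ≤ u n ^ k
    rw [← mul_pow]
    exact pow_le_pow_left₀ (mul_pos hc (hv n)).le (hb n).1 k
  · show u n ^ k ≤ C ^ k * v n ^ k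
    rw [← mul_pow]
    exact pow_le_pow_left₀ (hu n).le (hb n).2 k

theorem Sim.const {u : ℕ → ℝ} (h : ∀ n, 0 < u n) {a : ℝ} (ha : 0 < a) : Sim (fun n => a * u n) u :=
  ⟨fun n => mul_pos ha (h n), h, a, a, ha, ha, fun _ => ⟨le_refl _, le_refl _⟩⟩

theorem Sim.comp {u v : ℕ → ℝ} (h : Sim u v) (f : ℕ → ℕ) : Sim (fun n => u (f n)) (fun n => v (f n)) := by
  obtain ⟨hu, hv, c, C, hc, hC, hb⟩ := h
  exact ⟨fun n => hu (f n), fun n => hv (f n), c, C, hc, hC, fun n => hb (f n)⟩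

/-- linear functions -/
theorem sim_lin (p : ℕ) {q : ℝ} (hp : 0 < p) (hq : 0 < q) : Sim (fun n => (p : ℝ) * n + q) (fun n => (n : ℝ) + 1) := by
  have hp' : (0 : ℝ) < p := Nat.cast_pos.2 hp
  refine ⟨fun n => add_pos_of_nonneg_of_pos (mul_nonneg hp'.le (Nat.cast_nonneg n)) hq,
    fun n => add_pos_of_nonneg_of_pos (Nat.cast_nonneg n) one_pos, min p q, p + q,
    lt_min hp' hq, add_pos hp' hq, fun n => ⟨?_, ?_⟩⟩
  · show min (p : ℝ) q * ((n : ℝ) + 1) ≤ (p : ℝ) * n + q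
    have h1 := mul_le_mul_of_nonneg_right (min_le_left (p : ℝ) q) (Nat.cast_nonneg (α := ℝ) n)
    have h2 := min_le_right (p : ℝ) q
    rw [mul_add, mul_one]
    exact add_le_add h1 h2
  · show (p : ℝ) * n + q ≤ (p + q) * ((n : ℝ) + 1)
    have h1 := mul_nonneg hq.le (Nat.cast_nonneg (α := ℝ) n)
    nlinarith

theorem sim_rpow {u v : ℕ → ℝ} (h : Sim u v) (s : ℝ) : Sim (fun n => u n ^ s) (fun n => v n ^ s) := by
  obtain ⟨hu, hv, c, C, hc, hC, hb⟩ := h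
  rcases le_or_gt 0 s with hs | hs
  · refine ⟨fun n => Real.rpow_pos_of_pos (hu n) s, fun n => Real.rpow_pos_of_pos (hv n) s,
      c ^ s, C ^ s, Real.rpow_pos_of_pos hc s, Real.rpow_pos_of_pos hC s, fun n => ⟨?_, ?_⟩⟩
    · show c ^ s * v n ^ s ≤ u n ^ s
      rw [← Real.mul_rpow hc.le (hv n).le]
      exact Real.rpow_le_rpow (mul_pos hc (hv n)).le (hb n).1 hs
    · show u n ^ s ≤ C ^ s * v n ^ s
      rw [← Real.mul_rpow hC.le (hv n).le]
      exact Real.rpow_le_rpow (hu n).le (hb n).2 hs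
  · refine ⟨fun n => Real.rpow_pos_of_pos (hu n) s, fun n => Real.rpow_pos_of_pos (hv n) s,
      C ^ s, c ^ s, Real.rpow_pos_of_pos hC s, Real.rpow_pos_of_pos hc s, fun n => ⟨?_, ?_⟩⟩
    · show C ^ s * v n ^ s ≤ u n ^ s
      rw [← Real.mul_rpow hC.le (hv n).le]
      exact Real.rpow_le_rpow_of_nonpos (hu n) (hb n).2 hs.le
    · show u n ^ s ≤ c ^ s * v n ^ s
      rw [← Real.mul_rpow hc.le (hv n).le]
      exact Real.rpow_le_rpow_of_nonpos (mul_pos hc (hv n)) (hb n).1 hs.le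

end QV
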