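import Pool.Agent.Lib.MP_216314_pr.QV.H
import Pool.Agent.Lib.MP_216314_pr.QV.I

/-!
# The order of the quotients

`RA_sim`: `RA l n = (2n+1)! (2n)! 3^(4n+1)/((6n+2l+5) 9^(3n+l+1) 81^n) * [pd (3n+l+1) (2n)/(n! pd (2n+(2l+2)/3) n * pd (n+l/3) n * pd (n+(l-1)/3) n)]²` (`(6n+2l+5)! = (6n+2l+5) (6n+2l+4)!`). By `sim_pd3`, `sim_pd2`, `sim_pd1` (`l/3 > -1`, `(l-1)/3 > -1`), `sim_lin`:
`~ (2n)!² 3^(-6n) [(3n)!/((2n)! n!³)]² (n+1)^(-(4l-2)/3)` (`(2n+1)! = (2n+1) (2n)!`, `(2n+1)/(6n+2l+5) ~ 1`, `3^(4n)/(9^(3n) 81^n) = 3^(-6n)`), and `(3n)! ~ 27^n n!³/(n+1)` (`sim_fac`), `27^(2n) = 3^(6n)`: `~ (n+1)^(-2-(4l-2)/3) = (n+1)^(-(4l+4)/3)`.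
`RB_sim`: `rB0 rB2` have the common factor `((6n+2l+8)!)²`; `(6n+2l+8)!/(6n+2l+7)! = 6n+2l+8`. `pd (3n+l+3) (2n+2) = pd (3n+l+3) (2n) * (n+l+3) (n+l+2)`, `pd (2n+θ) (n+1) = pd (2n+θ) n * (n+θ)`, `pd (n+1+l/3) (n+1) = (n+1+l/3) pd (n+l/3) n`, `pd (n+(l+2)/3) (n+1) = (n+(l+2)/3) pd (n+(l-1)/3) n`
(`ph`/`pd` first factor: `pd (y+1) (k+1) = (y+1) pd y k`), `(n+1)! = (n+1) n!`.
`rB0 l n ~ (6n)!-type factor: rB0 ~ (6n+2l+8)! 3^(-3n) 9^(-n) [(3n)!/n!] (n+1)^2/(n! (n+1) * ((2n)!/n!) (n+1) * (n+1)^(1+l/3) n! * (n+1)^(1+(l-1)/3) n!)`,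
`rB2 ~ (6n+2l+8)! 3^(-3n) 9^(-n) (n+1)^(-2) [(3n)!/n!]/(n! ((2n)!/n!) (n+1)^(l/3) n! (n+1)^((l-1)/3) n!)`, prefactor `(2n+2)! (2n+1)! 3^(4n+3)/((6n+2l+8)! (6n+2l+7)!) ~ (n+1)^3 (2n)!² 3^(4n) (n+1)/((6n+2l+8)!)²`. Total: `(n+1)^(4 - 2 - 2 - (4l-2)/3) 3^(-6n) [(3n)!/n!³]² ~ (n+1)^(-(4l+4)/3)`.
-/

set_option autoImplicit false

noncomputable section

namespace QV

open Finset

private theorem J_pd_succ (y : ℝ) (k : ℕ) : pd (y + 1) (k + 1) = (y + 1) * pd y k := by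
  unfold pd
  rw [Finset.prod_range_succ']
  rw [mul_comm]
  congr 1
  · push_cast
    ring
  · refine Finset.prod_congr rfl fun r _ => ?_
    push_cast
    ring

private theorem J_N (n : ℕ) : (0 : ℝ) < (n : ℝ) + 1 := by positivity

private theorem J_rpow (l n : ℕ) : ((n : ℝ) + 1) ^ (-((2 * l + 2) / 3) : ℝ) =
    (((n : ℝ) + 1) * (((n : ℝ) + 1) ^ ((l : ℝ) / 3) * ((n : ℝ) + 1) ^ (((l : ℝ) - 1) / 3)))⁻¹ := by
  have hN := J_N n
  rw [← Real.rpow_add hN, Real.rpow_neg hN.le]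
  congr 1
  have h1 : ((2 * l + 2) / 3 : ℝ) = 1 + ((l : ℝ) / 3 + ((l : ℝ) - 1) / 3) := by ring
  rw [h1, Real.rpow_add hN, Real.rpow_one]

private theorem J_Z (l : ℕ) (hl : 0 < l) (a : ℕ) {θ : ℝ} (hθ : -1 < θ) :
    Sim (fun n : ℕ => ((2 * n).factorial : ℝ) / 27 ^ n * pd (3 * n + a) (2 * n) /
      ((n.factorial : ℝ) * pd (2 * n + θ) n * pd (n + l / 3) n * pd (n + (l - 1) / 3) n))
      (fun n : ℕ => ((n : ℝ) + 1) ^ (-((2 * l + 2) / 3) : ℝ)) := by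
  have hl1 : (1 : ℝ) ≤ l := by exact_mod_cast hl
  have hf : ∀ n : ℕ, (0 : ℝ) < (n.factorial : ℝ) := fun n : ℕ => by
    exact_mod_cast Nat.factorial_pos n
  have hG : ∀ n : ℕ, (0 : ℝ) < ((2 * n).factorial : ℝ) := fun n : ℕ => hf _
  have h3 := sim_pd3 a
  have h2 := sim_pd2 hθ
  have h1 := sim_pd1 (θ := (l : ℝ) / 3) (by have : (0 : ℝ) ≤ (l : ℝ) / 3 := by positivity
                                            linarith)
  have h1' := sim_pd1 (θ := ((l : ℝ) - 1) / 3) (by linarith)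
  have hA := (Sim.refl (u := fun n : ℕ => ((2 * n).factorial : ℝ) / 27 ^ n)
    (fun n : ℕ => div_pos (hG n) (by positivity))).mul h3
  have hB := (((Sim.refl (u := fun n : ℕ => (n.factorial : ℝ)) hf).mul h2).mul h1).mul h1'
  have hC := hA.div hB
  refine hC.trans ?_
  have hD := sim_fac.mul (Sim.refl (u := fun n : ℕ => (27 ^ n * (n.factorial : ℝ) ^ 3 *
    (((n : ℝ) + 1) ^ ((l : ℝ) / 3) * ((n : ℝ) + 1) ^ (((l : ℝ) - 1) / 3)))⁻¹) (fun n : ℕ => by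
      have := J_N n
      have := hf n
      positivity))
  have e1 : (fun n : ℕ => ((2 * n).factorial : ℝ) / 27 ^ n * (((3 * n).factorial : ℝ) / (n.factorial : ℝ)) /
      ((n.factorial : ℝ) * (((2 * n).factorial : ℝ) / (n.factorial : ℝ)) *
        (((n : ℝ) + 1) ^ ((l : ℝ) / 3) * (n.factorial : ℝ)) *
        (((n : ℝ) + 1) ^ (((l : ℝ) - 1) / 3) * (n.factorial : ℝ)))) =
      fun n : ℕ => ((3 * n).factorial : ℝ) * (27 ^ n * (n.factorial : ℝ) ^ 3 *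
        (((n : ℝ) + 1) ^ ((l : ℝ) / 3) * ((n : ℝ) + 1) ^ (((l : ℝ) - 1) / 3)))⁻¹ := by
    funext n
    have a1 := (hf n).ne'
    have a2 := (hG n).ne'
    have a3 : ((n : ℝ) + 1) ^ ((l : ℝ) / 3) ≠ 0 := (Real.rpow_pos_of_pos (J_N n) _).ne'
    have a4 : ((n : ℝ) + 1) ^ (((l : ℝ) - 1) / 3) ≠ 0 := (Real.rpow_pos_of_pos (J_N n) _).ne'
    field_simp
  have e2 : (fun n : ℕ => 27 ^ n * (n.factorial : ℝ) ^ 3 / ((n : ℝ) + 1) *
      (27 ^ n * (n.factorial : ℝ) ^ 3 *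
        (((n : ℝ) + 1) ^ ((l : ℝ) / 3) * ((n : ℝ) + 1) ^ (((l : ℝ) - 1) / 3)))⁻¹) =
      fun n : ℕ => ((n : ℝ) + 1) ^ (-((2 * l + 2) / 3) : ℝ) := by
    funext n
    rw [J_rpow]
    have a1 := (hf n).ne'
    have a3 : ((n : ℝ) + 1) ^ ((l : ℝ) / 3) ≠ 0 := (Real.rpow_pos_of_pos (J_N n) _).ne'
    have a4 : ((n : ℝ) + 1) ^ (((l : ℝ) - 1) / 3) ≠ 0 := (Real.rpow_pos_of_pos (J_N n) _).ne'
    have a5 := (J_N n).ne'
    field_simp
  rw [e2] at hD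
  rw [e1]
  exact hD

private theorem J_sq (l n : ℕ) : ((n : ℝ) + 1) ^ (-((2 * l + 2) / 3) : ℝ) *
    ((n : ℝ) + 1) ^ (-((2 * l + 2) / 3) : ℝ) = ((n : ℝ) + 1) ^ (-((4 * l + 4) / 3) : ℝ) := by
  rw [← Real.rpow_add (J_N n)]
  congr 1
  ring

private theorem J_pw (n l : ℕ) : (3 : ℝ) ^ (3 * n + l) = 27 ^ n * 3 ^ l := by
  rw [pow_add, pow_mul]
  norm_num

private theorem J_pw4 (n : ℕ) : (3 : ℝ) ^ (4 * n) = (9 ^ n) ^ 2 := by
  rw [← pow_mul, mul_comm n 2, pow_mul, pow_mul]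
  norm_num

theorem RA_sim (l : ℕ) (hl : 0 < l) : Sim (fun n => RA l n) (fun n => ((n : ℝ) + 1) ^ (-((4 * l + 4) / 3) : ℝ)) := by
  have hl0 : (0 : ℝ) ≤ l := Nat.cast_nonneg l
  have hZ := J_Z l hl (l + 1) (θ := (2 * l + 2) / 3) (by
    have : (0 : ℝ) ≤ (2 * l + 2) / 3 := by positivity
    linarith)
  have hlin := (sim_lin 2 (q := 1) (by norm_num) one_pos).div
    (sim_lin 6 (q := 2 * l + 5) (by norm_num) (by positivity))
  have hS := ((hlin.mul (hZ.mul hZ)))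
  have hpos : ∀ n : ℕ, (0 : ℝ) < ((2 : ℕ) : ℝ) * n + 1 := fun n : ℕ => by positivity
  have hS2 := (Sim.const (a := 1 / (3 * (3 ^ l) ^ 2)) hS.1 (by positivity)).trans hS
  have e1 : (fun n : ℕ => RA l n) = fun n : ℕ => 1 / (3 * (3 ^ l) ^ 2) *
      ((((2 : ℕ) : ℝ) * n + 1) / (((6 : ℕ) : ℝ) * n + (2 * l + 5)) *
      ((((2 * n).factorial : ℝ) / 27 ^ n * pd (3 * n + ((l + 1 : ℕ) : ℝ)) (2 * n) /
      ((n.factorial : ℝ) * pd (2 * n + (2 * l + 2) / 3) n * pd (n + l / 3) n * pd (n + (l - 1) / 3) n)) *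
      (((2 * n).factorial : ℝ) / 27 ^ n * pd (3 * n + ((l + 1 : ℕ) : ℝ)) (2 * n) /
      ((n.factorial : ℝ) * pd (2 * n + (2 * l + 2) / 3) n * pd (n + l / 3) n * pd (n + (l - 1) / 3) n)))) := by
    funext n
    have f1 : ((2 * n + 1).factorial : ℝ) = (2 * n + 1) * ((2 * n).factorial : ℝ) := by
      rw [Nat.factorial_succ]
      push_cast
      ring
    have f2 : ((6 * n + 2 * l + 5).factorial : ℝ) =
        (6 * n + 2 * l + 5) * ((6 * n + 2 * l + 4).factorial : ℝ) := by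
      have : (6 * n + 2 * l + 5).factorial = (6 * n + 2 * l + 5) * (6 * n + 2 * l + 4).factorial :=
        Nat.factorial_succ _
      rw [this]
      push_cast
      ring
    have f3 : (3 * (n : ℝ) + ((l + 1 : ℕ) : ℝ)) = 3 * n + l + 1 := by
      push_cast
      ring
    have hl1 : (1 : ℝ) ≤ l := by exact_mod_cast hl
    have g0 : ((6 * n + 2 * l + 4).factorial : ℝ) ≠ 0 := by
      exact_mod_cast (Nat.factorial_pos _).ne'
    have g1 : (n.factorial : ℝ) ≠ 0 := by exact_mod_cast (Nat.factorial_pos _).ne'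
    have g2 : pd (2 * n + (2 * l + 2) / 3) n ≠ 0 := (pd_pos (by
      have : (0 : ℝ) ≤ (2 * l + 2) / 3 := by positivity
      have : (0 : ℝ) ≤ n := Nat.cast_nonneg n
      linarith)).ne'
    have g3 : pd (n + l / 3) n ≠ 0 := (pd_pos (by
      have : (0 : ℝ) ≤ l / 3 := by positivity
      linarith)).ne'
    have g4 : pd (n + (l - 1) / 3) n ≠ 0 := (pd_pos (by
      have : (0 : ℝ) ≤ (l - 1) / 3 := div_nonneg (by linarith) (by norm_num)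
      linarith)).ne'
    have g5 : (6 * (n : ℝ) + 2 * l + 5) ≠ 0 := by positivity
    have g6 : (6 * (n : ℝ) + (2 * l + 5)) ≠ 0 := by positivity
    unfold RA rA
    rw [f1, f2, f3, pow_succ 3 (4 * n), pow_succ 3 (3 * n + l), J_pw4, J_pw]
    push_cast
    obtain ⟨Q1, hQ1⟩ : ∃ Q : ℝ, Q = pd (2 * n + (2 * l + 2) / 3) n := ⟨_, rfl⟩
    obtain ⟨Q2, hQ2⟩ : ∃ Q : ℝ, Q = pd (n + l / 3) n := ⟨_, rfl⟩
    obtain ⟨Q3, hQ3⟩ : ∃ Q : ℝ, Q = pd (n + (l - 1) / 3) n := ⟨_, rfl⟩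
    rw [← hQ1] at g2 ⊢
    rw [← hQ2] at g3 ⊢
    rw [← hQ3] at g4 ⊢
    field_simp
    ring
  have e2 : (fun n : ℕ => ((n : ℝ) + 1) / ((n : ℝ) + 1) *
      (((n : ℝ) + 1) ^ (-((2 * l + 2) / 3) : ℝ) * ((n : ℝ) + 1) ^ (-((2 * l + 2) / 3) : ℝ))) =
      fun n : ℕ => ((n : ℝ) + 1) ^ (-((4 * l + 4) / 3) : ℝ) := by
    funext n
    rw [J_sq, div_self (J_N n).ne', one_mul]
  rw [e1, ← e2]
  exact hS2

theorem RB_sim (l : ℕ) (hl : 0 < l) : Sim (fun n => RB l n) (fun n => ((n : ℝ) + 1) ^ (-((4 * l + 4) / 3) : ℝ)) := by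
  have hl0 : (0 : ℝ) ≤ l := Nat.cast_nonneg l
  have hl1 : (1 : ℝ) ≤ l := by exact_mod_cast hl
  have hθ : -1 < ((2 * l + 5) / 3 : ℝ) := by
    have : (0 : ℝ) ≤ (2 * l + 5) / 3 := by positivity
    linarith
  have hZ := J_Z l hl (l + 3) hθ
  have hZ' := J_Z l hl (l + 2) hθ
  have L1 := sim_lin 2 (q := 2) (by norm_num) (by norm_num)
  have L2 := sim_lin 2 (q := 1) (by norm_num) (by norm_num)
  have L3 := sim_lin 1 (q := l + 3) (by norm_num) (by positivity)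
  have L4 := sim_lin 1 (q := l + 2) (by norm_num) (by positivity)
  have M1 := sim_lin 1 (q := 1) (by norm_num) (by norm_num)
  have M2 := sim_lin 1 (q := (2 * l + 5) / 3) (by norm_num) (by positivity)
  have M3 := sim_lin 1 (q := 1 + l / 3) (by norm_num) (by positivity)
  have M4 := sim_lin 1 (q := (l + 2) / 3) (by norm_num) (by positivity)
  have M5 := sim_lin 6 (q := 2 * l + 4) (by norm_num) (by positivity)
  have hnum := (((L1.mul (L2.mul L2)).mul L3).mul L4)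
  have hden := (((M1.mul M2).mul M3).mul M4).mul M5
  have hS := (hnum.div hden).mul (hZ.mul hZ')
  have hS2 := (Sim.const (a := 1 / (81 * (3 ^ l) ^ 2)) hS.1 (by positivity)).trans hS
  have e1 : (fun n : ℕ => RB l n) = fun n : ℕ => 1 / (81 * (3 ^ l) ^ 2) *
      (((((((2 : ℕ) : ℝ) * n + 2) * ((((2 : ℕ) : ℝ) * n + 1) * (((2 : ℕ) : ℝ) * n + 1))) *
        (((1 : ℕ) : ℝ) * n + (l + 3))) * (((1 : ℕ) : ℝ) * n + (l + 2))) /
       ((((((1 : ℕ) : ℝ) * n + 1) * (((1 : ℕ) : ℝ) * n + (2 * l + 5) / 3)) * (((1 : ℕ) : ℝ) * n + (1 + l / 3))) *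
        (((1 : ℕ) : ℝ) * n + (l + 2) / 3) * (((6 : ℕ) : ℝ) * n + (2 * l + 4))) *
      ((((2 * n).factorial : ℝ) / 27 ^ n * pd (3 * n + ((l + 3 : ℕ) : ℝ)) (2 * n) /
      ((n.factorial : ℝ) * pd (2 * n + (2 * l + 5) / 3) n * pd (n + l / 3) n * pd (n + (l - 1) / 3) n)) *
      (((2 * n).factorial : ℝ) / 27 ^ n * pd (3 * n + ((l + 2 : ℕ) : ℝ)) (2 * n) /
      ((n.factorial : ℝ) * pd (2 * n + (2 * l + 5) / 3) n * pd (n + l / 3) n * pd (n + (l - 1) / 3) n)))) := by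
    funext n
    have hn0 : (0 : ℝ) ≤ n := Nat.cast_nonneg n
    have f1 : ((2 * n + 1).factorial : ℝ) = (2 * n + 1) * ((2 * n).factorial : ℝ) := by
      rw [Nat.factorial_succ]
      push_cast
      ring
    have f1' : ((2 * n + 2).factorial : ℝ) = (2 * n + 2) * ((2 * n + 1) * ((2 * n).factorial : ℝ)) := by
      have : (2 * n + 2).factorial = (2 * n + 2) * (2 * n + 1).factorial := Nat.factorial_succ _
      rw [this, Nat.cast_mul, f1]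
      push_cast
      ring
    have f2 : ((6 * n + 2 * l + 8).factorial : ℝ) =
        (6 * n + 2 * l + 8) * ((6 * n + 2 * l + 7).factorial : ℝ) := by
      have : (6 * n + 2 * l + 8).factorial = (6 * n + 2 * l + 8) * (6 * n + 2 * l + 7).factorial :=
        Nat.factorial_succ _
      rw [this]
      push_cast
      ring
    have f4 : ((n + 1).factorial : ℝ) = (n + 1) * (n.factorial : ℝ) := by
      rw [Nat.factorial_succ]
      push_cast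
      ring
    have p1 : pd (3 * n + l + 3) (2 * n + 2) =
        pd (3 * n + ((l + 3 : ℕ) : ℝ)) (2 * n) * (n + (l + 3)) * (n + (l + 2)) := by
      have h0 : (3 * (n : ℝ) + ((l + 3 : ℕ) : ℝ)) = 3 * n + l + 3 := by
        push_cast
        ring
      rw [h0, pd_succ, pd_succ]
      push_cast
      ring
    have p1' : pd (3 * n + l + 2) (2 * n) = pd (3 * n + ((l + 2 : ℕ) : ℝ)) (2 * n) := by
      have h0 : (3 * (n : ℝ) + ((l + 2 : ℕ) : ℝ)) = 3 * n + l + 2 := by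
        push_cast
        ring
      rw [h0]
    have p2 : pd (2 * n + (2 * l + 5) / 3) (n + 1) =
        pd (2 * n + (2 * l + 5) / 3) n * (n + (2 * l + 5) / 3) := by
      rw [pd_succ]
      ring
    have p3 : pd (n + 1 + l / 3) (n + 1) = (n + (1 + l / 3)) * pd (n + l / 3) n := by
      have h0 : (n : ℝ) + 1 + l / 3 = (n + l / 3) + 1 := by ring
      rw [h0, J_pd_succ]
      ring
    have p4 : pd (n + (l + 2) / 3) (n + 1) = (n + (l + 2) / 3) * pd (n + (l - 1) / 3) n := by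
      have h0 : (n : ℝ) + (l + 2) / 3 = (n + (l - 1) / 3) + 1 := by ring
      rw [h0, J_pd_succ]
    have g0 : ((6 * n + 2 * l + 7).factorial : ℝ) ≠ 0 := by
      exact_mod_cast (Nat.factorial_pos _).ne'
    have g1 : (n.factorial : ℝ) ≠ 0 := by exact_mod_cast (Nat.factorial_pos _).ne'
    have g2 : pd (2 * n + (2 * l + 5) / 3) n ≠ 0 := (pd_pos (by
      have : (0 : ℝ) ≤ (2 * l + 5) / 3 := by positivity
      linarith)).ne'
    have g3 : pd (n + l / 3) n ≠ 0 := (pd_pos (by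
      have : (0 : ℝ) ≤ l / 3 := by positivity
      linarith)).ne'
    have g4 : pd (n + (l - 1) / 3) n ≠ 0 := (pd_pos (by
      have : (0 : ℝ) ≤ (l - 1) / 3 := div_nonneg (by linarith) (by norm_num)
      linarith)).ne'
    have g5 : (6 * (n : ℝ) + 2 * l + 8) ≠ 0 := by positivity
    have g6 : (6 * (n : ℝ) + 2 * l + 4) ≠ 0 := by positivity
    have g7 : (6 * (n : ℝ) + (2 * l + 4)) ≠ 0 := by positivity
    have g8 : ((n : ℝ) + (2 * l + 5) / 3) ≠ 0 := by positivity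
    have g9 : ((n : ℝ) + (1 + l / 3)) ≠ 0 := by positivity
    have g10 : ((n : ℝ) + (l + 2) / 3) ≠ 0 := by positivity
    have g11 : ((n : ℝ) + 1) ≠ 0 := by positivity
    obtain ⟨A, hA⟩ : ∃ A : ℝ, A = (n : ℝ) + (2 * l + 5) / 3 := ⟨_, rfl⟩
    obtain ⟨B, hB⟩ : ∃ B : ℝ, B = (n : ℝ) + (1 + l / 3) := ⟨_, rfl⟩
    obtain ⟨C, hC⟩ : ∃ C : ℝ, C = (n : ℝ) + (l + 2) / 3 := ⟨_, rfl⟩
    have q1 : (3 : ℝ) ^ (4 * n + 3) = (9 ^ n) ^ 2 * 27 := by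
      rw [pow_add, J_pw4]
      norm_num
    have q2 : (3 : ℝ) ^ (3 * n + l + 3) = 27 ^ n * 3 ^ l * 27 := by
      rw [pow_add, J_pw]
      norm_num
    unfold RB rB0 rB2
    rw [f1, f1', f4, p1, p1', p2, p3, p4, q1, q2, pow_succ 9 n]
    push_cast
    simp only [one_mul]
    rw [← hA, ← hB, ← hC, f2]
    rw [← hA] at g8
    rw [← hB] at g9
    rw [← hC] at g10
    obtain ⟨Q1, hQ1⟩ : ∃ Q : ℝ, Q = pd (2 * n + (2 * l + 5) / 3) n := ⟨_, rfl⟩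
    obtain ⟨Q2, hQ2⟩ : ∃ Q : ℝ, Q = pd (n + l / 3) n := ⟨_, rfl⟩
    obtain ⟨Q3, hQ3⟩ : ∃ Q : ℝ, Q = pd (n + (l - 1) / 3) n := ⟨_, rfl⟩
    rw [← hQ1] at g2 ⊢
    rw [← hQ2] at g3 ⊢
    rw [← hQ3] at g4 ⊢
    field_simp
    ring
  have e2 : (fun n : ℕ => (((((n : ℝ) + 1) * (((n : ℝ) + 1) * ((n : ℝ) + 1))) * ((n : ℝ) + 1)) * ((n : ℝ) + 1)) /
      (((((n : ℝ) + 1) * ((n : ℝ) + 1)) * ((n : ℝ) + 1)) * ((n : ℝ) + 1) * ((n : ℝ) + 1)) *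
      (((n : ℝ) + 1) ^ (-((2 * l + 2) / 3) : ℝ) * ((n : ℝ) + 1) ^ (-((2 * l + 2) / 3) : ℝ))) =
      fun n : ℕ => ((n : ℝ) + 1) ^ (-((4 * l + 4) / 3) : ℝ) := by
    funext n
    rw [J_sq]
    have h0 := (J_N n).ne'
    have h1 : (((((n : ℝ) + 1) * (((n : ℝ) + 1) * ((n : ℝ) + 1))) * ((n : ℝ) + 1)) * ((n : ℝ) + 1)) /
      (((((n : ℝ) + 1) * ((n : ℝ) + 1)) * ((n : ℝ) + 1)) * ((n : ℝ) + 1) * ((n : ℝ) + 1)) = 1 := by
      field_simp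
    rw [h1, one_mul]
  rw [e1, ← e2]
  exact hS2

end QV
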