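import Pool.Agent.Lib.MP_216314_pr.QV.D

/-!
# The masses

`SM D c = ∑_{N ≤ D, (N + c) % 3 = 0} (-1)^N choose D N`. `SM_rec`: `SM (D+2) c = -3 * SM D (c+1)` for `D ≥ 1`: from Pascal's rule twice `SM (D+2) c = SM D c - 2 SM D (c+1) + SM D (c+2)` (`N ↦ N-1` changes `N + c` to `N-1 + (c+1)` and the sign) and
`SM D 0 + SM D 1 + SM D 2 = ∑ (-1)^N choose D N = 0` (`D ≥ 1`, `Int.alternating_sum_range_choose` or `add_pow`), `SM D (c+3) = SM D c`.
`Lam_shift`: `x² - ((D+2)/2)² = -N (D+2-N)` at `x = N - (D+2)/2`; the terms `N = 0`, `N = D+2` vanish, `N = N'+1`: `N (D+2-N)/(N! (D+2-N)!) = 1/(N'! (D-N')!)`, the point `N' + 1 - (D+2)/2 = N' - D/2`.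
`ms0`: `Lam D 1 = SM D D/D!` (`Nat.choose_eq_factorial_div_factorial`, or `Nat.add_choose`); for `D = 2k+2` induction on `k`: `SM (D+2) (D+2) = -3 SM D (D+3) = -3 SM D D`; `SM 2 2 = -2`.
`ms1`: `D = 2k+3`: `Lam D 1 = 0` (reflection `N ↦ D-N`, `D` odd; or recursion), so `Lam D x = Lam D N = -SM (D-1) (D+1)/(D-1)!` (term `N`, `N = N'+1`: `(-1)^N N/(N! (D-N)!) = -(-1)^N'/(N'! (D-1-N')!)`, `N'+1+D`), `SM 2 1 = 1` (`D = 3`: `SM 2 4 = choose 2 2 = 1`), `SM (2k+2) (2k+4) = (-3)^k`.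
`ms2`: `x² = (x² - (D/2)²) + (D/2)²`, `Lam_shift` (`D = 2k+4`), `ms0` for `k` and `k+1`: `Lam (D-2) 1 = -(1/3) D (D-1) Lam D 1`, `D²/4 - D(D-1)/3 = D (4-D)/12 = -(2k+4)(2k)/12`.
`pr`: `d = 0`: `D = 0`: both sides 0; `D = 2k+2`: `ms0`. `d = 1`: `D = 1`: `Lam 1 x = 0` (no point: `decide`-like) and the right side has the factor `3 d - D - 2 = 0`; `D = 2k+3`: `ms1`. `d = 2`: `D = 0`: `Lam 0 (x²) = 0` (the point is 0) and the right side has the factor `D`; `D = 2`: the left side has the factor `d - D = 0`,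
`Lam 4 (x²) = 0` by `ms2` with `k = 0`; `D = 2k+4`: `ms2`, `ms0`.
-/

set_option autoImplicit false

noncomputable section

namespace QV

open Finset

def SM (D c : ℕ) : ℝ := ∑ N ∈ range (D + 1), if (N + c) % 3 = 0 then (-1) ^ N * (D.choose N : ℝ) else 0

/-- the alternating sum -/
private def M_T (D : ℕ) (f : ℕ → ℝ) : ℝ := ∑ N ∈ range (D + 1), (-1) ^ N * (D.choose N : ℝ) * f N

private theorem M_T_succ (D : ℕ) (f : ℕ → ℝ) : M_T (D + 1) f = M_T D (fun N => f N - f (N + 1)) := by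
  unfold M_T
  rw [Finset.sum_range_succ']
  have h1 : ∀ N ∈ range (D + 1), (-1 : ℝ) ^ (N + 1) * ((D + 1).choose (N + 1) : ℝ) * f (N + 1) =
      (-1) ^ (N + 1) * (D.choose (N + 1) : ℝ) * f (N + 1) - (-1) ^ N * (D.choose N : ℝ) * f (N + 1) := by
    intro N _
    rw [Nat.choose_succ_succ, Nat.cast_add]
    ring
  rw [Finset.sum_congr rfl h1, Finset.sum_sub_distrib]
  have h2 : ∑ N ∈ range (D + 1), (-1 : ℝ) ^ (N + 1) * (D.choose (N + 1) : ℝ) * f (N + 1) +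
      (-1) ^ 0 * (D.choose 0 : ℝ) * f 0 = ∑ N ∈ range (D + 1), (-1 : ℝ) ^ N * (D.choose N : ℝ) * f N := by
    have h3 := Finset.sum_range_succ' (fun N => (-1 : ℝ) ^ N * (D.choose N : ℝ) * f N) (D + 1)
    rw [← h3, Finset.sum_range_succ, Nat.choose_succ_self, Nat.cast_zero, mul_zero, zero_mul, add_zero]
  have h4 : ((D + 1).choose 0 : ℝ) = (D.choose 0 : ℝ) := by
    rw [Nat.choose_zero_right, Nat.choose_zero_right]
  rw [h4]
  have h5 : ∀ N ∈ range (D + 1), (-1 : ℝ) ^ N * (D.choose N : ℝ) * (f N - f (N + 1)) =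
      (-1) ^ N * (D.choose N : ℝ) * f N - (-1) ^ N * (D.choose N : ℝ) * f (N + 1) := by
    intro N _
    ring
  rw [Finset.sum_congr rfl h5, Finset.sum_sub_distrib]
  linarith

private theorem M_T_one (D : ℕ) (hD : 1 ≤ D) : M_T D (fun _ => 1) = 0 := by
  obtain ⟨k, rfl⟩ : ∃ k, D = k + 1 := ⟨D - 1, by omega⟩
  rw [M_T_succ]
  unfold M_T
  refine Finset.sum_eq_zero fun N _ => ?_
  rw [sub_self, mul_zero]

private theorem SM_eq (D c : ℕ) : SM D c = M_T D (fun N => if (N + c) % 3 = 0 then 1 else 0) := by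
  unfold SM M_T
  refine Finset.sum_congr rfl fun N _ => ?_
  beta_reduce
  split_ifs
  · rw [mul_one]
  · rw [mul_zero]

private theorem SM_per (D c : ℕ) : SM D (c + 3) = SM D c := by
  unfold SM
  refine Finset.sum_congr rfl fun N _ => ?_
  have h : (N + (c + 3)) % 3 = (N + c) % 3 := by omega
  rw [h]

theorem SM_rec (D c : ℕ) (hD : 1 ≤ D) : SM (D + 2) c = -3 * SM D (c + 1) := by
  rw [SM_eq, SM_eq, M_T_succ, M_T_succ]
  have h1 : M_T D (fun N => ((fun N => (if (N + c) % 3 = 0 then (1 : ℝ) else 0)) N -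
      (fun N => (if (N + c) % 3 = 0 then (1 : ℝ) else 0)) (N + 1)) -
      ((fun N => (if (N + c) % 3 = 0 then (1 : ℝ) else 0)) (N + 1) -
      (fun N => (if (N + c) % 3 = 0 then (1 : ℝ) else 0)) (N + 1 + 1))) =
      M_T D (fun _ => 1) - 3 * M_T D (fun N => if (N + (c + 1)) % 3 = 0 then 1 else 0) := by
    unfold M_T
    rw [Finset.mul_sum, ← Finset.sum_sub_distrib]
    refine Finset.sum_congr rfl fun N _ => ?_
    have h2 : ((if (N + c) % 3 = 0 then (1 : ℝ) else 0) - (if (N + 1 + c) % 3 = 0 then (1 : ℝ) else 0)) -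
        ((if (N + 1 + c) % 3 = 0 then (1 : ℝ) else 0) - (if (N + 1 + 1 + c) % 3 = 0 then (1 : ℝ) else 0)) =
        1 - 3 * (if (N + (c + 1)) % 3 = 0 then (1 : ℝ) else 0) := by
      rcases (by omega : (N + c) % 3 = 0 ∨ (N + c) % 3 = 1 ∨ (N + c) % 3 = 2) with h | h | h
      · rw [if_pos h, if_neg (by omega : ¬ (N + 1 + c) % 3 = 0), if_neg (by omega : ¬ (N + 1 + 1 + c) % 3 = 0),
          if_neg (by omega : ¬ (N + (c + 1)) % 3 = 0)]
        norm_num
      · rw [if_neg (by omega : ¬ (N + c) % 3 = 0), if_neg (by omega : ¬ (N + 1 + c) % 3 = 0),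
          if_pos (by omega : (N + 1 + 1 + c) % 3 = 0), if_neg (by omega : ¬ (N + (c + 1)) % 3 = 0)]
        norm_num
      · rw [if_neg (by omega : ¬ (N + c) % 3 = 0), if_pos (by omega : (N + 1 + c) % 3 = 0),
          if_neg (by omega : ¬ (N + 1 + 1 + c) % 3 = 0), if_pos (by omega : (N + (c + 1)) % 3 = 0)]
        norm_num
    show (-1 : ℝ) ^ N * (D.choose N : ℝ) *
      (((if (N + c) % 3 = 0 then (1 : ℝ) else 0) - (if (N + 1 + c) % 3 = 0 then (1 : ℝ) else 0)) -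
        ((if (N + 1 + c) % 3 = 0 then (1 : ℝ) else 0) - (if (N + 1 + 1 + c) % 3 = 0 then (1 : ℝ) else 0))) = _
    rw [h2]
    ring
  refine h1.trans ?_
  rw [M_T_one D hD]
  ring

theorem Lam_shift (D : ℕ) (f : ℝ → ℝ) :
    Lam (D + 2) (fun x => (x ^ 2 - (((D : ℝ) + 2) / 2) ^ 2) * f x) = Lam D f := by
  unfold Lam
  rw [Finset.sum_range_succ, Finset.sum_range_succ']
  have hz : ((0 : ℕ) : ℝ) - ((D + 2 : ℕ) : ℝ) / 2 = -(((D : ℝ) + 2) / 2) := by
    push_cast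
    ring
  have ht : ((D + 2 : ℕ) : ℝ) - ((D + 2 : ℕ) : ℝ) / 2 = ((D : ℝ) + 2) / 2 := by
    push_cast
    ring
  have e0 : (if (0 + (D + 2)) % 3 = 0 then
      (-1 : ℝ) ^ 0 / (((0 : ℕ).factorial : ℝ) * ((D + 2 - 0).factorial : ℝ)) *
        (((((0 : ℕ) : ℝ) - ((D + 2 : ℕ) : ℝ) / 2) ^ 2 - (((D : ℝ) + 2) / 2) ^ 2) *
          f (((0 : ℕ) : ℝ) - ((D + 2 : ℕ) : ℝ) / 2)) else 0) = 0 := by
    rw [hz, neg_sq, sub_self, zero_mul, mul_zero, ite_self]
  have e1 : (if (D + 2 + (D + 2)) % 3 = 0 then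
      (-1 : ℝ) ^ (D + 2) / (((D + 2 : ℕ).factorial : ℝ) * ((D + 2 - (D + 2)).factorial : ℝ)) *
        (((((D + 2 : ℕ) : ℝ) - ((D + 2 : ℕ) : ℝ) / 2) ^ 2 - (((D : ℝ) + 2) / 2) ^ 2) *
          f (((D + 2 : ℕ) : ℝ) - ((D + 2 : ℕ) : ℝ) / 2)) else 0) = 0 := by
    rw [ht, sub_self, zero_mul, mul_zero, ite_self]
  rw [e0, e1, add_zero, add_zero]
  refine Finset.sum_congr rfl fun N hN => ?_
  have hN' : N ≤ D := Nat.lt_succ_iff.1 (Finset.mem_range.1 hN)
  beta_reduce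
  by_cases h : (N + D) % 3 = 0
  · rw [if_pos h, if_pos (by omega : (N + 1 + (D + 2)) % 3 = 0)]
    have h1 : ((N + 1 : ℕ) : ℝ) - ((D + 2 : ℕ) : ℝ) / 2 = (N : ℝ) - (D : ℝ) / 2 := by
      push_cast
      ring
    have h2 : D + 2 - (N + 1) = (D - N) + 1 := by omega
    have h3 : ((D - N + 1 : ℕ) : ℝ) = (D : ℝ) - N + 1 := by
      rw [Nat.cast_add, Nat.cast_sub hN', Nat.cast_one]
    have h4 : (((D - N) + 1).factorial : ℝ) = ((D : ℝ) - N + 1) * ((D - N).factorial : ℝ) := by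
      rw [Nat.factorial_succ, Nat.cast_mul, h3]
    have h5 : ((N + 1).factorial : ℝ) = ((N : ℝ) + 1) * (N.factorial : ℝ) := by
      rw [Nat.factorial_succ, Nat.cast_mul, Nat.cast_add, Nat.cast_one]
    have h6 : ((N.factorial : ℕ) : ℝ) ≠ 0 := Nat.cast_ne_zero.2 (Nat.factorial_ne_zero _)
    have h7 : (((D - N).factorial : ℕ) : ℝ) ≠ 0 := Nat.cast_ne_zero.2 (Nat.factorial_ne_zero _)
    have h8 : (N : ℝ) + 1 ≠ 0 := by positivity
    have h9 : (D : ℝ) - N + 1 ≠ 0 := by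
      have : (N : ℝ) ≤ D := by exact_mod_cast hN'
      linarith
    rw [h1, h2, h4, h5, pow_succ]
    have h10 : ((N : ℝ) - (D : ℝ) / 2) ^ 2 - (((D : ℝ) + 2) / 2) ^ 2 =
        -(((N : ℝ) + 1) * ((D : ℝ) - N + 1)) := by ring
    rw [h10]
    field_simp
  · rw [if_neg h, if_neg (by omega : ¬ (N + 1 + (D + 2)) % 3 = 0)]

private theorem Lam_one (D : ℕ) : Lam D (fun _ => 1) = SM D D / (D.factorial : ℝ) := by
  unfold Lam SM
  rw [Finset.sum_div]
  refine Finset.sum_congr rfl fun N hN => ?_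
  have hN' : N ≤ D := Nat.lt_succ_iff.1 (Finset.mem_range.1 hN)
  split_ifs
  · have h1 : (D.choose N : ℝ) = (D.factorial : ℝ) / ((N.factorial : ℝ) * ((D - N).factorial : ℝ)) := by
      rw [Nat.cast_choose ℝ hN']
    have h2 : (D.factorial : ℝ) ≠ 0 := Nat.cast_ne_zero.2 (Nat.factorial_ne_zero D)
    rw [h1, mul_one]
    field_simp
  · rw [zero_div]

private theorem SM_even0 (k : ℕ) : SM (2 * k + 2) (2 * k + 2) = -2 * (-3) ^ k := by
  induction k with
  | zero =>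
    unfold SM
    norm_num [Finset.sum_range_succ]
  | succ k ih =>
    have h1 : 2 * (k + 1) + 2 = (2 * k + 2) + 2 := by ring
    have h2 : SM (2 * k + 2 + 2) (2 * k + 2 + 2) = -3 * SM (2 * k + 2) (2 * k + 2 + 2 + 1) :=
      SM_rec (2 * k + 2) (2 * k + 2 + 2) (by omega)
    have h3 : 2 * k + 2 + 2 + 1 = (2 * k + 2) + 3 := by ring
    rw [h1, h2, h3, SM_per, ih, pow_succ]
    ring

private theorem SM_odd0 (k : ℕ) : SM (2 * k + 1) (2 * k + 1) = 0 := by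
  induction k with
  | zero =>
    unfold SM
    norm_num [Finset.sum_range_succ]
  | succ k ih =>
    have h1 : 2 * (k + 1) + 1 = (2 * k + 1) + 2 := by ring
    have h2 : SM (2 * k + 1 + 2) (2 * k + 1 + 2) = -3 * SM (2 * k + 1) (2 * k + 1 + 2 + 1) :=
      SM_rec (2 * k + 1) (2 * k + 1 + 2) (by omega)
    have h3 : 2 * k + 1 + 2 + 1 = (2 * k + 1) + 3 := by ring
    rw [h1, h2, h3, SM_per, ih, mul_zero]

private theorem SM_even2 (k : ℕ) : SM (2 * k + 2) (2 * k + 4) = (-3) ^ k := by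
  induction k with
  | zero =>
    unfold SM
    norm_num [Finset.sum_range_succ]
  | succ k ih =>
    have h1 : 2 * (k + 1) + 2 = (2 * k + 2) + 2 := by ring
    have h1' : 2 * (k + 1) + 4 = 2 * k + 6 := by ring
    have h2 : SM (2 * k + 2 + 2) (2 * k + 6) = -3 * SM (2 * k + 2) (2 * k + 6 + 1) :=
      SM_rec (2 * k + 2) (2 * k + 6) (by omega)
    have h3 : 2 * k + 6 + 1 = (2 * k + 4) + 3 := by ring
    rw [h1, h1', h2, h3, SM_per, ih, pow_succ]
    ring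

theorem ms0 (k : ℕ) : Lam (2 * k + 2) (fun _ => 1) = 2 * (-1) ^ (k + 1) * 3 ^ k / ((2 * k + 2).factorial : ℝ) := by
  rw [Lam_one, SM_even0]
  have h1 : (-2 : ℝ) * (-3) ^ k = 2 * (-1) ^ (k + 1) * 3 ^ k := by
    rw [show (-3 : ℝ) = -1 * 3 by norm_num, mul_pow, pow_succ]
    ring
  rw [h1]

private theorem ms0r (k : ℕ) : Lam (2 * k + 2) (fun _ => 1) =
    -((2 * k + 4) * (2 * k + 3) / 3) * Lam (2 * k + 4) (fun _ => 1) := by
  have h1 := ms0 (k + 1)
  have h2 : 2 * (k + 1) + 2 = 2 * k + 4 := by ring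
  rw [h2] at h1
  rw [h1, ms0 k]
  have h3 : ((2 * k + 4).factorial : ℝ) = (2 * k + 4) * ((2 * k + 3) * ((2 * k + 2).factorial : ℝ)) := by
    rw [show 2 * k + 4 = (2 * k + 3) + 1 by ring, Nat.factorial_succ, show 2 * k + 3 = (2 * k + 2) + 1 by ring,
      Nat.factorial_succ]
    push_cast
    ring
  have h4 : ((2 * k + 2).factorial : ℝ) ≠ 0 := Nat.cast_ne_zero.2 (Nat.factorial_ne_zero _)
  have h5 : (2 * (k : ℝ) + 4) ≠ 0 := by positivity
  have h6 : (2 * (k : ℝ) + 3) ≠ 0 := by positivity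
  rw [h3]
  field_simp
  ring

theorem ms1 (k : ℕ) : Lam (2 * k + 3) (fun x => x) = -((-3) ^ k / ((2 * k + 2).factorial : ℝ)) := by
  have h0 : Lam (2 * k + 3) (fun _ => 1) = 0 := by
    have h := SM_odd0 (k + 1)
    have h' : 2 * (k + 1) + 1 = 2 * k + 3 := by ring
    rw [h'] at h
    rw [Lam_one, h, zero_div]
  have h1 : Lam (2 * k + 3) (fun x => x) = Lam (2 * k + 3) (fun x => (x + ((2 * k + 3 : ℕ) : ℝ) / 2)) -
      Lam (2 * k + 3) (fun _ => ((2 * k + 3 : ℕ) : ℝ) / 2 * 1) := by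
    rw [← Lam_sub]
    refine Lam_congr fun N _ => ?_
    ring
  rw [Lam_mul, h0, mul_zero, sub_zero] at h1
  rw [h1]
  unfold Lam
  rw [Finset.sum_range_succ']
  have e0 : (if (0 + (2 * k + 3)) % 3 = 0 then
      (-1 : ℝ) ^ 0 / (((0 : ℕ).factorial : ℝ) * ((2 * k + 3 - 0).factorial : ℝ)) *
        ((((0 : ℕ) : ℝ) - ((2 * k + 3 : ℕ) : ℝ) / 2) + ((2 * k + 3 : ℕ) : ℝ) / 2) else 0) = 0 := by
    rw [sub_add_cancel, Nat.cast_zero, mul_zero, ite_self]
  rw [e0, add_zero, ← SM_even2 k]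
  unfold SM
  rw [Finset.sum_div, ← Finset.sum_neg_distrib]
  refine Finset.sum_congr rfl fun N hN => ?_
  have hN' : N ≤ 2 * k + 2 := Nat.lt_succ_iff.1 (Finset.mem_range.1 hN)
  beta_reduce
  by_cases h : (N + (2 * k + 4)) % 3 = 0
  · rw [if_pos h, if_pos (by omega : (N + 1 + (2 * k + 3)) % 3 = 0), sub_add_cancel]
    have h2 : 2 * k + 3 - (N + 1) = 2 * k + 2 - N := by omega
    have h5 : ((N + 1).factorial : ℝ) = ((N : ℝ) + 1) * (N.factorial : ℝ) := by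
      rw [Nat.factorial_succ, Nat.cast_mul, Nat.cast_add, Nat.cast_one]
    have h6 : ((N.factorial : ℕ) : ℝ) ≠ 0 := Nat.cast_ne_zero.2 (Nat.factorial_ne_zero _)
    have h7 : (((2 * k + 2 - N).factorial : ℕ) : ℝ) ≠ 0 := Nat.cast_ne_zero.2 (Nat.factorial_ne_zero _)
    have h8 : (N : ℝ) + 1 ≠ 0 := by positivity
    have h9 : (((2 * k + 2).factorial : ℕ) : ℝ) ≠ 0 := Nat.cast_ne_zero.2 (Nat.factorial_ne_zero _)
    rw [h2, h5, Nat.cast_choose ℝ hN', pow_succ, Nat.cast_add, Nat.cast_one]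
    field_simp
  · rw [if_neg h, if_neg (by omega : ¬ (N + 1 + (2 * k + 3)) % 3 = 0), zero_div, neg_zero]

theorem ms2 (k : ℕ) : Lam (2 * k + 4) (fun x => x ^ 2) =
    -((2 * k + 4) * (2 * k) / 12) * Lam (2 * k + 4) (fun _ => 1) := by
  have h1 : Lam (2 * k + 2 + 2) (fun x => x ^ 2) =
      Lam (2 * k + 2 + 2) (fun x => (x ^ 2 - (((2 * k + 2 : ℕ) : ℝ) + 2) ^ 2 / 2 ^ 2) * 1) +
      Lam (2 * k + 2 + 2) (fun _ => (((2 * k + 2 : ℕ) : ℝ) + 2) ^ 2 / 2 ^ 2 * 1) := by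
    rw [← Lam_add]
    refine Lam_congr fun N _ => ?_
    ring
  have h2 := Lam_shift (2 * k + 2) (fun _ => 1)
  simp only [div_pow] at h2
  have h3 := ms0r k
  rw [Lam_mul, h2, h3] at h1
  have h4 : 2 * k + 2 + 2 = 2 * k + 4 := by ring
  rw [h4] at h1
  rw [h1]
  push_cast
  ring

theorem pr {D d : ℕ} (h : Ok D d) : Lam D (fun x => x ^ d) * (((d : ℝ) - D) / 2) =
    -(((D : ℝ) + 1) * D * (3 * d - D - 2) / 6) * Lam (D + 2) (fun x => x ^ d) := by
  rcases h with ⟨rfl, h⟩ | ⟨rfl, h⟩ | ⟨rfl, h⟩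
  · obtain ⟨j, hj⟩ := h
    simp only [pow_zero, Nat.cast_zero]
    rcases Nat.eq_zero_or_pos j with h0 | h0
    · have hD : D = 0 := by omega
      rw [hD]
      norm_num
    · obtain ⟨k, rfl⟩ : ∃ k, j = k + 1 := ⟨j - 1, by omega⟩
      have hD : D = 2 * k + 2 := by omega
      rw [hD]
      have h1 := ms0r k
      rw [h1]
      have h4 : 2 * k + 2 + 2 = 2 * k + 4 := by ring
      rw [h4]
      push_cast
      ring
  · obtain ⟨j, hj⟩ := h
    simp only [pow_one, Nat.cast_one]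
    rcases Nat.eq_zero_or_pos j with h0 | h0
    · have hD : D = 1 := by omega
      rw [hD]
      norm_num
    · obtain ⟨k, rfl⟩ : ∃ k, j = k + 1 := ⟨j - 1, by omega⟩
      have hD : D = 2 * k + 3 := by omega
      rw [hD, ms1 k]
      have h1 := ms1 (k + 1)
      have h4 : 2 * (k + 1) + 3 = 2 * k + 3 + 2 := by ring
      have h5 : 2 * (k + 1) + 2 = 2 * k + 4 := by ring
      rw [h4, h5] at h1
      rw [h1]
      have h3 : ((2 * k + 4).factorial : ℝ) = (2 * k + 4) * ((2 * k + 3) * ((2 * k + 2).factorial : ℝ)) := by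
        rw [show 2 * k + 4 = (2 * k + 3) + 1 by ring, Nat.factorial_succ,
          show 2 * k + 3 = (2 * k + 2) + 1 by ring, Nat.factorial_succ]
        push_cast
        ring
      have h6 : ((2 * k + 2).factorial : ℝ) ≠ 0 := Nat.cast_ne_zero.2 (Nat.factorial_ne_zero _)
      have h7 : (2 * (k : ℝ) + 4) ≠ 0 := by positivity
      have h8 : (2 * (k : ℝ) + 3) ≠ 0 := by positivity
      rw [h3]
      push_cast
      rw [pow_succ]
      field_simp
      ring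
  · obtain ⟨j, hj⟩ := h
    rcases Nat.eq_zero_or_pos j with h0 | h0
    · have hD : D = 0 := by omega
      rw [hD]
      have h1 : Lam 0 (fun x => x ^ 2) = 0 := by
        unfold Lam
        norm_num
      rw [h1]
      norm_num
    · rcases Nat.eq_or_lt_of_le h0 with h0' | h0'
      · have hD : D = 2 := by omega
        rw [hD]
        have h1 := ms2 0
        norm_num at h1
        norm_num
        exact h1
      · obtain ⟨k, rfl⟩ : ∃ k, j = k + 2 := ⟨j - 2, by omega⟩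
        have hD : D = 2 * k + 4 := by omega
        rw [hD, ms2 k]
        have h1 := ms2 (k + 1)
        have h4 : 2 * (k + 1) + 4 = 2 * k + 4 + 2 := by ring
        rw [h4] at h1
        rw [h1]
        have h2 := ms0r (k + 1)
        have h5 : 2 * (k + 1) + 2 = 2 * k + 4 := by ring
        rw [h4, h5] at h2
        rw [h2]
        push_cast
        ring

end QV
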